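import Pool.Agent.H531.MS.Cst
import Pool.Graph.R_seed8.Y835.SB.Sub

set_option autoImplicit false

/-!
# The lower constant is positive for exponents larger than two
-/

open Finset Filter Topology
open scoped ENNReal

namespace Pool.Agent.H531.MS

open Pool.Agent.T2H31.HV
open Pool.Agent.T2H32.BF (V V_pos V_anti V_ratio)

/-- the linear sieve -/
theorem lin_sieve (ε : ℝ) (hε : 0 < ε) (hε1 : ε ≤ 1) : ∃ c : ℝ, 0 < c ∧ ∃ Y0 : ℕ, ∀ Y : ℕ, Y0 ≤ Y →
    ∀ (x w : ℕ), (w : ℝ) ≤ (Y : ℝ) ^ (1 / (2 + ε)) → c * (Y * V w) ≤ CQ (PN w) x Y := by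
  obtain ⟨c, hc, Y0, h⟩ := Pool.Agent.Y835.SB.sub_low ε hε hε1
  refine ⟨c, hc, Y0, fun Y hY x w hw => ?_⟩
  have h1 := h Y hY x (PN w) fun p hp => by
    rw [mem_PN] at hp
    refine ⟨hp.2, le_trans ?_ hw⟩
    exact_mod_cast hp.1
  have h2 : ((Icc 1 Y).filter (fun h => ∀ p ∈ PN w, ¬ p ∣ x + h)).card = CQ (PN w) x Y := by
    unfold CQ
    refine card_bij (fun h _ => x + h) ?_ ?_ ?_
    · intro h hh
      rw [mem_filter, mem_Icc] at hh
      rw [mem_filter, mem_Ioc]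
      exact ⟨⟨by omega, by omega⟩, hh.2⟩
    · intro h _ h' _ e
      omega
    · intro m hm
      rw [mem_filter, mem_Ioc] at hm
      refine ⟨m - x, ?_, by omega⟩
      rw [mem_filter, mem_Icc, show x + (m - x) = m by omega]
      exact ⟨⟨by omega, by omega⟩, hm.2⟩
  have h3 : (((Icc 1 Y).filter (fun h => ∀ p ∈ PN w, ¬ p ∣ x + h)).card : ℝ) = CQ (PN w) x Y := by
    exact_mod_cast h2
  rw [V_eq]
  calc c * (Y * ∏ p ∈ PN w, (1 - 1 / (p : ℝ))) ≤ _ := h1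
    _ = CQ (PN w) x Y := by
      rw [← h3]

theorem nc_lower {a : ℝ} (ha : 2 < a) : ∃ c : ℝ, 0 < c ∧ ∀ᶠ u : ℕ in atTop, ∀ x : ℕ, c ≤ nc a u x := by
  set ε := min 1 ((a - 2) / 2) with hε
  have hε0 : 0 < ε := by
    rw [hε]
    exact lt_min one_pos (by linarith)
  have hε1 : ε ≤ 1 := min_le_left _ _
  have hε2 : 2 + ε < a := by
    have : ε ≤ (a - 2) / 2 := min_le_right _ _
    linarith
  obtain ⟨c, hc, Y0, h⟩ := lin_sieve ε hε0 hε1
  refine ⟨c / 2, by positivity, ?_⟩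
  have ha0 : 0 < a := by linarith
  have ht : Tendsto (fun u : ℕ => ⌊(u : ℝ) ^ a⌋₊) atTop atTop :=
    tendsto_nat_floor_atTop.comp (rpow_nat_top ha0)
  filter_upwards [floor_facts ha0 (1 / 2) (by norm_num), ht.eventually_ge_atTop Y0,
    ratio_small hε2 (1 / 2) (by norm_num)] with u h1 h2 h3 x
  obtain ⟨h4, h5, h6, h7⟩ := h1
  have hu : (2 : ℝ) ≤ u := by exact_mod_cast h4
  set Y := ⌊(u : ℝ) ^ a⌋₊ with hY
  have h8 := h Y h2 x u (by
    have h9 : (u : ℝ) ^ (2 + ε) ≤ Y := by linarith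
    calc (u : ℝ) = ((u : ℝ) ^ (2 + ε)) ^ (1 / (2 + ε)) := by
          rw [← Real.rpow_mul (by linarith), mul_one_div_cancel (by linarith), Real.rpow_one]
      _ ≤ _ := Real.rpow_le_rpow (by positivity) h9 (by positivity))
  unfold nc
  have hV := V_pos u
  have hua : 0 < (u : ℝ) ^ a := Real.rpow_pos_of_pos (by linarith) _
  rw [← hY, le_div_iff₀ (by positivity)]
  calc c / 2 * ((u : ℝ) ^ a * V u) = c * (((1 - 1 / 2) * (u : ℝ) ^ a) * V u) := by ring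
    _ ≤ c * (Y * V u) := by gcongr
    _ ≤ _ := h8

theorem fm_pos {a : ℝ} (ha : 2 < a) : 0 < fm a := by
  obtain ⟨c, hc, h⟩ := nc_lower ha
  have h1 : ENNReal.ofReal c ≤ fm a := by
    unfold fm
    refine le_liminf_of_le (by isBoundedDefault) ?_
    filter_upwards [h] with u hu
    exact le_iInf fun x => ENNReal.ofReal_le_ofReal (hu x)
  exact (ENNReal.ofReal_pos.2 hc).trans_le h1

end Pool.Agent.H531.MS
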