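import Pool.Agent.H531.MS.PrmB
import Pool.Agent.H531.MS.Pos
import Pool.Graph.R_pool_sql_team_seeded_9f66d723.W5h31.UM.UM9

set_option autoImplicit false

/-!
# Translations
-/

open Finset Filter Topology
open scoped ENNReal

namespace Pool.Agent.H531.MS

open Pool.Agent.T2H31.HV
open Pool.Agent.T2H32.BF (V V_pos V_anti V_ratio)

theorem fp_lt_top {a : ℝ} (ha : 1 < a) : fp a < ⊤ := by
  obtain ⟨C, hC, h⟩ := nc_bdd ha
  refine lt_of_le_of_lt ?_ (ENNReal.ofReal_lt_top (r := C))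
  unfold fp
  refine limsup_le_of_le (by isBoundedDefault) ?_
  filter_upwards [h] with u hu
  exact iSup_le fun x => ENNReal.ofReal_le_ofReal (hu x)

theorem S_eq (u x y : ℕ) : {m : ℕ | x < m ∧ m ≤ x + y ∧ ∀ p ≤ u, p.Prime → ¬ p ∣ m}.ncard = CQ (PN u) x y := by
  classical
  unfold CQ
  rw [← Set.ncard_coe_finset]
  congr 1
  ext m
  rw [mem_coe, mem_filter, mem_Ioc, Set.mem_ofPred_eq]
  constructor
  · rintro ⟨h1, h2, h3⟩
    refine ⟨⟨h1, h2⟩, fun p hp => ?_⟩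
    rw [mem_PN] at hp
    exact h3 p hp.1 hp.2
  · rintro ⟨⟨h1, h2⟩, h3⟩
    exact ⟨h1, h2, fun p hp hpp => h3 p ((mem_PN _ _).2 ⟨hp, hpp⟩)⟩

theorem pi_diff (m n : ℕ) (h : m ≤ n) :
    (((Ioc m n).filter Nat.Prime).card : ℝ) = (Nat.primeCounting n : ℝ) - Nat.primeCounting m := by
  have hpc : ∀ k, Nat.primeCounting k = ((range (k + 1)).filter Nat.Prime).card := by
    intro k
    rw [Nat.primeCounting, Nat.primeCounting', Nat.count_eq_card_filter_range]
  have e : (range (n + 1)).filter Nat.Prime = (range (m + 1)).filter Nat.Prime ∪ (Ioc m n).filter Nat.Prime := by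
    ext p
    rw [mem_union, mem_filter, mem_filter, mem_filter, mem_range, mem_range, mem_Ioc]
    constructor
    · rintro ⟨h1, h2⟩
      by_cases h3 : p < m + 1
      · exact Or.inl ⟨h3, h2⟩
      · exact Or.inr ⟨⟨by omega, by omega⟩, h2⟩
    · rintro (⟨h1, h2⟩ | ⟨⟨h1, h1'⟩, h2⟩)
      · exact ⟨by omega, h2⟩
      · exact ⟨by omega, h2⟩
  have hd : Disjoint ((range (m + 1)).filter Nat.Prime) ((Ioc m n).filter Nat.Prime) := by
    rw [disjoint_left]
    intro p hp hp'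
    rw [mem_filter, mem_range] at hp
    rw [mem_filter, mem_Ioc] at hp'
    omega
  rw [hpc, hpc, e, card_union_of_disjoint hd]
  push_cast
  ring

theorem Rr_primes (a x : ℝ) (hx : 1 ≤ x) : Rr {m : ℕ | m.Prime} a x =
    Real.log x / Real.log x ^ a *
      ((Nat.primeCounting ⌊x + Real.log x ^ a⌋₊ : ℝ) - Nat.primeCounting ⌊x⌋₊) := by
  classical
  unfold Rr
  have hl : 0 ≤ Real.log x := Real.log_nonneg hx
  have hp : 0 ≤ Real.log x ^ a := by positivity
  have hle : ⌊x⌋₊ ≤ ⌊x + Real.log x ^ a⌋₊ := Nat.floor_le_floor (by linarith)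
  rw [← pi_diff _ _ hle]
  congr 2
  rw [← Set.ncard_coe_finset]
  congr 1
  ext m
  simp only [Set.mem_inter_iff, Set.mem_ofPred_eq, coe_filter, mem_Ioc]
  rw [Nat.floor_lt (by linarith), Nat.le_floor_iff (by linarith)]
  tauto

open Pool.Agent.W5h31.UM (Rh Below Pos pw)

theorem coe_up (h : ℝ → ℝ) (hh : ∀ᶠ x : ℝ in atTop, 0 ≤ Rh h x) :
    Pool.Agent.W5h31.UM.U h = ((limsup (fun x : ℝ => ENNReal.ofReal (Rh h x)) atTop : ℝ≥0∞) : EReal) := by
  unfold Pool.Agent.W5h31.UM.U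
  have h1 := Monotone.map_limsup_of_continuousAt (F := atTop) (f := fun t : ℝ≥0∞ => (t : EReal))
    (fun s t hst => EReal.coe_ennreal_le_coe_ennreal_iff.2 hst) (fun x : ℝ => ENNReal.ofReal (Rh h x))
    continuous_coe_ennreal_ereal.continuousAt
  rw [h1]
  refine limsup_congr ?_
  filter_upwards [hh] with x hx
  simp only [Function.comp, EReal.coe_ennreal_ofReal, max_eq_left hx]

theorem coe_lo (h : ℝ → ℝ) (hh : ∀ᶠ x : ℝ in atTop, 0 ≤ Rh h x) :
    Pool.Agent.W5h31.UM.L h = ((liminf (fun x : ℝ => ENNReal.ofReal (Rh h x)) atTop : ℝ≥0∞) : EReal) := by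
  unfold Pool.Agent.W5h31.UM.L
  have h1 := Monotone.map_liminf_of_continuousAt (F := atTop) (f := fun t : ℝ≥0∞ => (t : EReal))
    (fun s t hst => EReal.coe_ennreal_le_coe_ennreal_iff.2 hst) (fun x : ℝ => ENNReal.ofReal (Rh h x))
    continuous_coe_ennreal_ereal.continuousAt
  rw [h1]
  refine liminf_congr ?_
  filter_upwards [hh] with x hx
  simp only [Function.comp, EReal.coe_ennreal_ofReal, max_eq_left hx]

theorem Rh_nonneg (h : ℝ → ℝ) (hh : ∀ᶠ x : ℝ in atTop, 0 ≤ h x) : ∀ᶠ x : ℝ in atTop, 0 ≤ Rh h x := by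
  filter_upwards [hh, eventually_ge_atTop 1] with x h1 h2
  unfold Rh
  have h3 : ⌊x⌋₊ ≤ ⌊x + h x⌋₊ := Nat.floor_le_floor (by linarith)
  have h4 : (Nat.primeCounting ⌊x⌋₊ : ℝ) ≤ Nat.primeCounting ⌊x + h x⌋₊ := by
    exact_mod_cast Nat.monotone_primeCounting h3
  have h5 := Real.log_nonneg h2
  have h6 : 0 ≤ (Nat.primeCounting ⌊x + h x⌋₊ : ℝ) - Nat.primeCounting ⌊x⌋₊ := by linarith
  positivity

theorem pw_main {a : ℝ} (ha : 1 < a) :
    liminf (fun x : ℝ => ENNReal.ofReal (Rh (pw a) x)) atTop ≤ fm a ∧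
      fp a ≤ limsup (fun x : ℝ => ENNReal.ofReal (Rh (pw a) x)) atTop := by
  obtain ⟨h1, h2⟩ := primes_main ha
  have e : ∀ᶠ x : ℝ in atTop, ENNReal.ofReal (Rr {m : ℕ | m.Prime} a x) = ENNReal.ofReal (Rh (pw a) x) := by
    filter_upwards [eventually_ge_atTop 1] with x hx
    rw [Rr_primes a x hx]
    rfl
  rw [liminf_congr e] at h1
  rw [limsup_congr e] at h2
  exact ⟨h1, h2⟩

/-- all functions -/
theorem all_main (h : ℝ → ℝ) (A B c : ℝ) (hA : 0 < A) (hAB : A < B) (hB : 1 < B) (hc : 0 < c)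
    (hh : ∀ᶠ x : ℝ in atTop, c ≤ h x ∧ h x ≤ Real.log x ^ A) :
    liminf (fun x : ℝ => ENNReal.ofReal (Rh h x)) atTop ≤ fm B ∧
      fp B ≤ limsup (fun x : ℝ => ENNReal.ofReal (Rh h x)) atTop := by
  have hP : Pos h := ⟨c, hc, hh.mono fun x hx => hx.1⟩
  have hb := Pool.Agent.W5h31.UM.below_pw A B hA hAB h (hh.mono fun x hx => hx.2)
  have h0 := Rh_nonneg h (hh.mono fun x hx => hc.le.trans hx.1)
  have h1 := Rh_nonneg (pw B) (by
    filter_upwards [eventually_ge_atTop 1] with x hx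
    have := Real.log_nonneg hx
    unfold pw
    positivity)
  have hU := Pool.Agent.W5h31.UM.U_le h (pw B) hP hb
  have hL := Pool.Agent.W5h31.UM.L_le h (pw B) hP hb (Pool.Agent.W5h31.UM.pw_le B)
  rw [coe_up h h0, coe_up _ h1, EReal.coe_ennreal_le_coe_ennreal_iff] at hU
  rw [coe_lo h h0, coe_lo _ h1, EReal.coe_ennreal_le_coe_ennreal_iff] at hL
  obtain ⟨h2, h3⟩ := pw_main hB
  exact ⟨hL.trans h2, h3.trans hU⟩

end Pool.Agent.H531.MS
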