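import Pool.Agent.H531.MS.Win
import Pool.Agent.H531.MS.Pos
import Pool.Agent.H531.MS.Res

set_option autoImplicit false

/-!
# The limits in the random sieve model
-/

open Finset MeasureTheory ProbabilityTheory Filter Topology
open scoped ENNReal

namespace Pool.Agent.H531.MS

open Pool.Agent.T2H31.HV Pool.Agent.H531.SI
open Pool.Agent.T2H32.BF (V V_pos V_anti V_ratio z0 z0_mono z0_lim z0_top R Model)

theorem real_window (S : Set ℕ) (a x : ℝ) (hx : 1 ≤ x) :
    Rr S a x = Real.log x / Real.log x ^ a *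
      ((S ∩ Set.Ioc ⌊x⌋₊ (⌊x⌋₊ + (⌊x + Real.log x ^ a⌋₊ - ⌊x⌋₊))).ncard : ℝ) := by
  have hl : 0 ≤ Real.log x := Real.log_nonneg hx
  have hp : 0 ≤ Real.log x ^ a := by positivity
  have hle : ⌊x⌋₊ ≤ ⌊x + Real.log x ^ a⌋₊ := Nat.floor_le_floor (by linarith)
  unfold Rr
  rw [Nat.add_sub_cancel' hle]
  congr 3
  ext m
  simp only [Set.mem_inter_iff, Set.mem_ofPred_eq, Set.mem_Ioc]
  rw [Nat.floor_lt (by linarith), Nat.le_floor_iff (by linarith)]

theorem rr_window {b : ℕ → ℕ} (hb : Good b) {a : ℝ} (ha : 2 < a) (ε : ℝ) (hε : 0 < ε) : ∀ᶠ u : ℕ in atTop,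
    ∀ (x : ℝ) (x'' : ℕ), 1 ≤ x → (u : ℝ) ≤ Real.log ⌊x⌋₊ → Real.log x ≤ u + 2 →
      (∀ y', sv (u / 2) ⌊x⌋₊ y' b = CQ (PN (u / 2)) x'' y') →
        nc a u x'' ≤ (1 + ε) * Rr (R z0 b) a x + ε ∧ Rr (R z0 b) a x ≤ (1 + ε) * nc a u x'' + ε := by
  have ha1 : 1 < a := by linarith
  have ha0 : 0 < a := by linarith
  set κ := min ε 1 / 2 with hκ
  have hκ0 : 0 < κ := by positivity
  have hκε : 2 * κ ≤ ε := by
    rw [hκ]
    have := min_le_left ε 1
    linarith
  have hκ1 : κ ≤ 1 := by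
    rw [hκ]
    have := min_le_right ε 1
    linarith
  filter_upwards [window hb ha κ hκ0, pow_near ha1.le κ hκ0, eventually_ge_atTop 4,
    (tendsto_natCast_atTop_atTop (R := ℝ)).eventually_ge_atTop (2 / κ)] with u h1 h2 h3 h4 x x'' hx1 hx2 hx3 hsv
  have hu : (4 : ℝ) ≤ u := by exact_mod_cast h3
  have hu0 : (0 : ℝ) < u := by linarith
  set X := ⌊x⌋₊ with hX
  have hXx : (X : ℝ) ≤ x := Nat.floor_le (by linarith)
  have hxX := Nat.lt_floor_add_one x
  rw [← hX] at hxX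
  have hX1 : 1 ≤ X := Nat.le_floor (by simpa using hx1)
  have hX1' : (1 : ℝ) ≤ X := by exact_mod_cast hX1
  have hlX : Real.log X ≤ Real.log x := Real.log_le_log (by linarith) hXx
  have hl0 : 0 < Real.log x := by linarith
  set h := Real.log x ^ a with hh
  have hua : 0 < (u : ℝ) ^ a := Real.rpow_pos_of_pos hu0 _
  have hh1 : (u : ℝ) ^ a ≤ h := Real.rpow_le_rpow hu0.le (hx2.trans hlX) ha0.le
  have hh2 : h ≤ ((u : ℝ) + 2) ^ a := Real.rpow_le_rpow hl0.le hx3 ha0.le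
  have hh3 : h ≤ (1 + κ) * (u : ℝ) ^ a := hh2.trans h2.1
  have hh0 : 0 < h := hua.trans_le hh1
  set y := ⌊x + h⌋₊ - X with hy
  have hle : X ≤ ⌊x + h⌋₊ := Nat.floor_le_floor (by linarith)
  have hyR : (y : ℝ) = ⌊x + h⌋₊ - X := by
    rw [hy, Nat.cast_sub hle]
  have hY : ⌊(u : ℝ) ^ a⌋₊ ≤ y := by
    rw [hy]
    have h5 : X + ⌊(u : ℝ) ^ a⌋₊ ≤ ⌊x + h⌋₊ := by
      apply Nat.le_floor
      push_cast
      have h6 : (⌊(u : ℝ) ^ a⌋₊ : ℝ) ≤ (u : ℝ) ^ a := Nat.floor_le hua.le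
      linarith
    omega
  have hyu : (y : ℝ) ≤ ((u : ℝ) + 2) ^ a + 1 := by
    rw [hyR]
    have h6 : (⌊x + h⌋₊ : ℝ) ≤ x + h := Nat.floor_le (by linarith)
    linarith
  have hw := h1 X y x'' hx2 (hlX.trans hx3) hY hyu hsv
  rw [real_window _ a x hx1, ← hX, ← hh, ← hy]
  set cR := ((R z0 b ∩ Set.Ioc X (X + y)).ncard : ℝ) with hcR
  have hcR0 : 0 ≤ cR := Nat.cast_nonneg _
  set M := (CQ (PN u) x'' ⌊(u : ℝ) ^ a⌋₊ : ℝ) with hM
  have hVu := V_pos u
  have hnc : M / V u = nc a u x'' * (u : ℝ) ^ a := by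
    unfold nc
    rw [← hM]
    field_simp
  rw [hnc, abs_le] at hw
  have hnc0 := nc_nonneg a u x''
  set g := nc a u x'' with hg
  -- the normalised count with `log X` and `u ^ a`
  set q := cR * Real.log X / (u : ℝ) ^ a with hq
  have hq0 : 0 ≤ q := by
    have : 0 ≤ Real.log X := by linarith
    positivity
  have hq1 : g - κ ≤ q := by
    rw [hq, le_div_iff₀ hua]
    linarith
  have hq2 : q ≤ g + κ := by
    rw [hq, div_le_iff₀ hua]
    linarith
  have hlog : Real.log x ≤ (1 + κ) * Real.log X := by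
    rw [div_le_iff₀ hκ0] at h4
    have : κ * u ≤ κ * Real.log X := by gcongr
    linarith
  have r1 : Real.log x / h * cR ≤ (1 + κ) * q := by
    calc Real.log x / h * cR ≤ ((1 + κ) * Real.log X) / (u : ℝ) ^ a * cR := by gcongr
      _ = (1 + κ) * q := by
        rw [hq]
        ring
  have r2 : q ≤ (1 + κ) * (Real.log x / h * cR) := by
    calc q = Real.log X / (u : ℝ) ^ a * cR := by
          rw [hq]
          ring
      _ ≤ Real.log x / (u : ℝ) ^ a * cR := by gcongr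
      _ = (Real.log x * cR) * (1 / (u : ℝ) ^ a) := by ring
      _ ≤ (Real.log x * cR) * ((1 + κ) / h) := by
        apply mul_le_mul_of_nonneg_left _ (by positivity)
        rw [div_le_div_iff₀ hua hh0]
        linarith
      _ = _ := by ring
  set r := Real.log x / h * cR with hr
  have hr0 : 0 ≤ r := by positivity
  constructor
  · have : κ * r ≤ ε * r := by
      apply mul_le_mul_of_nonneg_right _ hr0
      linarith
    linarith
  · have e1 : (1 + κ) * q ≤ (1 + κ) * (g + κ) := by gcongr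
    have e2 : κ * g ≤ ε * g := by
      apply mul_le_mul_of_nonneg_right _ hnc0
      linarith
    have e3 : κ * κ ≤ κ * 1 := by gcongr
    linarith

theorem prim_le (u : ℕ) : (primorial (u / 2) : ℝ) ≤ Real.exp u := by
  have h1 : primorial (u / 2) ≤ 4 ^ (u / 2) := primorial_le_four_pow _
  have h2 : 4 ^ (u / 2) ≤ 2 ^ u := by
    rw [show 4 = 2 ^ 2 by norm_num, ← pow_mul]
    exact Nat.pow_le_pow_right (by norm_num) (by omega)
  have h3 : (primorial (u / 2) : ℝ) ≤ (2 : ℝ) ^ u := by exact_mod_cast h1.trans h2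
  refine h3.trans ?_
  have h4 : (2 : ℝ) ≤ Real.exp 1 := by
    have := Real.add_one_le_exp (1 : ℝ)
    linarith
  calc (2 : ℝ) ^ u ≤ Real.exp 1 ^ u := pow_le_pow_left₀ (by norm_num) h4 u
    _ = Real.exp u := by
      rw [← Real.exp_nat_mul]
      simp

theorem good_limits {b : ℕ → ℕ} (hb : Good b) {a : ℝ} (ha : 2 < a) :
    liminf (fun x : ℝ => ENNReal.ofReal (Rr (R z0 b) a x)) atTop = fm a ∧
      limsup (fun x : ℝ => ENNReal.ofReal (Rr (R z0 b) a x)) atTop = fp a := by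
  -- all `x`
  have hall : ∀ ε : ℝ, 0 < ε → ∀ N : ℕ, ∀ᶠ x : ℝ in atTop, ∃ u ≥ N, ∃ x'' : ℕ,
      nc a u x'' ≤ (1 + ε) * Rr (R z0 b) a x + ε ∧ Rr (R z0 b) a x ≤ (1 + ε) * nc a u x'' + ε := by
    intro ε hε N
    obtain ⟨N', hN'⟩ := eventually_atTop.1 (rr_window hb ha ε hε)
    have h1 : Tendsto (fun x : ℝ => ⌊Real.log ⌊x⌋₊⌋₊) atTop atTop :=
      tendsto_nat_floor_atTop.comp (L_top.comp tendsto_nat_floor_atTop)
    filter_upwards [h1.eventually_ge_atTop (max N N'), eventually_ge_atTop 3] with x h2 h3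
    set u := ⌊Real.log ⌊x⌋₊⌋₊ with hu
    obtain ⟨x'', hx''⟩ := crt_window (u / 2) ⌊x⌋₊ b hb.1
    have hX : (3 : ℝ) ≤ ⌊x⌋₊ := by
      have : 3 ≤ ⌊x⌋₊ := Nat.le_floor (by exact_mod_cast h3)
      exact_mod_cast this
    have hl0 : 0 ≤ Real.log ⌊x⌋₊ := Real.log_nonneg (by linarith)
    have e1 : (u : ℝ) ≤ Real.log ⌊x⌋₊ := Nat.floor_le hl0
    have e2 := Nat.lt_floor_add_one (Real.log ⌊x⌋₊)
    rw [← hu] at e2
    have e3 : Real.log x ≤ Real.log ⌊x⌋₊ + 1 := by
      have h4 := Nat.lt_floor_add_one x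
      have h5 : x ≤ 2 * ⌊x⌋₊ := by linarith
      have h6 := Real.log_le_log (by linarith) h5
      rw [Real.log_mul (by norm_num) (by linarith)] at h6
      have := Real.log_two_lt_d9
      linarith
    exact ⟨u, (le_max_left _ _).trans h2, x'', hN' u ((le_max_right _ _).trans h2) x x'' (by linarith) e1
      (by linarith) fun y' => hx'' (u / 2) le_rfl y'⟩
  -- some `x`
  have hsome : ∀ ε : ℝ, 0 < ε → ∀ᶠ u : ℕ in atTop, ∀ x'' : ℕ, ∃ x : ℝ, (u : ℝ) ≤ x ∧
      (nc a u x'' ≤ (1 + ε) * Rr (R z0 b) a x + ε ∧ Rr (R z0 b) a x ≤ (1 + ε) * nc a u x'' + ε) := by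
    intro ε hε
    filter_upwards [rr_window hb ha ε hε, eventually_ge_atTop 1] with u h1 h2 x''
    obtain ⟨n, hn1, hn2, hn3⟩ := crt_find (u / 2) ⌈Real.exp u⌉₊ x'' b hb.1
    have hu : (1 : ℝ) ≤ u := by exact_mod_cast h2
    have e0 := Real.add_one_le_exp (u : ℝ)
    have e1 : Real.exp u < n := by
      have h3 := Nat.le_ceil (Real.exp u)
      have h4 : ((⌈Real.exp u⌉₊ : ℕ) : ℝ) < n := by exact_mod_cast hn1
      linarith
    have e2 : (n : ℝ) ≤ 3 * Real.exp u + 1 := by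
      have h3 := (Nat.ceil_lt_add_one (Real.exp_pos (u : ℝ)).le).le
      have h4 : (n : ℝ) ≤ ⌈Real.exp u⌉₊ + 2 * primorial (u / 2) := by exact_mod_cast hn2
      have h5 := prim_le u
      linarith
    have hn0 : (0 : ℝ) < n := (Real.exp_pos _).trans e1
    have e3 : Real.log n ≤ u + 2 := by
      rw [Real.log_le_iff_le_exp hn0, Real.exp_add]
      have h3 : (4 : ℝ) ≤ Real.exp 2 := by
        have h4 := Real.add_one_le_exp (1 : ℝ)
        have h5 : Real.exp 2 = Real.exp 1 * Real.exp 1 := by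
          rw [← Real.exp_add]
          norm_num
        rw [h5]
        nlinarith
      nlinarith [Real.exp_pos (u : ℝ)]
    have e4 : (u : ℝ) ≤ Real.log n := by
      rw [Real.le_log_iff_exp_le hn0]
      exact e1.le
    refine ⟨n, by linarith, h1 n x'' (by linarith) ?_ e3 ?_⟩
    · rwa [Nat.floor_natCast]
    · rwa [Nat.floor_natCast]
  constructor
  · apply le_antisymm
    · exact inf_att fun ε hε => (hsome ε hε).mono fun u hu x'' => by
        obtain ⟨x, h1, -, h3⟩ := hu x''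
        exact ⟨x, h1, h3⟩
    · exact inf_lim fun ε hε N => (hall ε hε N).mono fun x hx => by
        obtain ⟨u, h1, x'', h2, -⟩ := hx
        exact ⟨u, h1, x'', h2⟩
  · apply le_antisymm
    · exact sup_lim fun ε hε N => (hall ε hε N).mono fun x hx => by
        obtain ⟨u, h1, x'', -, h2⟩ := hx
        exact ⟨u, h1, x'', h2⟩
    · exact sup_att fun ε hε => (hsome ε hε).mono fun u hu x'' => by
        obtain ⟨x, h1, h2, -⟩ := hu x''
        exact ⟨x, h1, h2⟩

end Pool.Agent.H531.MS
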