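import Pool.Agent.H531.SI.Fin
import Pool.Graph.R_seed8.H154R3.Task469B

set_option autoImplicit false

/-!
# The interval sieve: upper bounds, and changes of the sieving limit
-/

open Finset Filter Topology

namespace Pool.Agent.H531.MS

open Pool.Agent.T2H31.HV Pool.Agent.T2H32.BF

/-! ## The products -/

/-- the primes of `(m, n]` -/
noncomputable def PI (m n : ℕ) : Finset ℕ := (Ioc m n).filter Nat.Prime

theorem mem_PI {m n p : ℕ} : p ∈ PI m n ↔ (m < p ∧ p ≤ n) ∧ p.Prime := by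
  unfold PI
  rw [mem_filter, mem_Ioc]

theorem PN_union (m n : ℕ) (h : m ≤ n) : PN n = PN m ∪ PI m n := by
  ext p
  rw [mem_union, mem_PN, mem_PN, mem_PI]
  constructor
  · rintro ⟨h1, h2⟩
    by_cases h3 : p ≤ m
    · exact Or.inl ⟨h3, h2⟩
    · exact Or.inr ⟨⟨by omega, h1⟩, h2⟩
  · rintro (⟨h1, h2⟩ | ⟨⟨h1, h1'⟩, h2⟩)
    · exact ⟨by omega, h2⟩
    · exact ⟨h1', h2⟩

theorem V_eq (n : ℕ) : V n = ∏ p ∈ PN n, (1 - 1 / (p : ℝ)) := rfl

theorem fac_pos {p : ℕ} (hp : p.Prime) : 0 < 1 - 1 / (p : ℝ) := by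
  have h1 : (2 : ℝ) ≤ p := by exact_mod_cast hp.two_le
  have h2 : 1 / (p : ℝ) ≤ 1 / 2 := by gcongr
  linarith

theorem fac_le_one (p : ℕ) : 1 - 1 / (p : ℝ) ≤ 1 := by
  have : 0 ≤ 1 / (p : ℝ) := by positivity
  linarith

theorem prod_pos' {Q : Finset ℕ} (hQ : ∀ q ∈ Q, q.Prime) : 0 < ∏ q ∈ Q, (1 - 1 / (q : ℝ)) :=
  prod_pos fun q hq => fac_pos (hQ q hq)

theorem prod_le_one' {Q : Finset ℕ} (hQ : ∀ q ∈ Q, q.Prime) : ∏ q ∈ Q, (1 - 1 / (q : ℝ)) ≤ 1 :=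
  prod_le_one (fun q hq => (fac_pos (hQ q hq)).le) fun q _ => fac_le_one q

theorem prod_anti {Q Q' : Finset ℕ} (hQ : ∀ q ∈ Q', q.Prime) (h : Q ⊆ Q') :
    ∏ q ∈ Q', (1 - 1 / (q : ℝ)) ≤ ∏ q ∈ Q, (1 - 1 / (q : ℝ)) := by
  classical
  rw [← prod_sdiff h]
  have h1 : ∏ q ∈ Q' \ Q, (1 - 1 / (q : ℝ)) ≤ 1 := prod_le_one' fun q hq => hQ q (mem_sdiff.1 hq).1
  have h2 := prod_pos' (Q := Q) fun q hq => hQ q (h hq)
  nlinarith

theorem V_le_one (n : ℕ) : V n ≤ 1 := prod_le_one' fun q hq => ((mem_PN _ _).1 hq).2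

theorem V_lower (z : ℕ) (hz : 1 ≤ z) : 1 / (z : ℝ) ≤ V z := by
  have h := Pool.Agent.H154R3.Fund.VV_lower (z + 1) (by omega)
  have e : Pool.Agent.H154R3.Fund.VV (z + 1) = V z := by
    unfold Pool.Agent.H154R3.Fund.VV V Pool.Agent.H446R2.dn
    rfl
  rw [e] at h
  push_cast at h
  rwa [add_sub_cancel_right] at h

/-- `V` at comparable levels -/
theorem V_mul_le : ∃ u₀ : ℕ, 2 ≤ u₀ ∧ ∀ u w : ℕ, u₀ ≤ u → u ≤ w →
    Real.log u * V u ≤ 2 * (Real.log w * V w) := by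
  have hg := Real.exp_pos (-Real.eulerMascheroniConstant)
  set g := Real.exp (-Real.eulerMascheroniConstant) with hgd
  obtain ⟨N, hN⟩ := eventually_atTop.1 ((mertens.eventually_const_lt (show g * 0.8 < g by nlinarith)).and
    (mertens.eventually_lt_const (show g < g * 1.2 by nlinarith)))
  refine ⟨max N 2, le_max_right _ _, fun u w hu hw => ?_⟩
  have h1 := hN u ((le_max_left _ _).trans hu)
  have h2 := hN w ((le_max_left _ _).trans (hu.trans hw))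
  nlinarith [h1.2, h2.1]

/-- the ratio of `V` at two levels with almost the same logarithm -/
theorem V_near (η : ℝ) (hη : 0 < η) : ∃ u₀ : ℕ, 2 ≤ u₀ ∧ ∀ u w : ℕ, u₀ ≤ u → u ≤ w →
    Real.log w ≤ (1 + η) * Real.log u → V u ≤ (1 + η) ^ 2 * V w := by
  have hg := Real.exp_pos (-Real.eulerMascheroniConstant)
  set g := Real.exp (-Real.eulerMascheroniConstant) with hgd
  -- `g (1 - κ) ≤ V n log n ≤ g (1 + κ)`, where `(1 + κ) ≤ (1 + η) (1 - κ)`
  set κ := η / (2 + η) with hκ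
  have hκ0 : 0 < κ := by positivity
  have hκ1 : κ < 1 := by
    rw [hκ, div_lt_one (by linarith)]
    linarith
  have hκ2 : (1 + κ) = (1 + η) * (1 - κ) := by
    rw [hκ]
    field_simp
    ring
  obtain ⟨N, hN⟩ := eventually_atTop.1 ((mertens.eventually_const_lt (show g * (1 - κ) < g by nlinarith)).and
    (mertens.eventually_lt_const (show g < g * (1 + κ) by nlinarith)))
  refine ⟨max N 2, le_max_right _ _, fun u w hu hw hlog => ?_⟩
  have h1 := (hN u ((le_max_left _ _).trans hu)).2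
  have h2 := (hN w ((le_max_left _ _).trans (hu.trans hw))).1
  have hu2 : (2 : ℝ) ≤ u := by exact_mod_cast (le_max_right _ _).trans hu
  have hlu : 0 < Real.log u := Real.log_pos (by linarith)
  have hVw := V_pos w
  have h3 : g * (1 + κ) ≤ (1 + η) * (V w * Real.log w) := by
    rw [hκ2]
    nlinarith
  have h4 : V w * Real.log w ≤ V w * ((1 + η) * Real.log u) := by gcongr
  have h5 : V u * Real.log u ≤ ((1 + η) ^ 2 * V w) * Real.log u := by nlinarith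
  exact le_of_mul_le_mul_right h5 hlu

/-- the reciprocals of the primes between two levels with almost the same logarithm -/
theorem recip_near (η : ℝ) (hη : 0 < η) : ∃ u₀ : ℕ, 2 ≤ u₀ ∧ ∀ u w : ℕ, u₀ ≤ u → u ≤ w →
    Real.log w ≤ (1 + η) * Real.log u → ∑ p ∈ PI u w, 1 / (p : ℝ) ≤ 2 * η := by
  obtain ⟨u₀, h0, h⟩ := V_near η hη
  refine ⟨u₀, h0, fun u w hu hw hlog => ?_⟩
  have h1 := recip_le u w hw
  refine h1.trans ?_
  have h2 := h u w hu hw hlog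
  have hVw := V_pos w
  have hVu := V_pos u
  have h3 : V u / V w ≤ (1 + η) ^ 2 := by
    rw [div_le_iff₀ hVw]
    exact h2
  calc Real.log (V u / V w) ≤ Real.log ((1 + η) ^ 2) := Real.log_le_log (by positivity) h3
    _ = 2 * Real.log (1 + η) := by
      rw [Real.log_pow]
      norm_num
    _ ≤ 2 * η := by
      have := Real.log_le_sub_one_of_pos (show 0 < 1 + η by linarith)
      linarith

/-! ## The numbers of survivors -/

/-- the number of integers in `(x, x + y]` without prime factors in `Q` -/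
def CQ (Q : Finset ℕ) (x y : ℕ) : ℕ := ((Ioc x (x + y)).filter fun m => ∀ p ∈ Q, ¬ p ∣ m).card

theorem CQ_anti {Q Q' : Finset ℕ} (h : Q ⊆ Q') (x y : ℕ) : CQ Q' x y ≤ CQ Q x y := by
  unfold CQ
  refine card_le_card fun m hm => ?_
  rw [mem_filter] at hm ⊢
  exact ⟨hm.1, fun p hp => hm.2 p (h hp)⟩

theorem CQ_mono (Q : Finset ℕ) (x : ℕ) {y y' : ℕ} (h : y ≤ y') : CQ Q x y ≤ CQ Q x y' := by
  unfold CQ
  refine card_le_card fun m hm => ?_
  rw [mem_filter, mem_Ioc] at hm ⊢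
  exact ⟨⟨hm.1.1, by omega⟩, hm.2⟩

theorem CQ_add (Q : Finset ℕ) (x y d : ℕ) : CQ Q x (y + d) ≤ CQ Q x y + d := by
  classical
  unfold CQ
  have h1 : (Ioc x (x + (y + d))).filter (fun m => ∀ p ∈ Q, ¬ p ∣ m) ⊆
      (Ioc x (x + y)).filter (fun m => ∀ p ∈ Q, ¬ p ∣ m) ∪ Ioc (x + y) (x + y + d) := by
    intro m hm
    rw [mem_filter, mem_Ioc] at hm
    rw [mem_union, mem_filter, mem_Ioc, mem_Ioc]
    by_cases h : m ≤ x + y
    · exact Or.inl ⟨⟨hm.1.1, h⟩, hm.2⟩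
    · exact Or.inr ⟨by omega, by omega⟩
  have h2 := (card_le_card h1).trans (card_union_le _ _)
  rw [Nat.card_Ioc] at h2
  omega

theorem CQ_le (Q : Finset ℕ) (x y : ℕ) : CQ Q x y ≤ y := by
  unfold CQ
  refine (card_filter_le _ _).trans ?_
  rw [Nat.card_Ioc]
  omega

/-- **The upper bound of the sieve for all intervals.** -/
theorem upper_sieve (A : ℕ) : ∃ (C : ℝ) (k₀ : ℕ), 0 < C ∧ ∀ (Q : Finset ℕ) (k : ℕ), k₀ ≤ k →
    (∀ q ∈ Q, q.Prime ∧ q ≤ k ^ A) → ∀ x : ℕ,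
      (CQ Q x k : ℝ) ≤ C * k * ∏ q ∈ Q, (1 - 1 / (q : ℝ)) := by
  classical
  obtain ⟨u₀, hu₀, hV⟩ := V_mul_le
  -- the level
  have ht1 : Tendsto (fun k : ℕ => ⌊(k : ℝ) ^ (1 / 240 : ℝ)⌋₊) atTop atTop :=
    Pool.Agent.H531.SI.floor_tend _ (by norm_num)
  obtain ⟨k₁, hk₁⟩ := eventually_atTop.1 ((ht1.eventually_ge_atTop u₀).and (eventually_ge_atTop (2 ^ 480)))
  refine ⟨5 / 2 * (960 * (A + 1)), k₁, by positivity, fun Q k hk hQ x => ?_⟩
  obtain ⟨hz1, hk2⟩ := hk₁ k hk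
  set z := ⌊(k : ℝ) ^ (1 / 240 : ℝ)⌋₊ with hz
  have hkR : (2 : ℝ) ^ 480 ≤ k := by exact_mod_cast hk2
  have hk0 : (0 : ℝ) < k := lt_of_lt_of_le (by positivity) hkR
  have hk1 : (1 : ℝ) ≤ k := le_trans (one_le_pow₀ (by norm_num)) hkR
  have hz2 : 2 ≤ z := hu₀.trans hz1
  have hzR : (2 : ℝ) ≤ z := by exact_mod_cast hz2
  have hzu : (z : ℝ) ≤ (k : ℝ) ^ (1 / 240 : ℝ) := Nat.floor_le (by positivity)
  have hzl : (k : ℝ) ^ (1 / 480 : ℝ) ≤ z := by
    have h1 := Nat.lt_floor_add_one ((k : ℝ) ^ (1 / 240 : ℝ))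
    rw [← hz] at h1
    have e : (k : ℝ) ^ (1 / 240 : ℝ) = (k : ℝ) ^ (1 / 480 : ℝ) * (k : ℝ) ^ (1 / 480 : ℝ) := by
      rw [← Real.rpow_add hk0]
      norm_num
    have h2 : (2 : ℝ) ≤ (k : ℝ) ^ (1 / 480 : ℝ) := by
      calc (2 : ℝ) = ((2 : ℝ) ^ (480 : ℕ)) ^ (1 / 480 : ℝ) := by
            rw [← Real.rpow_natCast, ← Real.rpow_mul (by norm_num)]
            norm_num
        _ ≤ _ := Real.rpow_le_rpow (by positivity) hkR (by norm_num)
    rw [e] at h1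
    nlinarith
  have hlk : 0 < Real.log k := Real.log_pos (lt_of_lt_of_le (one_lt_pow₀ (by norm_num) (by norm_num)) hkR)
  have hlz : Real.log k / 480 ≤ Real.log z := by
    have h1 := Real.log_le_log (by positivity) hzl
    rw [Real.log_rpow hk0] at h1
    linarith
  -- the small primes
  set Q' := Q.filter (· ≤ z) with hQ'
  have hQ'p : ∀ q ∈ Q', q.Prime := fun q hq => (hQ q (mem_filter.1 hq).1).1
  have hQp : ∀ q ∈ Q, q.Prime := fun q hq => (hQ q hq).1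
  obtain ⟨I, hI1, hI2, hI3⟩ := Pool.Agent.H154R3.Fund.exists_I z hz2
  have hs := Pool.Agent.H154R3.Fund.sieve_two Q' hQ'p 13 le_rfl I hI1
    (fun p hp => (mem_filter.1 hp).2.trans hI2) x k
  have hdn : ∏ p ∈ Q', (1 - Pool.Agent.H446R2.dn p) = ∏ p ∈ Q', (1 - 1 / (p : ℝ)) := rfl
  rw [hdn] at hs
  set ρ' := ∏ p ∈ Q', (1 - 1 / (p : ℝ)) with hρ'
  have hρ'0 : 0 < ρ' := prod_pos' hQ'p
  have hVz : V z ≤ ρ' := by
    rw [V_eq]
    refine prod_anti (fun q hq => ((mem_PN _ _).1 hq).2) fun q hq => ?_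
    rw [mem_PN]
    exact ⟨(mem_filter.1 hq).2, hQ'p q hq⟩
  have h1 : (CQ Q x k : ℝ) ≤ CQ Q' x k := by exact_mod_cast CQ_anti (filter_subset _ _) x k
  have h2 : (CQ Q' x k : ℝ) ≤ 3 / 2 * ρ' * k + (2 : ℝ) ^ ((4 * 13 + 8) * 2 ^ I) := by
    have h3 := (abs_le.1 hs).2
    have e : (2 : ℝ) * (2 ^ 24 * (1 / 2) ^ (2 * 13)) = 1 / 2 := by norm_num
    rw [e] at h3
    have h4 : (CQ Q' x k : ℝ) = (((Ioc x (x + k)).filter fun n => ∀ p ∈ Q', ¬ p ∣ n).card : ℝ) := rfl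
    rw [h4]
    linarith
  -- the remainder
  have h3 : (2 : ℝ) ^ ((4 * 13 + 8) * 2 ^ I) ≤ ρ' * k := by
    have e1 : (2 : ℝ) ^ ((4 * 13 + 8) * 2 ^ I) = ((2 ^ 2 ^ I : ℕ) : ℝ) ^ 60 := by
      push_cast
      rw [← pow_mul, mul_comm]
    have e2 : ((2 ^ 2 ^ I : ℕ) : ℝ) ≤ (z : ℝ) ^ 2 := by exact_mod_cast hI3
    calc (2 : ℝ) ^ ((4 * 13 + 8) * 2 ^ I) = ((2 ^ 2 ^ I : ℕ) : ℝ) ^ 60 := e1
      _ ≤ ((z : ℝ) ^ 2) ^ 60 := by gcongr
      _ = (z : ℝ) ^ 120 := by rw [← pow_mul]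
      _ ≤ 1 / z * (z : ℝ) ^ 240 := by
        rw [show (z : ℝ) ^ 240 = z * (z : ℝ) ^ 239 by ring, one_div, inv_mul_cancel_left₀ (by linarith)]
        exact pow_le_pow_right₀ (by linarith) (by norm_num)
      _ ≤ ρ' * k := by
        have h4 : (z : ℝ) ^ 240 ≤ k := by
          have h5 : (z : ℝ) ^ (240 : ℕ) ≤ ((k : ℝ) ^ (1 / 240 : ℝ)) ^ (240 : ℕ) :=
            pow_le_pow_left₀ (by positivity) hzu _
          have h6 : ((k : ℝ) ^ (1 / 240 : ℝ)) ^ (240 : ℕ) = k := by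
            rw [← Real.rpow_natCast, ← Real.rpow_mul hk0.le]
            norm_num
          exact h5.trans_eq h6
        have h5 := V_lower z (by omega)
        exact mul_le_mul (h5.trans hVz) h4 (by positivity) hρ'0.le
  -- the large primes
  set Q'' := Q.filter (fun q => ¬ q ≤ z) with hQ''
  have hsplit : ∏ q ∈ Q, (1 - 1 / (q : ℝ)) = ρ' * ∏ q ∈ Q'', (1 - 1 / (q : ℝ)) :=
    (prod_filter_mul_prod_filter_not Q _ _).symm
  have hbig : 1 / (960 * ((A : ℝ) + 1)) ≤ ∏ q ∈ Q'', (1 - 1 / (q : ℝ)) := by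
    set K := max z (k ^ A) with hK
    have hzK : z ≤ K := le_max_left _ _
    have h4 : ∏ q ∈ PI z K, (1 - 1 / (q : ℝ)) ≤ ∏ q ∈ Q'', (1 - 1 / (q : ℝ)) := by
      refine prod_anti (fun q hq => (mem_PI.1 hq).2) fun q hq => ?_
      rw [mem_filter] at hq
      rw [mem_PI]
      exact ⟨⟨by omega, (hQ q hq.1).2.trans (le_max_right _ _)⟩, (hQ q hq.1).1⟩
    refine le_trans ?_ h4
    have h5 : ∏ q ∈ PI z K, (1 - 1 / (q : ℝ)) = V K / V z := (V_ratio z K hzK).symm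
    rw [h5]
    have h6 := hV z K hz1 hzK
    have hVK := V_pos K
    have hVz' := V_pos z
    have h7 : Real.log K ≤ (A + 1) * Real.log k := by
      have h8 : (K : ℝ) ≤ (k : ℝ) ^ (A + 1) := by
        rw [hK]
        push_cast
        refine max_le ?_ (pow_le_pow_right₀ hk1 (by omega))
        calc (z : ℝ) ≤ (k : ℝ) ^ (1 / 240 : ℝ) := hzu
          _ ≤ (k : ℝ) ^ (1 : ℝ) := Real.rpow_le_rpow_of_exponent_le hk1 (by norm_num)
          _ = (k : ℝ) ^ 1 := by norm_num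
          _ ≤ _ := pow_le_pow_right₀ hk1 (by omega)
      have h9 := Real.log_le_log (by
        have : (2 : ℝ) ≤ K := hzR.trans (by exact_mod_cast hzK)
        linarith) h8
      rw [Real.log_pow] at h9
      push_cast at h9
      exact h9
    rw [div_le_div_iff₀ (by positivity) hVz', one_mul]
    have h8 : Real.log k / 480 * V z ≤ 2 * ((A + 1) * Real.log k * V K) := by
      calc Real.log k / 480 * V z ≤ Real.log z * V z := by gcongr
        _ ≤ 2 * (Real.log K * V K) := h6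
        _ ≤ 2 * ((A + 1) * Real.log k * V K) := by gcongr
    have h9 : Real.log k * V z ≤ Real.log k * (V K * (960 * (A + 1))) := by nlinarith
    exact le_of_mul_le_mul_left h9 hlk
  rw [hsplit]
  have h4 : 1 ≤ 960 * ((A : ℝ) + 1) * ∏ q ∈ Q'', (1 - 1 / (q : ℝ)) := by
    rw [div_le_iff₀ (by positivity)] at hbig
    linarith
  calc (CQ Q x k : ℝ) ≤ 5 / 2 * (ρ' * k) * 1 := by linarith
    _ ≤ 5 / 2 * (ρ' * k) * (960 * ((A : ℝ) + 1) * ∏ q ∈ Q'', (1 - 1 / (q : ℝ))) := by gcongr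
    _ = _ := by ring

/-- **Sieving by some more primes.** -/
theorem extra (A : ℕ) : ∃ (C : ℝ) (k₀ : ℕ), 0 < C ∧ ∀ (G B : Finset ℕ) (x y : ℕ), (∀ q ∈ G, q.Prime) →
    (∀ p ∈ B, p.Prime) → (∀ p ∈ B, k₀ ≤ y / p ∧ ∀ q ∈ G, q ≤ (y / p) ^ A) →
      (CQ G x y : ℝ) ≤ CQ (G ∪ B) x y + C * y * (∏ q ∈ G, (1 - 1 / (q : ℝ))) * ∑ p ∈ B, 1 / (p : ℝ) := by
  classical
  obtain ⟨C, k₀, hC, h⟩ := upper_sieve A
  refine ⟨2 * C, max k₀ 1, by positivity, fun G B x y hG hB hGB => ?_⟩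
  set ρ := ∏ q ∈ G, (1 - 1 / (q : ℝ)) with hρ
  have hρ0 : 0 < ρ := prod_pos' hG
  have h1 : (Ioc x (x + y)).filter (fun m => ∀ p ∈ G, ¬ p ∣ m) ⊆
      (Ioc x (x + y)).filter (fun m => ∀ p ∈ G ∪ B, ¬ p ∣ m) ∪
        B.biUnion fun p => (Ioc x (x + y)).filter (fun m => p ∣ m ∧ ∀ q ∈ G, ¬ q ∣ m) := by
    intro m hm
    rw [mem_filter] at hm
    rw [mem_union, mem_filter, mem_biUnion]
    by_cases hb : ∃ p ∈ B, p ∣ m
    · obtain ⟨p, hp, hpm⟩ := hb
      exact Or.inr ⟨p, hp, mem_filter.2 ⟨hm.1, hpm, hm.2⟩⟩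
    · push Not at hb
      refine Or.inl ⟨hm.1, fun p hp => ?_⟩
      rcases mem_union.1 hp with hp | hp
      · exact hm.2 p hp
      · exact hb p hp
  have h2 : ∀ p ∈ B, (((Ioc x (x + y)).filter (fun m => p ∣ m ∧ ∀ q ∈ G, ¬ q ∣ m)).card : ℝ) ≤
      2 * C * y * ρ * (1 / p) := by
    intro p hp
    have hpp := hB p hp
    have hp0 : (0 : ℝ) < p := by exact_mod_cast hpp.pos
    obtain ⟨hk, hq⟩ := hGB p hp
    have hk1 : 1 ≤ y / p := (le_max_right _ _).trans hk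
    have h3 : ((Ioc x (x + y)).filter (fun m => p ∣ m ∧ ∀ q ∈ G, ¬ q ∣ m)).card ≤ CQ G (x / p) (y / p + 1) := by
      unfold CQ
      refine card_le_card_of_injOn (fun m => m / p) ?_ ?_
      · intro m hm
        rw [mem_coe, mem_filter, mem_Ioc] at hm
        obtain ⟨⟨hm1, hm2⟩, ⟨t, rfl⟩, hm3⟩ := hm
        rw [mem_coe, mem_filter, mem_Ioc]
        have e : p * t / p = t := Nat.mul_div_cancel_left t hpp.pos
        simp only [e]
        refine ⟨⟨?_, ?_⟩, fun q hq hqt => hm3 q hq (hqt.mul_left p)⟩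
        · exact Nat.div_lt_of_lt_mul hm1
        · have h5 : t ≤ (x + y) / p := by
            rw [Nat.le_div_iff_mul_le hpp.pos, mul_comm]
            exact hm2
          have h6 : (x + y) / p ≤ x / p + y / p + 1 := by
            rw [Nat.div_le_iff_le_mul_add_pred hpp.pos]
            have h7 := Nat.div_add_mod x p
            have h8 := Nat.div_add_mod y p
            have h9 := Nat.mod_lt x hpp.pos
            have h10 := Nat.mod_lt y hpp.pos
            have h11 : p * (x / p + y / p + 1) = p * (x / p) + p * (y / p) + p := by ring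
            omega
          omega
      · intro m hm m' hm' hmm
        rw [mem_coe, mem_filter] at hm hm'
        obtain ⟨t, rfl⟩ := hm.2.1
        obtain ⟨t', rfl⟩ := hm'.2.1
        simp only [Nat.mul_div_cancel_left _ hpp.pos] at hmm
        rw [hmm]
    have h4 := h G (y / p + 1) (by
      have := (le_max_left k₀ 1).trans hk
      omega) (fun q hq' => ⟨hG q hq', (hq q hq').trans (Nat.pow_le_pow_left (by omega) _)⟩) (x / p)
    have h5 : (((y / p + 1 : ℕ)) : ℝ) ≤ 2 * (y / p) := by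
      have h6 : ((y / p : ℕ) : ℝ) ≤ (y : ℝ) / p := Nat.cast_div_le
      have h7 : (1 : ℝ) ≤ ((y / p : ℕ) : ℝ) := by exact_mod_cast hk1
      push_cast
      linarith
    calc (((Ioc x (x + y)).filter (fun m => p ∣ m ∧ ∀ q ∈ G, ¬ q ∣ m)).card : ℝ)
        ≤ CQ G (x / p) (y / p + 1) := by exact_mod_cast h3
      _ ≤ C * ((y / p + 1 : ℕ) : ℝ) * ρ := h4
      _ ≤ C * (2 * (y / p)) * ρ := by gcongr
      _ = 2 * C * y * ρ * (1 / p) := by ring
  have h3 : (CQ G x y : ℝ) ≤ CQ (G ∪ B) x y + ∑ p ∈ B, 2 * C * y * ρ * (1 / p) := by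
    have h4 := (card_le_card h1).trans ((card_union_le _ _).trans
      (Nat.add_le_add_left card_biUnion_le _))
    have h5 : (CQ G x y : ℝ) ≤ CQ (G ∪ B) x y +
        ∑ p ∈ B, (((Ioc x (x + y)).filter (fun m => p ∣ m ∧ ∀ q ∈ G, ¬ q ∣ m)).card : ℝ) := by
      exact_mod_cast h4
    exact h5.trans (by gcongr with p hp; exact h2 p hp)
  rw [← mul_sum] at h3
  exact h3

end Pool.Agent.H531.MS
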