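import Pool.Agent.H531.MS.Exp
import Pool.Agent.H531.MS.Det

set_option autoImplicit false

/-!
# The random sieve in short windows: only the primes up to `log x (log log x) ^ 3` matter
-/

open Finset MeasureTheory ProbabilityTheory Filter Topology

namespace Pool.Agent.H531.MS

open Pool.Agent.T2H31.HV Pool.Agent.T2H32.BF Pool.Agent.H531.SI

/-- the number of integers in `(x, x + y]` that survive the classes `b p`, `p ≤ z` -/
noncomputable def sv (z x y : ℕ) (b : ℕ → ℕ) : ℕ := (Sw (Ioc x (x + y)) (PN z) b).card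

theorem Sw_union (T L L' : Finset ℕ) (b : ℕ → ℕ) : Sw T (L ∪ L') b = Sw (Sw T L b) L' b := by
  classical
  ext t
  unfold Sw
  rw [mem_filter, mem_filter, mem_filter]
  constructor
  · rintro ⟨h1, h2⟩
    exact ⟨⟨h1, fun p hp => h2 p (mem_union_left _ hp)⟩, fun p hp => h2 p (mem_union_right _ hp)⟩
  · rintro ⟨⟨h1, h2⟩, h3⟩
    refine ⟨h1, fun p hp => ?_⟩
    rcases mem_union.1 hp with hp | hp
    · exact h2 p hp
    · exact h3 p hp

theorem Sw_congr (T L : Finset ℕ) (b b' : ℕ → ℕ) (h : ∀ p ∈ L, b p = b' p) : Sw T L b = Sw T L b' := by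
  classical
  unfold Sw
  refine filter_congr fun t _ => forall_congr' fun p => forall_congr' fun hp => ?_
  rw [h p hp]

theorem sv_le (z x y : ℕ) (b : ℕ → ℕ) : sv z x y b ≤ y := by
  unfold sv
  refine (Sw_card_le _ _ _).trans ?_
  rw [Nat.card_Ioc]
  omega

theorem sv_congr (z x y : ℕ) (b b' : ℕ → ℕ) (h : ∀ p ∈ PN z, b p = b' p) : sv z x y b = sv z x y b' := by
  unfold sv
  rw [Sw_congr _ _ b b' h]

/-- a class modulo `p ≤ y` in an interval of length `y` -/
theorem class_card (x y p r : ℕ) (hp : 0 < p) (hpy : p ≤ y) :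
    (((Ioc x (x + y)).filter fun t => t % p = r).card : ℝ) ≤ 2 * y / p := by
  have hp0 : (0 : ℝ) < p := by exact_mod_cast hp
  rw [le_div_iff₀ hp0]
  have h1 : ((Ioc x (x + y)).filter fun t => t % p = r).card ≤ y / p + 1 := by
    have h2 : (Ioc x (x + y)).filter (fun t => t % p = r) ⊆ (Ioc x (x + y)).filter (fun t => t ≡ r [MOD p]) := by
      intro t ht
      rw [mem_filter] at ht ⊢
      refine ⟨ht.1, ?_⟩
      have h3 := ht.2
      unfold Nat.ModEq
      rw [← h3, Nat.mod_mod]
    refine (card_le_card h2).trans ?_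
    -- the quotients are different and in a short interval
    by_contra hcon
    push Not at hcon
    have hinj : Set.InjOn (fun t => (t - (x + 1)) / p) (((Ioc x (x + y)).filter (fun t => t ≡ r [MOD p])) : Set ℕ) := by
      intro t ht t' ht' htt
      rw [mem_coe, mem_filter, mem_Ioc] at ht ht'
      simp only at htt
      have hmod : t ≡ t' [MOD p] := ht.2.trans ht'.2.symm
      wlog hle : t ≤ t' generalizing t t'
      · exact (this ht' ht htt.symm hmod.symm (by omega)).symm
      have hdvd : p ∣ t' - t := (Nat.modEq_iff_dvd' hle).1 hmod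
      by_contra hne
      have hpos : 0 < t' - t := by omega
      have h4 : p ≤ t' - t := Nat.le_of_dvd hpos hdvd
      have h5 : (t - (x + 1)) / p + 1 ≤ (t' - (x + 1)) / p := by
        rw [Nat.le_div_iff_mul_le hp, add_mul, one_mul]
        have := Nat.div_mul_le_self (t - (x + 1)) p
        omega
      omega
    have h4 := card_le_card_of_injOn (s := (Ioc x (x + y)).filter (fun t => t ≡ r [MOD p])) (t := range (y / p + 1))
      (fun t => (t - (x + 1)) / p) (by
        intro t ht
        rw [mem_coe, mem_filter, mem_Ioc] at ht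
        rw [mem_coe, mem_range]
        have h5 : (t - (x + 1)) / p ≤ y / p := Nat.div_le_div_right (by omega)
        exact Nat.lt_succ_of_le h5) hinj
    rw [card_range] at h4
    omega
  have h2 : (((Ioc x (x + y)).filter fun t => t % p = r).card : ℝ) ≤ ((y / p + 1 : ℕ) : ℝ) := by exact_mod_cast h1
  have h3 : ((y / p : ℕ) : ℝ) * p ≤ y := by
    exact_mod_cast Nat.div_mul_le_self y p
  have h4 : (p : ℝ) ≤ y := by exact_mod_cast hpy
  push_cast at h2
  nlinarith

section prob

variable {Ω : Type} [MeasurableSpace Ω] {P : Measure Ω} {a : ℕ → Ω → ℕ}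

open Classical in
theorem cond_one (h : Model P a) (S T : Finset ℕ) (hd : Disjoint S T) (Q : (ℕ → ℕ) → Prop)
    (hQ : ∀ b b' : ℕ → ℕ, (∀ i ∈ S ∪ T, b i = b' i) → (Q b ↔ Q b')) (η : ℝ) (hη : 0 ≤ η)
    (hyp : ∀ α : ℕ → ℕ, P.real {ω | Q (fun i => if i ∈ S then α i else a i ω)} ≤ η) :
    P.real {ω | Q (fun i => a i ω)} ≤ η := by
  have := prob h
  have h1 := cond_mul h S T hd (fun _ => True) Q (fun _ _ _ => Iff.rfl) hQ η hη fun α _ => hyp α
  simpa using h1

theorem phase1 (h : Model P a) (x y w : ℕ) (hw : 1 ≤ w) (hwy : w ≤ y) (l t : ℝ) (hl0 : 0 ≤ l)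
    (hl : l * (2 * y / w) ≤ 1) :
    P.real {ω | t ≤ |(sv y x y (fun q => a q ω) : ℝ) - sv w x y (fun q => a q ω) * (V y / V w)|} ≤
      2 * Real.exp (l ^ 2 * (y * (2 * y / w)) - l * t) := by
  classical
  have := prob h
  have hd : Disjoint (PN w) (PI w y) := by
    rw [disjoint_left]
    intro p hp hp'
    rw [mem_PN] at hp
    rw [mem_PI] at hp'
    omega
  have hun : PN y = PN w ∪ PI w y := PN_union w y hwy
  refine cond_one h (PN w) (PI w y) hd
    (fun b => t ≤ |(sv y x y b : ℝ) - sv w x y b * (V y / V w)|) ?_ _ (by positivity) ?_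
  · intro b b' hb
    rw [sv_congr y x y b b' (fun p hp => hb p (by rwa [← hun])),
      sv_congr w x y b b' (fun p hp => hb p (mem_union_left _ hp))]
  · intro α
    set T0 := Sw (Ioc x (x + y)) (PN w) α with hT0
    have hT0I : T0 ⊆ Ioc x (x + y) := by
      rw [hT0]
      exact filter_subset _ _
    have hT0c : (T0.card : ℝ) ≤ y := by
      have h1 := sv_le w x y α
      exact_mod_cast h1
    have hw0 : (0 : ℝ) < w := by exact_mod_cast hw
    have hLp : ∀ p ∈ PI w y, p.Prime := fun p hp => (mem_PI.1 hp).2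
    have h1 := conc1 h T0 (PI w y) (fun p => 2 * y / p) hLp (fun p hp r => by
      have hpp := mem_PI.1 hp
      refine le_trans ?_ (class_card x y p r hpp.2.pos hpp.1.2)
      have : (T0.filter fun t => t % p = r).card ≤ ((Ioc x (x + y)).filter fun t => t % p = r).card :=
        card_le_card (filter_subset_filter _ hT0I)
      exact_mod_cast this) l t hl0 (fun p hp => by
      refine le_trans ?_ hl
      have hpp := mem_PI.1 hp
      have : (w : ℝ) ≤ p := by exact_mod_cast hpp.1.1.le
      gcongr)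
    have hVr : ∏ p ∈ PI w y, (1 - 1 / (p : ℝ)) = V y / V w := (V_ratio w y hwy).symm
    rw [hVr] at h1
    have hsum : ∑ p ∈ PI w y, (2 * (y : ℝ) / p) / p ≤ 2 * y / w := by
      have h2 : ∑ p ∈ PI w y, (2 * (y : ℝ) / p) / p ≤ ∑ p ∈ Ioc w y, 2 * y * ((p : ℝ) ^ 2)⁻¹ := by
        have e : ∀ p : ℕ, (2 * (y : ℝ) / p) / p = 2 * y * ((p : ℝ) ^ 2)⁻¹ := fun p => by
          rw [div_div, ← sq, div_eq_mul_inv]
        simp only [e]
        exact sum_le_sum_of_subset_of_nonneg (filter_subset _ _) fun p _ _ => by positivity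
      rw [← mul_sum] at h2
      have h3 := sum_Ioc_inv_sq_le_sub (α := ℝ) (show w ≠ 0 by omega) hwy
      have h4 : (0 : ℝ) ≤ (y : ℝ)⁻¹ := by positivity
      calc ∑ p ∈ PI w y, (2 * (y : ℝ) / p) / p ≤ 2 * y * ∑ i ∈ Ioc w y, ((i : ℝ) ^ 2)⁻¹ := h2
        _ ≤ 2 * y * (w : ℝ)⁻¹ := by
          apply mul_le_mul_of_nonneg_left _ (by positivity)
          linarith
        _ = 2 * y / w := by ring
    have h2 : ∀ ω, (sv y x y (fun i => if i ∈ PN w then α i else a i ω) : ℝ) =
        (Sw T0 (PI w y) fun q => a q ω).card := by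
      intro ω
      unfold sv
      rw [hun, Sw_union, Sw_congr (Ioc x (x + y)) (PN w) (fun i => if i ∈ PN w then α i else a i ω) α
        (fun p hp => if_pos hp), ← hT0, Sw_congr T0 (PI w y) (fun i => if i ∈ PN w then α i else a i ω)
        (fun q => a q ω) (fun p hp => if_neg fun h3 => disjoint_left.1 hd h3 hp)]
    have h3 : ∀ ω, (sv w x y (fun i => if i ∈ PN w then α i else a i ω) : ℝ) = T0.card := by
      intro ω
      rw [sv_congr w x y _ α (fun p hp => if_pos hp)]
      rfl
    simp only [h2, h3]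
    refine h1.trans ?_
    gcongr 2 * Real.exp (?_ - l * t)
    apply mul_le_mul_of_nonneg_left _ (sq_nonneg l)
    have h4 : 0 ≤ ∑ p ∈ PI w y, (2 * (y : ℝ) / p) / p := sum_nonneg fun p _ => by positivity
    exact mul_le_mul hT0c hsum h4 (by positivity)

theorem phase2 (h : Model P a) (x y z : ℕ) (hyz : y ≤ z) (l t : ℝ) (hl0 : 0 ≤ l)
    (hl : l ≤ 1) :
    P.real {ω | t ≤ |(sv z x y (fun q => a q ω) : ℝ) - sv y x y (fun q => a q ω) * (V z / V y)|} ≤
      2 * Real.exp (l ^ 2 * (y * (V z / V y)) - l * t) := by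
  classical
  have := prob h
  have hd : Disjoint (PN y) (PI y z) := by
    rw [disjoint_left]
    intro p hp hp'
    rw [mem_PN] at hp
    rw [mem_PI] at hp'
    omega
  have hun : PN z = PN y ∪ PI y z := PN_union y z hyz
  have hVz := V_pos z
  have hVy := V_pos y
  refine cond_one h (PN y) (PI y z) hd
    (fun b => t ≤ |(sv z x y b : ℝ) - sv y x y b * (V z / V y)|) ?_ _ (by positivity) ?_
  · intro b b' hb
    rw [sv_congr z x y b b' (fun p hp => hb p (by rwa [← hun])),
      sv_congr y x y b b' (fun p hp => hb p (mem_union_left _ hp))]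
  · intro α
    set T0 := Sw (Ioc x (x + y)) (PN y) α with hT0
    have hT0I : T0 ⊆ Ioc x (x + y) := by
      rw [hT0]
      exact filter_subset _ _
    have hT0c : (T0.card : ℝ) ≤ y := by
      have h1 := sv_le y x y α
      exact_mod_cast h1
    have hLp : ∀ p ∈ PI y z, p.Prime := fun p hp => (mem_PI.1 hp).2
    have hsep : SI.Sep T0 (PI y z) := by
      intro p hp s hs s' hs' hss
      have hpp := mem_PI.1 hp
      have h1 := mem_Ioc.1 (hT0I hs)
      have h2 := mem_Ioc.1 (hT0I hs')
      have h3 : s ≡ s' [MOD p] := hss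
      rcases le_total s s' with h4 | h4
      · have h5 := (Nat.modEq_iff_dvd' h4).1 h3
        have h6 := Nat.eq_zero_of_dvd_of_lt h5 (by omega)
        omega
      · have h5 := (Nat.modEq_iff_dvd' h4).1 h3.symm
        have h6 := Nat.eq_zero_of_dvd_of_lt h5 (by omega)
        omega
    have h1 := conc2 h T0 (PI y z) hLp hsep l t hl0 hl
    have hVr : ∏ p ∈ PI y z, (1 - 1 / (p : ℝ)) = V z / V y := (V_ratio y z hyz).symm
    rw [hVr] at h1
    have h2 : ∀ ω, (sv z x y (fun i => if i ∈ PN y then α i else a i ω) : ℝ) =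
        (Sw T0 (PI y z) fun q => a q ω).card := by
      intro ω
      unfold sv
      rw [hun, Sw_union, Sw_congr (Ioc x (x + y)) (PN y) (fun i => if i ∈ PN y then α i else a i ω) α
        (fun p hp => if_pos hp), ← hT0, Sw_congr T0 (PI y z) (fun i => if i ∈ PN y then α i else a i ω)
        (fun q => a q ω) (fun p hp => if_neg fun h3 => disjoint_left.1 hd h3 hp)]
    have h3 : ∀ ω, (sv y x y (fun i => if i ∈ PN y then α i else a i ω) : ℝ) = T0.card := by
      intro ω
      rw [sv_congr y x y _ α (fun p hp => if_pos hp)]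
      rfl
    simp only [h2, h3]
    refine h1.trans ?_
    gcongr

/-- **Both phases.** -/
theorem two_phase (h : Model P a) (x y w z : ℕ) (hw : 1 ≤ w) (hwy : w ≤ y) (hyz : y ≤ z) (ε : ℝ) (hε : 0 < ε)
    (hε1 : ε ≤ 1) :
    P.real {ω | ε * (y * V z) < |(sv z x y (fun q => a q ω) : ℝ) - sv w x y (fun q => a q ω) * (V z / V w)|} ≤
      2 * Real.exp (-(ε ^ 2 * (V y ^ 2 * w) / 32)) + 2 * Real.exp (-(ε ^ 2 * (V y * V z * y) / 16)) := by
  have := prob h
  have hVw := V_pos w
  have hVy := V_pos y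
  have hVz := V_pos z
  have hVy1 := V_le_one y
  have hw0 : (0 : ℝ) < w := by exact_mod_cast hw
  have hy0 : (0 : ℝ) < y := lt_of_lt_of_le hw0 (by exact_mod_cast hwy)
  have h1 := phase1 h x y w hw hwy (ε / 2 * V y * w / (4 * y)) (ε / 2 * (y * V y)) (by positivity) (by
    have e : ε / 2 * V y * w / (4 * y) * (2 * y / w) = ε / 4 * V y := by
      field_simp
      try norm_num
    rw [e]
    nlinarith)
  have h2 := phase2 h x y z hyz (ε * V y / 4) (ε / 2 * (y * V z)) (by positivity) (by nlinarith)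
  have e1 : (ε / 2 * V y * w / (4 * y)) ^ 2 * (y * (2 * y / w)) - ε / 2 * V y * w / (4 * y) * (ε / 2 * (y * V y)) =
      -(ε ^ 2 * (V y ^ 2 * w) / 32) := by
    field_simp
    ring
  have e2 : (ε * V y / 4) ^ 2 * (y * (V z / V y)) - ε * V y / 4 * (ε / 2 * (y * V z)) =
      -(ε ^ 2 * (V y * V z * y) / 16) := by
    field_simp
    ring
  rw [e1] at h1
  rw [e2] at h2
  have hsub : {ω | ε * (y * V z) < |(sv z x y (fun q => a q ω) : ℝ) - sv w x y (fun q => a q ω) * (V z / V w)|} ⊆
      {ω | ε / 2 * (y * V y) ≤ |(sv y x y (fun q => a q ω) : ℝ) - sv w x y (fun q => a q ω) * (V y / V w)|} ∪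
      {ω | ε / 2 * (y * V z) ≤ |(sv z x y (fun q => a q ω) : ℝ) - sv y x y (fun q => a q ω) * (V z / V y)|} := by
    intro ω hω
    by_contra hcon
    simp only [Set.mem_union, Set.mem_ofPred_eq, not_or, not_le] at hω hcon
    obtain ⟨h3, h4⟩ := hcon
    set m0 := (sv w x y (fun q => a q ω) : ℝ)
    set m1 := (sv y x y (fun q => a q ω) : ℝ)
    set m2 := (sv z x y (fun q => a q ω) : ℝ)
    have e3 : m2 - m0 * (V z / V w) = (m2 - m1 * (V z / V y)) + (m1 - m0 * (V y / V w)) * (V z / V y) := by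
      field_simp
      try ring
    have h5 : |m2 - m0 * (V z / V w)| ≤ |m2 - m1 * (V z / V y)| + |m1 - m0 * (V y / V w)| * (V z / V y) := by
      rw [e3]
      refine (abs_add_le _ _).trans ?_
      rw [abs_mul, abs_of_pos (show 0 < V z / V y by positivity)]
    have h6 : |m1 - m0 * (V y / V w)| * (V z / V y) ≤ ε / 2 * (y * V y) * (V z / V y) := by gcongr
    have e4 : ε / 2 * (y * V y) * (V z / V y) = ε / 2 * (y * V z) := by field_simp
    linarith
  exact (measureReal_mono hsub (measure_ne_top _ _)).trans ((measureReal_union_le _ _).trans (add_le_add h1 h2))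

end prob

end Pool.Agent.H531.MS
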