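import Pool.Agent.H531.MS.Core

set_option autoImplicit false

/-!
# The random sieve in short windows: almost sure form
-/

open Finset MeasureTheory ProbabilityTheory Filter Topology

namespace Pool.Agent.H531.MS

open Pool.Agent.T2H31.HV Pool.Agent.T2H32.BF Pool.Agent.H531.SI

/-- the sieving limit that matters -/
noncomputable def w0 (x : ℕ) : ℕ := ⌊Real.log x * Real.log (Real.log x) ^ 3⌋₊

theorem L_top : Tendsto (fun x : ℕ => Real.log (x : ℝ)) atTop atTop :=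
  Real.tendsto_log_atTop.comp tendsto_natCast_atTop_atTop

theorem LL_top : Tendsto (fun x : ℕ => Real.log (Real.log (x : ℝ))) atTop atTop :=
  Real.tendsto_log_atTop.comp L_top

/-- powers of the logarithm are small -/
theorem logpow_small (A : ℕ) (s : ℝ) (hs : 0 < s) : ∀ᶠ x : ℕ in atTop, Real.log (x : ℝ) ^ A ≤ (x : ℝ) ^ s := by
  have h1 := ((isLittleO_log_rpow_rpow_atTop (A : ℝ) hs).comp_tendsto
    (tendsto_natCast_atTop_atTop (R := ℝ))).bound (show (0 : ℝ) < 1 by norm_num)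
  filter_upwards [h1, eventually_ge_atTop 1] with x h2 h3
  have hx : (1 : ℝ) ≤ x := by exact_mod_cast h3
  simp only [Function.comp, one_mul, Real.rpow_natCast, Real.norm_eq_abs] at h2
  rw [abs_of_nonneg (pow_nonneg (Real.log_nonneg hx) A), abs_of_nonneg (by positivity)] at h2
  exact h2

theorem expo1 {L l c A ε Vy w : ℝ} (hL : 0 < L) (hl : 0 < l) (hc : 0 < c) (hA : 0 < A) (hε : 0 < ε)
    (h1 : c / (A * l) ≤ Vy) (h2 : L * l ^ 3 / 2 ≤ w) (h3 : 192 * A ^ 2 / (ε ^ 2 * c ^ 2) ≤ l) :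
    3 * L ≤ ε ^ 2 * (Vy ^ 2 * w) / 32 := by
  have e1 : (c / (A * l)) ^ 2 * (L * l ^ 3 / 2) ≤ Vy ^ 2 * w := by gcongr
  have e2 : (c / (A * l)) ^ 2 * (L * l ^ 3 / 2) = c ^ 2 * L * l / (2 * A ^ 2) := by
    field_simp
  rw [e2] at e1
  rw [div_le_iff₀ (by positivity)] at h3
  have h4 : 192 * A ^ 2 * L ≤ l * (ε ^ 2 * c ^ 2) * L := by gcongr
  have h5 : 96 * L ≤ ε ^ 2 * (c ^ 2 * L * l / (2 * A ^ 2)) := by
    rw [mul_div_assoc', le_div_iff₀ (by positivity)]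
    linarith
  have h6 : ε ^ 2 * (c ^ 2 * L * l / (2 * A ^ 2)) ≤ ε ^ 2 * (Vy ^ 2 * w) := by gcongr
  linarith

theorem expo2 {L l c A ε Vy Vz y D : ℝ} (hL : 0 < L) (hl : 0 < l) (hc : 0 < c) (hA : 0 < A) (hε : 0 < ε) (hD : 0 < D)
    (h1 : c / (A * l) ≤ Vy) (h2 : 1 / (2 * L) ≤ Vz) (hy : L ^ 2 * D ≤ y)
    (h3 : 96 * A / (ε ^ 2 * c) * l ≤ D) :
    3 * L ≤ ε ^ 2 * (Vy * Vz * y) / 16 := by
  have e1 : (c / (A * l)) * (1 / (2 * L)) * (L ^ 2 * D) ≤ Vy * Vz * y := by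
    have h00 : 0 < c / (A * l) := by positivity
    have h01 : 0 < 1 / (2 * L) := by positivity
    have h02 : 0 < Vy := h00.trans_le h1
    have h03 : 0 < Vz := h01.trans_le h2
    gcongr
  have e2 : (c / (A * l)) * (1 / (2 * L)) * (L ^ 2 * D) = c * L * D / (2 * A * l) := by
    field_simp
  rw [e2] at e1
  rw [div_mul_eq_mul_div, div_le_iff₀ (by positivity)] at h3
  have h6 : 48 * L ≤ ε ^ 2 * (c * L * D / (2 * A * l)) := by
    rw [mul_div_assoc', le_div_iff₀ (by positivity)]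
    have : 96 * A * l * L ≤ D * (ε ^ 2 * c) * L := by gcongr
    linarith
  have h7 : ε ^ 2 * (c * L * D / (2 * A * l)) ≤ ε ^ 2 * (Vy * Vz * y) := by gcongr
  linarith

theorem Vy_lower : ∃ (u₀ : ℕ) (c : ℝ), 2 ≤ u₀ ∧ 0 < c ∧ ∀ y : ℕ, u₀ ≤ y → c ≤ Real.log y * V y := by
  obtain ⟨u₀, hu₀, hV⟩ := V_mul_le
  refine ⟨u₀, Real.log u₀ * V u₀ / 2, hu₀, ?_, fun y hy => ?_⟩
  · have h1 : (2 : ℝ) ≤ u₀ := by exact_mod_cast hu₀
    have h2 := Real.log_pos (show (1 : ℝ) < u₀ by linarith)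
    have h3 := V_pos u₀
    positivity
  · have := hV u₀ y le_rfl hy
    linarith

/-- facts on `L = log x`, `l = log log x` -/
theorem num_facts (ε δ c : ℝ) (A u₀ : ℕ) (hε : 0 < ε) (hδ : 0 < δ) (hc : 0 < c) (hA : 1 ≤ A) : ∀ᶠ x : ℕ in atTop,
    (u₀ : ℝ) ≤ Real.log x ∧ 192 * (A : ℝ) ^ 2 / (ε ^ 2 * c ^ 2) ≤ Real.log (Real.log x) ∧
    3 ≤ Real.log (Real.log x) ∧ Real.log (Real.log (x : ℝ)) ^ 3 ≤ Real.log x ∧
    96 * A / (ε ^ 2 * c) * Real.log (Real.log (x : ℝ)) ≤ Real.log x ^ δ ∧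
    3 / 4 ≤ V (z0 (2 * x)) * Real.log ((2 * x : ℕ) : ℝ) := by
  have hA1 : (1 : ℝ) ≤ A := by exact_mod_cast hA
  have t1 := L_top.eventually_ge_atTop (u₀ : ℝ)
  have t2 := LL_top.eventually_ge_atTop (192 * (A : ℝ) ^ 2 / (ε ^ 2 * c ^ 2))
  have t3 := LL_top.eventually_ge_atTop 3
  have t4 : ∀ᶠ x : ℕ in atTop, Real.log (Real.log (x : ℝ)) ^ 3 ≤ Real.log x := by
    have h1 := ((Real.isLittleO_pow_log_id_atTop (n := 3)).comp_tendsto L_top).bound (show (0 : ℝ) < 1 by norm_num)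
    filter_upwards [h1, t1, t3] with x h2 h3 h4
    simp only [Function.comp, id, one_mul, Real.norm_eq_abs] at h2
    have h5 : (0 : ℝ) ≤ Real.log x := (Nat.cast_nonneg _).trans h3
    rw [abs_of_nonneg h5] at h2
    exact (le_abs_self _).trans h2
  have t5 : ∀ᶠ x : ℕ in atTop, 96 * A / (ε ^ 2 * c) * Real.log (Real.log (x : ℝ)) ≤ Real.log x ^ δ := by
    have h1 := ((isLittleO_log_rpow_atTop hδ).comp_tendsto L_top).bound
      (show (0 : ℝ) < ε ^ 2 * c / (96 * A) by positivity)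
    filter_upwards [h1, t1] with x h2 h3
    have h5 : (0 : ℝ) ≤ Real.log x := (Nat.cast_nonneg _).trans h3
    simp only [Function.comp, Real.norm_eq_abs] at h2
    rw [abs_of_nonneg (Real.rpow_nonneg h5 δ)] at h2
    have h4 := (le_abs_self (Real.log (Real.log (x : ℝ)))).trans h2
    calc 96 * A / (ε ^ 2 * c) * Real.log (Real.log (x : ℝ)) ≤
        96 * A / (ε ^ 2 * c) * (ε ^ 2 * c / (96 * A) * Real.log x ^ δ) := by gcongr
      _ = Real.log x ^ δ := by field_simp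
  have t6 : ∀ᶠ x : ℕ in atTop, 3 / 4 ≤ V (z0 (2 * x)) * Real.log ((2 * x : ℕ) : ℝ) := by
    have h1 : Tendsto (fun x : ℕ => 2 * x) atTop atTop :=
      tendsto_id.const_mul_atTop' (by norm_num)
    exact (z0_lim.comp h1).eventually_const_le (show (3 : ℝ) / 4 < 1 by norm_num)
  filter_upwards [t1, t2, t3, t4, t5, t6] with x g1 g2 g3 g4 g5 g6
  exact ⟨g1, g2, g3, g4, g5, g6⟩

theorem numbers (ε δ : ℝ) (A : ℕ) (hε : 0 < ε) (hδ : 0 < δ) (hA : 1 ≤ A) : ∀ᶠ x : ℕ in atTop, ∀ y : ℕ,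
    Real.log x ^ (2 + δ) ≤ y → (y : ℝ) ≤ Real.log x ^ A →
      1 ≤ w0 x ∧ w0 x ≤ y ∧ y ≤ z0 x ∧ y ≤ x ∧ ∀ z : ℕ, z ≤ z0 (2 * x) →
        2 * Real.exp (-(ε ^ 2 * (V y ^ 2 * w0 x) / 32)) + 2 * Real.exp (-(ε ^ 2 * (V y * V z * y) / 16)) ≤
          4 / (x : ℝ) ^ 3 := by
  obtain ⟨u₀, c, hu₀, hc0, hVl⟩ := Vy_lower
  have hA1 : (1 : ℝ) ≤ A := by exact_mod_cast hA
  filter_upwards [num_facts ε δ c A u₀ hε hδ hc0 hA, logpow_small A (11 / 20) (by norm_num), z0_large,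
    eventually_ge_atTop 3] with x ⟨g1, g2, g3, g4, g5, g6⟩ g7 g8 g9 y hy1 hy2
  have hx3 : (3 : ℝ) ≤ x := by exact_mod_cast g9
  have hx0 : (0 : ℝ) < x := by linarith
  obtain ⟨L, hL⟩ : ∃ L, L = Real.log (x : ℝ) := ⟨_, rfl⟩
  obtain ⟨l, hl⟩ : ∃ l, l = Real.log L := ⟨_, rfl⟩
  rw [← hL] at hy1 hy2 g1 g2 g3 g4 g5 g7
  rw [← hl] at g2 g3 g4 g5
  have hu2 : (2 : ℝ) ≤ u₀ := by exact_mod_cast hu₀
  have hL2 : 2 ≤ L := hu2.trans g1
  have hL0 : 0 < L := by linarith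
  have hl0 : 0 < l := by linarith
  have hw0 : w0 x = ⌊L * l ^ 3⌋₊ := by
    rw [hl, hL]
    rfl
  have h3 : 1 ≤ l ^ 3 := one_le_pow₀ (by linarith)
  have hLl : 2 ≤ L * l ^ 3 := by nlinarith
  have hw : (w0 x : ℝ) ≤ L * l ^ 3 := by
    rw [hw0]
    exact Nat.floor_le (by positivity)
  have hw' : L * l ^ 3 / 2 ≤ w0 x := by
    have h1 := Nat.lt_floor_add_one (L * l ^ 3)
    rw [hw0]
    linarith
  have hpow : L ^ (2 + δ) = L ^ 2 * L ^ δ := by
    rw [Real.rpow_add hL0]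
    norm_cast
  have hLδ : 1 ≤ L ^ δ := Real.one_le_rpow (by linarith) hδ.le
  have hy1' : L ^ 2 * L ^ δ ≤ y := by rwa [hpow] at hy1
  have hy0 : L ^ 2 ≤ (y : ℝ) := le_trans (le_mul_of_one_le_right (by positivity) hLδ) hy1'
  have hLL : L ≤ L ^ 2 := le_self_pow₀ (by linarith) (by norm_num)
  have hyu : u₀ ≤ y := by
    have : (u₀ : ℝ) ≤ y := g1.trans (hLL.trans hy0)
    exact_mod_cast this
  have hyR : (2 : ℝ) ≤ y := hL2.trans (hLL.trans hy0)
  have hyR0 : (0 : ℝ) < y := two_pos.trans_le hyR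
  have hlogy : Real.log y ≤ A * l := by
    have h1 := Real.log_le_log hyR0 hy2
    rw [Real.log_pow, ← hl] at h1
    exact h1
  have hVy : c / (A * l) ≤ V y := by
    rw [div_le_iff₀ (by positivity)]
    have h1 := hVl y hyu
    have h2 := V_pos y
    have h3 : Real.log y * V y ≤ A * l * V y := by gcongr
    calc c ≤ _ := h1
      _ ≤ _ := h3
      _ = _ := by ring
  have hyx : y ≤ x := by
    have h1 : (y : ℝ) ≤ (x : ℝ) ^ (1 : ℝ) :=
      hy2.trans (g7.trans (Real.rpow_le_rpow_of_exponent_le (by linarith) (by norm_num)))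
    rw [Real.rpow_one] at h1
    exact_mod_cast h1
  refine ⟨?_, ?_, ?_, hyx, ?_⟩
  · have : (1 : ℝ) ≤ w0 x := by linarith
    exact_mod_cast this
  · have h4 : (w0 x : ℝ) ≤ y := by
      calc (w0 x : ℝ) ≤ L * l ^ 3 := hw
        _ ≤ L * L := by gcongr
        _ = L ^ 2 := by ring
        _ ≤ y := hy0
    exact_mod_cast h4
  · exact (Nat.le_floor (hy2.trans g7)).trans g8
  · intro z hz
    have hVz : 1 / (2 * L) ≤ V z := by
      have h1 : V (z0 (2 * x)) ≤ V z := V_anti hz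
      refine le_trans ?_ h1
      have h2 : Real.log ((2 * x : ℕ) : ℝ) ≤ 3 / 2 * L := by
        push_cast
        rw [Real.log_mul (by norm_num) hx0.ne', ← hL]
        have := Real.log_two_lt_d9
        linarith
      have h3 := V_pos (z0 (2 * x))
      have h4 : V (z0 (2 * x)) * Real.log ((2 * x : ℕ) : ℝ) ≤ V (z0 (2 * x)) * (3 / 2 * L) := by gcongr
      rw [div_le_iff₀ (by positivity)]
      linarith
    have h1 : 3 * L ≤ ε ^ 2 * (V y ^ 2 * w0 x) / 32 :=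
      expo1 hL0 hl0 hc0 (by linarith) hε hVy hw' g2
    have h2 : 3 * L ≤ ε ^ 2 * (V y * V z * y) / 16 :=
      expo2 hL0 hl0 hc0 (by linarith) hε (by linarith) hVy hVz hy1' g5
    have h3 : Real.exp (-(3 * L)) = 1 / (x : ℝ) ^ 3 := by
      have e : -(3 * L) = Real.log ((x : ℝ) ^ 3)⁻¹ := by
        rw [Real.log_inv, Real.log_pow, hL]
        push_cast
        rfl
      rw [e, Real.exp_log (by positivity), one_div]
    have h4 : Real.exp (-(ε ^ 2 * (V y ^ 2 * w0 x) / 32)) ≤ 1 / (x : ℝ) ^ 3 := by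
      rw [← h3]
      exact Real.exp_le_exp.2 (neg_le_neg h1)
    have h5 : Real.exp (-(ε ^ 2 * (V y * V z * y) / 16)) ≤ 1 / (x : ℝ) ^ 3 := by
      rw [← h3]
      exact Real.exp_le_exp.2 (neg_le_neg h2)
    calc _ ≤ 2 * (1 / (x : ℝ) ^ 3) + 2 * (1 / (x : ℝ) ^ 3) := by gcongr
      _ = _ := by ring

section prob

variable {Ω : Type} [MeasurableSpace Ω] {P : Measure Ω} {a : ℕ → Ω → ℕ}

theorem ae_core1 (h : Model P a) (ε δ : ℝ) (A : ℕ) (hε : 0 < ε) (hε1 : ε ≤ 1) (hδ : 0 < δ) (hA : 1 ≤ A) :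
    ∀ᵐ ω ∂P, ∀ᶠ x : ℕ in atTop, ∀ y : ℕ, Real.log x ^ (2 + δ) ≤ y → (y : ℝ) ≤ Real.log x ^ A →
      ∀ z : ℕ, (z = z0 x ∨ z = z0 (x + y)) →
        |(sv z x y (fun q => a q ω) : ℝ) - sv (w0 x) x y (fun q => a q ω) * (V z / V (w0 x))| ≤ ε * (y * V z) := by
  classical
  have := prob h
  obtain ⟨N0, hN0⟩ := eventually_atTop.1 ((numbers ε δ A hε hδ hA).and
    ((logpow_small A 1 one_pos).and (eventually_ge_atTop 3)))
  set Bd : ℕ → ℕ → ℕ → Set Ω := fun x y z =>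
    {ω | ε * (y * V z) < |(sv z x y (fun q => a q ω) : ℝ) - sv (w0 x) x y (fun q => a q ω) * (V z / V (w0 x))|}
    with hBd
  have hb : ∀ x ≥ N0, ∀ y : ℕ, Real.log x ^ (2 + δ) ≤ y → (y : ℝ) ≤ Real.log x ^ A →
      P (Bd x y (z0 x) ∪ Bd x y (z0 (x + y))) ≤ ENNReal.ofReal (8 / (x : ℝ) ^ 3) := by
    intro x hx y hy1 hy2
    obtain ⟨h1, -, h3⟩ := hN0 x hx
    obtain ⟨g1, g2, g3, g4, g5⟩ := h1 y hy1 hy2
    have hx3 : (3 : ℝ) ≤ x := by exact_mod_cast h3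
    rw [← ofReal_measureReal]
    apply ENNReal.ofReal_le_ofReal
    have e1 := two_phase h x y (w0 x) (z0 x) g1 g2 g3 ε hε hε1
    have e2 := two_phase h x y (w0 x) (z0 (x + y)) g1 g2 (g3.trans (z0_mono (by omega))) ε hε hε1
    have f1 := g5 (z0 x) (z0_mono (by omega))
    have f2 := g5 (z0 (x + y)) (z0_mono (by omega))
    calc P.real (Bd x y (z0 x) ∪ Bd x y (z0 (x + y))) ≤ P.real (Bd x y (z0 x)) + P.real (Bd x y (z0 (x + y))) :=
          measureReal_union_le _ _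
      _ ≤ 4 / (x : ℝ) ^ 3 + 4 / (x : ℝ) ^ 3 := add_le_add (e1.trans f1) (e2.trans f2)
      _ = _ := by ring
  set s : ℕ → Set Ω := fun x => if N0 ≤ x then
    ⋃ y ∈ (range (x + 1)).filter (fun y : ℕ => Real.log x ^ (2 + δ) ≤ y ∧ (y : ℝ) ≤ Real.log x ^ A),
      (Bd x y (z0 x) ∪ Bd x y (z0 (x + y))) else ∅ with hs
  obtain ⟨N1, hN1⟩ := eventually_atTop.1 (logpow_small A (1 / 2) (by norm_num))
  have hsb : ∀ x ≥ N1, P (s x) ≤ ENNReal.ofReal (16 * (1 / (x : ℝ) ^ 2)) := by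
    intro x hxN
    by_cases hx : N0 ≤ x
    · simp only [hs, if_pos hx]
      obtain ⟨-, h4, h2⟩ := hN0 x hx
      have hx2 : (3 : ℝ) ≤ x := by exact_mod_cast h2
      calc P (⋃ y ∈ (range (x + 1)).filter (fun y : ℕ => Real.log x ^ (2 + δ) ≤ y ∧ (y : ℝ) ≤ Real.log x ^ A),
              (Bd x y (z0 x) ∪ Bd x y (z0 (x + y))))
          ≤ ∑ y ∈ (range (x + 1)).filter (fun y : ℕ => Real.log x ^ (2 + δ) ≤ y ∧ (y : ℝ) ≤ Real.log x ^ A),
              P (Bd x y (z0 x) ∪ Bd x y (z0 (x + y))) :=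
            measure_biUnion_finset_le _ _
        _ ≤ ∑ y ∈ (range (x + 1)).filter (fun y : ℕ => Real.log x ^ (2 + δ) ≤ y ∧ (y : ℝ) ≤ Real.log x ^ A),
              ENNReal.ofReal (8 / (x : ℝ) ^ 3) := by
            refine sum_le_sum fun y hy => ?_
            rw [mem_filter, mem_range] at hy
            exact hb x hx y hy.2.1 hy.2.2
        _ ≤ ∑ y ∈ range (x + 1), ENNReal.ofReal (8 / (x : ℝ) ^ 3) :=
            sum_le_sum_of_subset (filter_subset _ _)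
        _ = ENNReal.ofReal (((x : ℝ) + 1) * (8 / (x : ℝ) ^ 3)) := by
            have h5 : ENNReal.ofReal ((x : ℝ) + 1) = ((x + 1 : ℕ) : ENNReal) := by
              rw [← ENNReal.ofReal_natCast]
              push_cast
              rfl
            rw [sum_const, card_range, nsmul_eq_mul, ENNReal.ofReal_mul (by positivity), h5]
        _ ≤ ENNReal.ofReal (16 * (1 / (x : ℝ) ^ 2)) := by
            apply ENNReal.ofReal_le_ofReal
            have hN0' : (0 : ℝ) < x := by linarith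
            rw [show ((x : ℝ) + 1) * (8 / (x : ℝ) ^ 3) = (8 * ((x : ℝ) + 1)) / (x : ℝ) ^ 3 by ring,
              show 16 * (1 / (x : ℝ) ^ 2) = (16 * (x : ℝ)) / (x : ℝ) ^ 3 by field_simp]
            gcongr ?_ / _
            nlinarith
    · simp only [hs, if_neg hx, measure_empty, zero_le]
  have hsum : ∑' x, P (s (x + N1)) ≠ ⊤ := by
    have h1 : Summable fun x : ℕ => 16 * (1 / ((x + N1 : ℕ) : ℝ) ^ 2) :=
      ((summable_nat_add_iff N1).2 (Real.summable_one_div_nat_pow.2 (by norm_num))).mul_left _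
    have h2 := ENNReal.ofReal_tsum_of_nonneg (fun x => by positivity) h1
    exact ne_top_of_le_ne_top (by rw [← h2]; exact ENNReal.ofReal_ne_top)
      (ENNReal.tsum_le_tsum fun x => hsb (x + N1) (by omega))
  filter_upwards [ae_eventually_notMem hsum] with ω hω
  obtain ⟨M, hM⟩ := eventually_atTop.1 hω
  filter_upwards [eventually_ge_atTop (M + N1), eventually_ge_atTop N0] with x h1 h2 y hy1 hy2 z hz
  have h3 := hM (x - N1) (by omega)
  rw [Nat.sub_add_cancel (by omega)] at h3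
  simp only [hs, if_pos h2, Set.mem_iUnion, not_exists] at h3
  obtain ⟨g0, -, -⟩ := hN0 x h2
  obtain ⟨g1, g2, g3, g4, g5⟩ := g0 y hy1 hy2
  have h4 := h3 y (mem_filter.2 ⟨mem_range.2 (by omega), hy1, hy2⟩)
  simp only [hBd, Set.mem_union, Set.mem_ofPred_eq, not_or, not_lt] at h4
  rcases hz with rfl | rfl
  · exact h4.1
  · exact h4.2

end prob

end Pool.Agent.H531.MS
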