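import Pool.Agent.H531.MS.Lim
import Pool.Graph.R_pool_sql_team_seeded_b0a926ef.R301.GM.Irr

set_option autoImplicit false

/-!
# The extremal constants of the interval sieve
-/

open Finset Filter Topology
open scoped ENNReal

namespace Pool.Agent.H531.MS

open Pool.Agent.T2H31.HV Pool.Agent.T2H32.BF

/-- the normalised number of integers in `(x, x + u ^ a]` without prime factors `≤ u` -/
noncomputable def nc (a : ℝ) (u x : ℕ) : ℝ := CQ (PN u) x ⌊(u : ℝ) ^ a⌋₊ / ((u : ℝ) ^ a * V u)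

noncomputable def fp (a : ℝ) : ℝ≥0∞ := limsup (fun u : ℕ => ⨆ x : ℕ, ENNReal.ofReal (nc a u x)) atTop

noncomputable def fm (a : ℝ) : ℝ≥0∞ := liminf (fun u : ℕ => ⨅ x : ℕ, ENNReal.ofReal (nc a u x)) atTop

theorem nc_nonneg (a : ℝ) (u x : ℕ) : 0 ≤ nc a u x := by
  unfold nc
  have := V_pos u
  positivity

theorem sup_cmp {F G : ℕ → ℕ → ℝ}
    (h : ∀ ε : ℝ, 0 < ε → ∀ᶠ u : ℕ in atTop, ∀ x : ℕ, ∃ x' : ℕ, F u x ≤ (1 + ε) * G u x' + ε) :
    limsup (fun u : ℕ => ⨆ x : ℕ, ENNReal.ofReal (F u x)) atTop ≤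
      limsup (fun u : ℕ => ⨆ x : ℕ, ENNReal.ofReal (G u x)) atTop := by
  by_contra hcon
  push Not at hcon
  obtain ⟨c, hc1, hc2⟩ := ENNReal.lt_iff_exists_nnreal_btwn.1 hcon
  obtain ⟨c', hc3, hc4⟩ := ENNReal.lt_iff_exists_nnreal_btwn.1 hc2
  obtain ⟨ε, hε, he⟩ := exists_eps c c' (by exact_mod_cast hc3)
  refine not_le.2 hc4 (limsup_le_of_le (by isBoundedDefault) ?_)
  filter_upwards [h ε hε, eventually_lt_of_limsup_lt hc1] with u hu hu2
  refine iSup_le fun x => ?_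
  obtain ⟨x', hx'⟩ := hu x
  have h1 : ENNReal.ofReal (G u x') ≤ c := (le_iSup (fun x : ℕ => ENNReal.ofReal (G u x)) x').trans hu2.le
  have h2 : G u x' ≤ c := by
    rw [ENNReal.ofReal_le_iff_le_toReal (by simp)] at h1
    simpa using h1
  rw [ENNReal.ofReal_le_iff_le_toReal (by simp)]
  simp only [ENNReal.coe_toReal]
  have h3 : (1 + ε) * G u x' ≤ (1 + ε) * c := by gcongr
  linarith

theorem inf_cmp {F G : ℕ → ℕ → ℝ}
    (h : ∀ ε : ℝ, 0 < ε → ∀ᶠ u : ℕ in atTop, ∀ x : ℕ, ∃ x' : ℕ, G u x' ≤ (1 + ε) * F u x + ε) :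
    liminf (fun u : ℕ => ⨅ x : ℕ, ENNReal.ofReal (G u x)) atTop ≤
      liminf (fun u : ℕ => ⨅ x : ℕ, ENNReal.ofReal (F u x)) atTop := by
  by_contra hcon
  push Not at hcon
  obtain ⟨c, hc1, hc2⟩ := ENNReal.lt_iff_exists_nnreal_btwn.1 hcon
  obtain ⟨c', hc3, hc4⟩ := ENNReal.lt_iff_exists_nnreal_btwn.1 hc2
  obtain ⟨ε, hε, he⟩ := exists_eps c c' (by exact_mod_cast hc3)
  refine not_le.2 hc1 (le_liminf_of_le (by isBoundedDefault) ?_)
  filter_upwards [h ε hε, eventually_lt_of_lt_liminf hc4] with u hu hu2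
  refine le_iInf fun x => ?_
  obtain ⟨x', hx'⟩ := hu x
  have h1 : (c' : ℝ≥0∞) ≤ ENNReal.ofReal (G u x') := hu2.le.trans (iInf_le _ x')
  have h2 : (c' : ℝ) ≤ G u x' := by
    by_contra hneg
    push Not at hneg
    have hpos : 0 < (c' : ℝ) := by
      have h0 : (0 : ℝ) ≤ c := c.2
      have : (c : ℝ) < c' := by exact_mod_cast hc3
      linarith
    have : ENNReal.ofReal (G u x') < c' := by
      rw [← ENNReal.ofReal_coe_nnreal]
      exact (ENNReal.ofReal_lt_ofReal_iff hpos).2 hneg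
    exact absurd h1 (not_le.2 this)
  have h3 : (c : ℝ) ≤ F u x := by
    have : (1 + ε) * (c : ℝ) ≤ (1 + ε) * F u x := by linarith
    exact le_of_mul_le_mul_left this (by linarith)
  rw [← ENNReal.ofReal_coe_nnreal]
  exact ENNReal.ofReal_le_ofReal h3

theorem fm_le_fp (a : ℝ) : fm a ≤ fp a := by
  unfold fm fp
  refine liminf_le_liminf (Eventually.of_forall fun u => ?_) |>.trans (liminf_le_limsup)
  exact (iInf_le _ 0).trans (le_iSup (fun x : ℕ => ENNReal.ofReal (nc a u x)) 0)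

/-! ## Tilings -/

theorem CQ_split (Q : Finset ℕ) (x y d : ℕ) : CQ Q x (y + d) = CQ Q x y + CQ Q (x + y) d := by
  classical
  unfold CQ
  rw [← card_union_of_disjoint, ← filter_union]
  · congr 1
    congr 1
    ext m
    rw [mem_union, mem_Ioc, mem_Ioc, mem_Ioc]
    omega
  · rw [disjoint_left]
    intro m hm hm'
    rw [mem_filter, mem_Ioc] at hm hm'
    omega

theorem CQ_tile (Q : Finset ℕ) (x k J : ℕ) : CQ Q x (J * k) = ∑ j ∈ range J, CQ Q (x + j * k) k := by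
  induction J with
  | zero => simp [CQ]
  | succ J ih => rw [sum_range_succ, ← ih, Nat.succ_mul, CQ_split]

theorem tile_max (Q : Finset ℕ) (x k J y : ℕ) (hJ : 0 < J) (h : y ≤ J * k) :
    ∃ x', CQ Q x y ≤ J * CQ Q x' k := by
  by_contra hcon
  push Not at hcon
  have h1 := (CQ_mono Q x h)
  rw [CQ_tile] at h1
  have h2 : ∑ j ∈ range J, J * CQ Q (x + j * k) k < ∑ j ∈ range J, CQ Q x y :=
    sum_lt_sum_of_nonempty ⟨0, mem_range.2 hJ⟩ fun j _ => hcon _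
  rw [← mul_sum, sum_const, card_range, smul_eq_mul] at h2
  exact absurd h1 (not_le.2 (lt_of_mul_lt_mul_left h2 (Nat.zero_le _)))

theorem tile_min (Q : Finset ℕ) (x k J y : ℕ) (h : J * k ≤ y) :
    ∃ x', J * CQ Q x' k ≤ CQ Q x y := by
  rcases Nat.eq_zero_or_pos J with hJ | hJ
  · exact ⟨0, by simp [hJ]⟩
  by_contra hcon
  push Not at hcon
  have h1 := (CQ_mono Q x h)
  rw [CQ_tile] at h1
  have h2 : ∑ j ∈ range J, CQ Q x y < ∑ j ∈ range J, J * CQ Q (x + j * k) k :=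
    sum_lt_sum_of_nonempty ⟨0, mem_range.2 hJ⟩ fun j _ => hcon _
  rw [← mul_sum, sum_const, card_range, smul_eq_mul] at h2
  exact absurd h1 (not_le.2 (lt_of_mul_lt_mul_left h2 (Nat.zero_le _)))

theorem rpow_nat_top {a : ℝ} (ha : 0 < a) : Tendsto (fun u : ℕ => (u : ℝ) ^ a) atTop atTop :=
  (tendsto_rpow_atTop ha).comp tendsto_natCast_atTop_atTop

theorem floor_facts {a : ℝ} (ha : 0 < a) (δ : ℝ) (hδ : 0 < δ) : ∀ᶠ u : ℕ in atTop,
    2 ≤ u ∧ 0 < (⌊(u : ℝ) ^ a⌋₊ : ℝ) ∧ (⌊(u : ℝ) ^ a⌋₊ : ℝ) ≤ (u : ℝ) ^ a ∧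
      (1 - δ) * (u : ℝ) ^ a ≤ ⌊(u : ℝ) ^ a⌋₊ := by
  filter_upwards [eventually_ge_atTop 2, (rpow_nat_top ha).eventually_ge_atTop (1 / δ),
    (rpow_nat_top ha).eventually_ge_atTop 1] with u h1 h2 h3
  have h4 := Nat.lt_floor_add_one ((u : ℝ) ^ a)
  have h5 : (⌊(u : ℝ) ^ a⌋₊ : ℝ) ≤ (u : ℝ) ^ a := Nat.floor_le (by positivity)
  have h6 : 1 ≤ ⌊(u : ℝ) ^ a⌋₊ := Nat.le_floor (by simpa using h3)
  refine ⟨h1, by exact_mod_cast h6, h5, ?_⟩
  rw [div_le_iff₀ hδ] at h2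
  linarith

theorem ratio_small {a b : ℝ} (hab : a < b) (δ : ℝ) (hδ : 0 < δ) : ∀ᶠ u : ℕ in atTop,
    (u : ℝ) ^ a ≤ δ * (u : ℝ) ^ b := by
  filter_upwards [eventually_ge_atTop 1, (rpow_nat_top (sub_pos.2 hab)).eventually_ge_atTop (1 / δ)] with u h1 h2
  have hu : (0 : ℝ) < u := by exact_mod_cast h1
  rw [div_le_iff₀ hδ, Real.rpow_sub hu] at h2
  have h3 : 0 < (u : ℝ) ^ a := Real.rpow_pos_of_pos hu _
  have h4 : 1 * (u : ℝ) ^ a ≤ (u : ℝ) ^ b / (u : ℝ) ^ a * δ * (u : ℝ) ^ a := by gcongr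
  have h5 : (u : ℝ) ^ b / (u : ℝ) ^ a * δ * (u : ℝ) ^ a = δ * (u : ℝ) ^ b := by
    field_simp
  linarith

theorem fp_anti {a b : ℝ} (ha : 0 < a) (hab : a < b) : fp b ≤ fp a := by
  refine sup_cmp fun ε hε => ?_
  set δ := min (ε / 8) (1 / 8) with hδ
  have hδ0 : 0 < δ := by positivity
  have hδ1 : δ ≤ 1 / 8 := min_le_right _ _
  have hδ2 : δ ≤ ε / 8 := min_le_left _ _
  filter_upwards [floor_facts ha δ hδ0, ratio_small hab δ hδ0] with u hu hu2 x
  obtain ⟨h1, h2, h3, h4⟩ := hu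
  set k := ⌊(u : ℝ) ^ a⌋₊ with hk
  set y := ⌊(u : ℝ) ^ b⌋₊ with hy
  have hk0 : 0 < k := by exact_mod_cast h2
  have hy1 : (y : ℝ) ≤ (u : ℝ) ^ b := Nat.floor_le (by positivity)
  have hyJ : y ≤ (y / k + 1) * k := by
    have := Nat.div_add_mod y k
    have h5 := Nat.mod_lt y hk0
    have h6 : (y / k + 1) * k = k * (y / k) + k := by ring
    omega
  obtain ⟨x', hx'⟩ := tile_max (PN u) x k (y / k + 1) y (Nat.succ_pos _) hyJ
  refine ⟨x', ?_⟩
  have hu0 : (0 : ℝ) < u := by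
    have : (2 : ℝ) ≤ u := by exact_mod_cast h1
    linarith
  have hua : 0 < (u : ℝ) ^ a := Real.rpow_pos_of_pos hu0 _
  have hub : 0 < (u : ℝ) ^ b := Real.rpow_pos_of_pos hu0 _
  have hV := V_pos u
  have hJ : ((y / k + 1 : ℕ) : ℝ) * (u : ℝ) ^ a ≤ (1 + ε) * (u : ℝ) ^ b := by
    have h5 : ((y / k : ℕ) : ℝ) ≤ (y : ℝ) / k := Nat.cast_div_le
    have h6 : (u : ℝ) ^ a ≤ (1 + 2 * δ) * k := by nlinarith
    have h7 : (y : ℝ) / k * (u : ℝ) ^ a ≤ (1 + 2 * δ) * (u : ℝ) ^ b := by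
      calc (y : ℝ) / k * (u : ℝ) ^ a ≤ (y : ℝ) / k * ((1 + 2 * δ) * k) := by gcongr
        _ = (1 + 2 * δ) * y := by field_simp
        _ ≤ _ := by gcongr
    push_cast
    have h8 : (((y / k : ℕ) : ℝ) + 1) * (u : ℝ) ^ a ≤ ((y : ℝ) / k + 1) * (u : ℝ) ^ a := by gcongr
    have h9 : ((y : ℝ) / k + 1) * (u : ℝ) ^ a = (y : ℝ) / k * (u : ℝ) ^ a + (u : ℝ) ^ a := by ring
    have h10 : 3 * δ * (u : ℝ) ^ b ≤ ε * (u : ℝ) ^ b := by
      apply mul_le_mul_of_nonneg_right _ hub.le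
      linarith
    linarith
  have h5 : (CQ (PN u) x y : ℝ) ≤ ((y / k + 1 : ℕ) : ℝ) * CQ (PN u) x' k := by exact_mod_cast hx'
  unfold nc
  rw [← hk, ← hy]
  have h6 : (CQ (PN u) x y : ℝ) / ((u : ℝ) ^ b * V u) ≤
      (1 + ε) * (CQ (PN u) x' k / ((u : ℝ) ^ a * V u)) := by
    rw [div_le_iff₀ (by positivity)]
    calc (CQ (PN u) x y : ℝ) ≤ ((y / k + 1 : ℕ) : ℝ) * CQ (PN u) x' k := h5
      _ = (((y / k + 1 : ℕ) : ℝ) * (u : ℝ) ^ a) * (CQ (PN u) x' k / (u : ℝ) ^ a) := by field_simp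
      _ ≤ ((1 + ε) * (u : ℝ) ^ b) * (CQ (PN u) x' k / (u : ℝ) ^ a) := by gcongr
      _ = _ := by field_simp
  linarith

theorem fm_mono {a b : ℝ} (ha : 0 < a) (hab : a < b) : fm a ≤ fm b := by
  refine inf_cmp fun ε hε => ?_
  set δ := min (ε / 8) (1 / 8) with hδ
  have hδ0 : 0 < δ := by positivity
  have hδ1 : δ ≤ 1 / 8 := min_le_right _ _
  have hδ2 : δ ≤ ε / 8 := min_le_left _ _
  filter_upwards [floor_facts ha δ hδ0, floor_facts (ha.trans hab) δ hδ0, ratio_small hab δ hδ0] with u hu hub' hu2 x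
  obtain ⟨h1, h2, h3, h4⟩ := hu
  obtain ⟨-, h2', h3', h4'⟩ := hub'
  set k := ⌊(u : ℝ) ^ a⌋₊ with hk
  set y := ⌊(u : ℝ) ^ b⌋₊ with hy
  have hk0 : 0 < k := by exact_mod_cast h2
  obtain ⟨x', hx'⟩ := tile_min (PN u) x k (y / k) y (Nat.div_mul_le_self _ _)
  refine ⟨x', ?_⟩
  have hu0 : (0 : ℝ) < u := by
    have : (2 : ℝ) ≤ u := by exact_mod_cast h1
    linarith
  have hua : 0 < (u : ℝ) ^ a := Real.rpow_pos_of_pos hu0 _
  have hub : 0 < (u : ℝ) ^ b := Real.rpow_pos_of_pos hu0 _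
  have hV := V_pos u
  have hJ : (1 - 2 * δ) * (u : ℝ) ^ b ≤ ((y / k : ℕ) : ℝ) * (u : ℝ) ^ a := by
    have h5 : (y : ℝ) < (((y / k : ℕ) : ℝ) + 1) * k := by
      have h6 := Nat.div_add_mod y k
      have h7 := Nat.mod_lt y hk0
      have h8 : y < (y / k + 1) * k := by
        have : (y / k + 1) * k = k * (y / k) + k := by ring
        omega
      exact_mod_cast h8
    have h6 : ((y / k : ℕ) : ℝ) * k ≤ ((y / k : ℕ) : ℝ) * (u : ℝ) ^ a := by gcongr
    nlinarith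
  have h5 : ((y / k : ℕ) : ℝ) * CQ (PN u) x' k ≤ (CQ (PN u) x y : ℝ) := by exact_mod_cast hx'
  unfold nc
  rw [← hk, ← hy]
  have h7 : 1 ≤ (1 + ε) * (1 - 2 * δ) := by nlinarith
  have h6 : (CQ (PN u) x' k / ((u : ℝ) ^ a * V u)) ≤ (1 + ε) * ((CQ (PN u) x y : ℝ) / ((u : ℝ) ^ b * V u)) := by
    rw [div_le_iff₀ (by positivity)]
    have h8 : (CQ (PN u) x' k : ℝ) * (u : ℝ) ^ b ≤ (1 + ε) * ((CQ (PN u) x y : ℝ) * (u : ℝ) ^ a) := by
      calc (CQ (PN u) x' k : ℝ) * (u : ℝ) ^ b ≤ ((1 + ε) * (1 - 2 * δ)) * (CQ (PN u) x' k * (u : ℝ) ^ b) := by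
            nlinarith [mul_nonneg (Nat.cast_nonneg (α := ℝ) (CQ (PN u) x' k)) hub.le]
        _ = (1 + ε) * (CQ (PN u) x' k * ((1 - 2 * δ) * (u : ℝ) ^ b)) := by ring
        _ ≤ (1 + ε) * (CQ (PN u) x' k * (((y / k : ℕ) : ℝ) * (u : ℝ) ^ a)) := by gcongr
        _ = (1 + ε) * ((((y / k : ℕ) : ℝ) * CQ (PN u) x' k) * (u : ℝ) ^ a) := by ring
        _ ≤ _ := by gcongr
    have h9 : (1 + ε) * ((CQ (PN u) x y : ℝ) / ((u : ℝ) ^ b * V u)) * ((u : ℝ) ^ a * V u) =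
        ((1 + ε) * ((CQ (PN u) x y : ℝ) * (u : ℝ) ^ a)) / (u : ℝ) ^ b := by
      field_simp
    rw [h9, le_div_iff₀ hub]
    exact h8
  linarith

/-! ## Buchstab's function -/

open Pool.Agent.R529.BU (om om_lt om_gt)

theorem MM_inv (w : ℕ) : Pool.Agent.R528.RM.MM w = (V w)⁻¹ := by
  unfold Pool.Agent.R528.RM.MM
  rw [V_eq, ← prod_inv_distrib]
  refine prod_congr ?_ fun p _ => by rw [one_div]
  ext p
  rw [mem_filter, mem_Icc, mem_PN]
  constructor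
  · rintro ⟨⟨h1, h2⟩, h3⟩
    exact ⟨h2, h3⟩
  · rintro ⟨h1, h3⟩
    exact ⟨⟨h3.one_le, h1⟩, h3⟩

theorem nc_buch {b : ℝ} (hb : 1 < b) :
    Tendsto (fun w : ℕ => nc b w 0) atTop (𝓝 (Real.exp Real.eulerMascheroniConstant * om b)) := by
  have h := (Pool.Agent.R301.GM.rho (t := 1) (u := b) (c := 0) one_pos hb).comp
    (tendsto_natCast_atTop_atTop (R := ℝ))
  refine h.congr' ?_
  filter_upwards [eventually_ge_atTop 1] with w hw
  simp only [Function.comp, add_zero, one_mul, Real.rpow_one, Nat.floor_natCast]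
  rw [MM_inv]
  have h1 : (Pool.Agent.R529.BU.RR ((w : ℝ) ^ b) (w : ℝ)).card = CQ (PN w) 0 ⌊(w : ℝ) ^ b⌋₊ := by
    unfold CQ
    congr 1
    ext m
    rw [Pool.Agent.R529.BU.mem_RR, mem_filter, mem_Ioc, zero_add]
    constructor
    · rintro ⟨⟨h1, h2⟩, h3⟩
      refine ⟨⟨by omega, h2⟩, fun p hp hpm => ?_⟩
      rw [mem_PN] at hp
      have h4 : (w : ℝ) < p := h3 p hp.2 hpm
      have h5 : w < p := by exact_mod_cast h4
      omega
    · rintro ⟨⟨h1, h2⟩, h3⟩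
      refine ⟨⟨by omega, h2⟩, fun p hp hpm => ?_⟩
      by_contra hcon
      push Not at hcon
      have h5 : p ≤ w := by exact_mod_cast hcon
      exact h3 p ((mem_PN _ _).2 ⟨h5, hp⟩) hpm
  rw [h1]
  unfold nc
  have hV := V_pos w
  have hw0 : (0 : ℝ) < (w : ℝ) ^ b := Real.rpow_pos_of_pos (by exact_mod_cast hw) _
  field_simp

theorem buch_le_fp {b : ℝ} (hb : 1 < b) :
    ENNReal.ofReal (Real.exp Real.eulerMascheroniConstant * om b) ≤ fp b := by
  have h := (ENNReal.continuous_ofReal.tendsto _).comp (nc_buch hb)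
  rw [← h.limsup_eq]
  unfold fp
  exact limsup_le_limsup (Eventually.of_forall fun u => le_iSup (fun x : ℕ => ENNReal.ofReal (nc b u x)) 0)

theorem fm_le_buch {b : ℝ} (hb : 1 < b) :
    fm b ≤ ENNReal.ofReal (Real.exp Real.eulerMascheroniConstant * om b) := by
  have h := (ENNReal.continuous_ofReal.tendsto _).comp (nc_buch hb)
  rw [← h.liminf_eq]
  unfold fm
  exact liminf_le_liminf (Eventually.of_forall fun u => iInf_le (fun x : ℕ => ENNReal.ofReal (nc b u x)) 0)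

theorem one_lt_fp {a : ℝ} (ha : 0 < a) : 1 < fp a := by
  obtain ⟨b, hb1, hb2⟩ := om_gt (a + 2)
  have h1 : 1 < ENNReal.ofReal (Real.exp Real.eulerMascheroniConstant * om b) := by
    rw [ENNReal.one_lt_ofReal]
    have h2 : Real.exp Real.eulerMascheroniConstant * Real.exp (-Real.eulerMascheroniConstant) = 1 := by
      rw [← Real.exp_add]
      simp
    rw [← h2]
    exact mul_lt_mul_of_pos_left hb2 (Real.exp_pos _)
  exact h1.trans_le ((buch_le_fp (by linarith)).trans (fp_anti ha (by linarith)))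

theorem fm_lt_one {a : ℝ} (ha : 0 < a) : fm a < 1 := by
  obtain ⟨b, hb1, hb2⟩ := om_lt (a + 2)
  have h1 : ENNReal.ofReal (Real.exp Real.eulerMascheroniConstant * om b) < 1 := by
    rw [ENNReal.ofReal_lt_one]
    have h2 : Real.exp Real.eulerMascheroniConstant * Real.exp (-Real.eulerMascheroniConstant) = 1 := by
      rw [← Real.exp_add]
      simp
    rw [← h2]
    exact mul_lt_mul_of_pos_left hb2 (Real.exp_pos _)
  exact ((fm_mono ha (by linarith)).trans (fm_le_buch (show 1 < b by linarith))).trans_lt h1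

/-! ## Large exponents -/

theorem rc_CQ (w n U : ℕ) : Pool.Agent.R301.GM.rc w n U = CQ (PN w) n U := by
  classical
  unfold Pool.Agent.R301.GM.rc CQ
  refine card_bij (fun k _ => n + k + 1) ?_ ?_ ?_
  · intro k hk
    rw [mem_filter, mem_range] at hk
    rw [mem_filter, mem_Ioc]
    refine ⟨⟨by omega, by omega⟩, fun p hp hd => ?_⟩
    rw [mem_PN] at hp
    have := hk.2 p hp.2 hd
    omega
  · intro k _ k' _ h
    omega
  · intro m hm
    rw [mem_filter, mem_Ioc] at hm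
    refine ⟨m - n - 1, ?_, by omega⟩
    rw [mem_filter, mem_range]
    refine ⟨by omega, fun p hp hd => ?_⟩
    rw [show n + (m - n - 1) + 1 = m by omega] at hd
    by_contra hcon
    exact hm.2 p ((mem_PN _ _).2 ⟨by omega, hp⟩) hd

theorem fund {ε : ℝ} (hε : 0 < ε) : ∃ a₀ : ℝ, 1 < a₀ ∧ ∀ a : ℝ, a₀ ≤ a → ∀ᶠ w : ℕ in atTop, ∀ x : ℕ,
    1 - ε ≤ nc a w x ∧ nc a w x ≤ 1 + ε := by
  obtain ⟨s, w0, hs, h⟩ := Pool.Agent.R301.GM.rc_fund (show 0 < ε / 2 by positivity)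
  refine ⟨s + 1, by
    have : (1 : ℝ) ≤ s := by exact_mod_cast hs
    linarith, fun a ha => ?_⟩
  have hs1 : (1 : ℝ) ≤ s := by exact_mod_cast hs
  have ha0 : 0 < a := by linarith
  have hlt : (s : ℝ) < a := by linarith
  filter_upwards [floor_facts ha0 (min (ε / 2) (1 / 2)) (by positivity), eventually_ge_atTop w0,
    ratio_small hlt (1 / 2 ^ (s + 1)) (by positivity)] with w hw1 hw2 hw3 x
  obtain ⟨h1, h2, h3, h4⟩ := hw1
  have hw : (2 : ℝ) ≤ w := by exact_mod_cast h1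
  have hV := V_pos w
  have hwa : 0 < (w : ℝ) ^ a := Real.rpow_pos_of_pos (by linarith) _
  set U := ⌊(w : ℝ) ^ a⌋₊ with hU
  have hm1 : min (ε / 2) (1 / 2) ≤ 1 / 2 := min_le_right _ _
  have hm2 : min (ε / 2) (1 / 2) ≤ ε / 2 := min_le_left _ _
  have hpow : ((w : ℝ) + 1) ^ s ≤ U := by
    calc ((w : ℝ) + 1) ^ s ≤ (2 * w) ^ s := by
          gcongr
          linarith
      _ = 2 ^ s * (w : ℝ) ^ (s : ℝ) := by rw [mul_pow, Real.rpow_natCast]
      _ ≤ 2 ^ s * (1 / 2 ^ (s + 1) * (w : ℝ) ^ a) := by gcongr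
      _ = 1 / 2 * (w : ℝ) ^ a := by
        rw [pow_succ]
        field_simp
      _ ≤ (1 - min (ε / 2) (1 / 2)) * (w : ℝ) ^ a := by
        gcongr
        linarith
      _ ≤ U := h4
  have h5 := h w hw2 x U hpow
  rw [rc_CQ, MM_inv, div_inv_eq_mul, abs_le] at h5
  unfold nc
  rw [← hU, le_div_iff₀ (by positivity), div_le_iff₀ (by positivity)]
  have h6 : (U : ℝ) * V w ≤ (w : ℝ) ^ a * V w := by gcongr
  have h7 : (1 - ε / 2) * ((w : ℝ) ^ a * V w) ≤ U * V w := by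
    calc (1 - ε / 2) * ((w : ℝ) ^ a * V w) ≤ (1 - min (ε / 2) (1 / 2)) * ((w : ℝ) ^ a * V w) := by
          gcongr
      _ = ((1 - min (ε / 2) (1 / 2)) * (w : ℝ) ^ a) * V w := by ring
      _ ≤ U * V w := by gcongr
  have h8 : 0 ≤ (w : ℝ) ^ a * V w := by positivity
  constructor
  · nlinarith
  · nlinarith

theorem fp_top : Tendsto fp atTop (𝓝 1) := by
  refine tendsto_of_le_liminf_of_limsup_le ?_ ?_
  · refine le_liminf_of_le (by isBoundedDefault) ?_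
    filter_upwards [eventually_gt_atTop 0] with a ha
    exact (one_lt_fp ha).le
  · refine ENNReal.le_of_forall_pos_le_add fun ε hε _ => ?_
    obtain ⟨a₀, h0, h⟩ := fund (show (0 : ℝ) < ε by exact_mod_cast hε)
    refine limsup_le_of_le (by isBoundedDefault) ?_
    filter_upwards [eventually_ge_atTop a₀] with a ha
    unfold fp
    refine limsup_le_of_le (by isBoundedDefault) ?_
    filter_upwards [h a ha] with w hw
    refine iSup_le fun x => ?_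
    have : (1 : ℝ≥0∞) + (ε : ℝ≥0∞) = ENNReal.ofReal (1 + (ε : ℝ)) := by
      rw [ENNReal.ofReal_add (by norm_num) (by positivity)]
      simp
    rw [this]
    exact ENNReal.ofReal_le_ofReal (hw x).2

theorem fm_top : Tendsto fm atTop (𝓝 1) := by
  refine tendsto_of_le_liminf_of_limsup_le ?_ ?_
  · refine ENNReal.le_of_forall_pos_le_add fun ε hε _ => ?_
    obtain ⟨a₀, h0, h⟩ := fund (show (0 : ℝ) < ε by exact_mod_cast hε)
    have h2 : ENNReal.ofReal (1 - (ε : ℝ)) ≤ liminf fm atTop := by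
      refine le_liminf_of_le (by isBoundedDefault) ?_
      filter_upwards [eventually_ge_atTop a₀] with a ha
      unfold fm
      refine le_liminf_of_le (by isBoundedDefault) ?_
      filter_upwards [h a ha] with w hw
      exact le_iInf fun x => ENNReal.ofReal_le_ofReal (hw x).1
    calc (1 : ℝ≥0∞) = ENNReal.ofReal ((1 - (ε : ℝ)) + ε) := by simp
      _ ≤ ENNReal.ofReal (1 - (ε : ℝ)) + ENNReal.ofReal (ε : ℝ) := ENNReal.ofReal_add_le
      _ ≤ liminf fm atTop + ε := by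
        gcongr
        simp
  · refine limsup_le_of_le (by isBoundedDefault) ?_
    filter_upwards [eventually_gt_atTop 0] with a ha
    exact (fm_lt_one ha).le

end Pool.Agent.H531.MS
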