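import Pool.Agent.H531.MS.PrmB
import Pool.Agent.H531.MS.CoreAe

set_option autoImplicit false

/-!
# The windows of the random sieve and the interval sieve
-/

open Finset MeasureTheory ProbabilityTheory Filter Topology

namespace Pool.Agent.H531.MS

open Pool.Agent.T2H31.HV Pool.Agent.H531.SI
open Pool.Agent.T2H32.BF (V V_pos V_anti V_ratio z0 z0_mono z0_lim z0_top R Model)

/-! ## Chinese remainders -/

theorem crt (w : ℕ) (c : ℕ → ℕ) : ∃ k : ℕ, ∀ p ∈ PN w, k ≡ c p [MOD p] := by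
  obtain ⟨k, hk⟩ := Nat.chineseRemainderOfFinset c id (PN w) (fun p hp => ((mem_PN _ _).1 hp).2.ne_zero)
    (fun p hp q hq hpq => (Nat.coprime_primes ((mem_PN _ _).1 hp).2 ((mem_PN _ _).1 hq).2).2 hpq)
  exact ⟨k, hk⟩

theorem sv_CQ (u x x' : ℕ) (b : ℕ → ℕ) (hb : ∀ p ∈ PN u, b p < p) (h : ∀ p ∈ PN u, x' + b p ≡ x [MOD p])
    (y : ℕ) : sv u x y b = CQ (PN u) x' y := by
  classical
  unfold sv CQ Sw
  have key : ∀ p ∈ PN u, ∀ t : ℕ, (x + t) % p = b p ↔ p ∣ x' + t := by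
    intro p hp t
    have hbp := hb p hp
    have h1 := h p hp
    have h2 : x' + b p + t ≡ x + t [MOD p] := Nat.ModEq.add_right t h1
    constructor
    · intro h3
      have h4 : x + t ≡ b p [MOD p] := by
        unfold Nat.ModEq
        rw [h3, Nat.mod_eq_of_lt hbp]
      have h5 : x' + t + b p ≡ 0 + b p [MOD p] := by
        rw [zero_add, add_right_comm]
        exact h2.trans h4
      exact (Nat.modEq_zero_iff_dvd).1 (Nat.ModEq.add_right_cancel' _ h5)
    · intro h3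
      have h4 : x' + t ≡ 0 [MOD p] := (Nat.modEq_zero_iff_dvd).2 h3
      have h5 : x + t ≡ b p [MOD p] := by
        have h6 : x' + t + b p ≡ 0 + b p [MOD p] := Nat.ModEq.add_right _ h4
        rw [zero_add, add_right_comm] at h6
        exact h2.symm.trans h6
      unfold Nat.ModEq at h5
      rwa [Nat.mod_eq_of_lt hbp] at h5
  refine card_bij (fun n _ => x' + (n - x)) ?_ ?_ ?_
  · intro n hn
    rw [mem_filter, mem_Ioc] at hn
    rw [mem_filter, mem_Ioc]
    refine ⟨⟨by omega, by omega⟩, fun p hp hd => ?_⟩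
    have := (key p hp (n - x)).2 hd
    rw [show x + (n - x) = n by omega] at this
    exact hn.2 p hp this
  · intro n hn n' hn' e
    rw [mem_filter, mem_Ioc] at hn hn'
    omega
  · intro m hm
    rw [mem_filter, mem_Ioc] at hm
    refine ⟨x + (m - x'), ?_, by omega⟩
    rw [mem_filter, mem_Ioc]
    refine ⟨⟨by omega, by omega⟩, fun p hp he => ?_⟩
    have := (key p hp (m - x')).1 he
    rw [show x' + (m - x') = m by omega] at this
    exact hm.2 p hp this

/-- every window is a window of the interval sieve -/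
theorem crt_window (w x : ℕ) (b : ℕ → ℕ) (hb : ∀ p, p.Prime → b p < p) : ∃ x' : ℕ, ∀ u ≤ w, ∀ y : ℕ,
    sv u x y b = CQ (PN u) x' y := by
  obtain ⟨k, hk⟩ := crt w fun p => x + (p - b p)
  refine ⟨k, fun u hu y => sv_CQ u x k b (fun p hp => hb p ((mem_PN _ _).1 hp).2) (fun p hp => ?_) y⟩
  have hp' := (mem_PN _ _).1 hp
  have h1 := hk p ((mem_PN _ _).2 ⟨hp'.1.trans hu, hp'.2⟩)
  have h2 := hb p hp'.2
  have h3 : k + b p ≡ x + (p - b p) + b p [MOD p] := Nat.ModEq.add_right _ h1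
  have h4 : x + (p - b p) + b p = x + p := by omega
  rw [h4] at h3
  refine h3.trans ?_
  unfold Nat.ModEq
  rw [Nat.add_mod_right]

/-- every window of the interval sieve occurs soon after any `X` -/
theorem crt_find (v X x'' : ℕ) (b : ℕ → ℕ) (hb : ∀ p, p.Prime → b p < p) : ∃ x : ℕ, X < x ∧
    x ≤ X + 2 * primorial v ∧ ∀ y : ℕ, sv v x y b = CQ (PN v) x'' y := by
  obtain ⟨k, hk⟩ := crt v fun p => x'' + b p
  set M := primorial v with hM
  have hM0 : 0 < M := primorial_pos v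
  refine ⟨k % M + M * (X / M + 1), ?_, ?_, fun y => ?_⟩
  · have h1 := Nat.div_add_mod X M
    have h2 := Nat.mod_lt X hM0
    have h3 : M * (X / M + 1) = M * (X / M) + M := by ring
    omega
  · have h1 := Nat.div_add_mod X M
    have h2 := Nat.mod_lt k hM0
    have h3 : M * (X / M + 1) = M * (X / M) + M := by ring
    omega
  · refine sv_CQ v _ x'' b (fun p hp => hb p ((mem_PN _ _).1 hp).2) (fun p hp => ?_) y
    have h1 := hk p hp
    have hpM : p ∣ M := by
      rw [hM]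
      unfold primorial
      refine Finset.dvd_prod_of_mem _ ?_
      rw [mem_PN] at hp
      rw [mem_filter, mem_range]
      exact ⟨by omega, hp.2⟩
    have h2 : k % M + M * (X / M + 1) ≡ k [MOD M] := by
      unfold Nat.ModEq
      rw [Nat.add_mul_mod_self_left, Nat.mod_mod]
    exact ((h2.of_dvd hpM).trans h1).symm

/-! ## The random set and the survivors -/

theorem cR_le (x y : ℕ) (b : ℕ → ℕ) : (R z0 b ∩ Set.Ioc x (x + y)).ncard ≤ sv (z0 x) x y b := by
  classical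
  unfold sv
  rw [← Set.ncard_coe_finset]
  refine Set.ncard_le_ncard (fun n hn => ?_) (finite_toSet _)
  rw [mem_coe]
  unfold Sw
  rw [mem_filter, mem_Ioc]
  refine ⟨⟨hn.2.1, hn.2.2⟩, fun p hp => ?_⟩
  rw [mem_PN] at hp
  exact hn.1.2 p (hp.1.trans (z0_mono hn.2.1.le)) hp.2

theorem le_cR (x y : ℕ) (hx : 2 ≤ x) (b : ℕ → ℕ) :
    sv (z0 (x + y)) x y b ≤ (R z0 b ∩ Set.Ioc x (x + y)).ncard := by
  classical
  unfold sv
  rw [← Set.ncard_coe_finset]
  refine Set.ncard_le_ncard (fun n hn => ?_) (fin_aux _ _ _)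
  rw [mem_coe] at hn
  unfold Sw at hn
  rw [mem_filter, mem_Ioc] at hn
  refine ⟨⟨by omega, fun p hp hpp => ?_⟩, hn.1.1, hn.1.2⟩
  exact hn.2 p ((mem_PN _ _).2 ⟨hp.trans (z0_mono hn.1.2), hpp⟩)

/-- the almost sure property of the classes -/
def Good (b : ℕ → ℕ) : Prop := (∀ p, p.Prime → b p < p) ∧
  ∀ ε δ : ℝ, ∀ A : ℕ, 0 < ε → 0 < δ → ∀ᶠ x : ℕ in atTop, ∀ y : ℕ,
    Real.log x ^ (2 + δ) ≤ y → (y : ℝ) ≤ Real.log x ^ A →
      ∀ z : ℕ, (z = z0 x ∨ z = z0 (x + y)) →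
        |(sv z x y b : ℝ) - sv (w0 x) x y b * (V z / V (w0 x))| ≤ ε * (y * V z)

theorem ae_good {Ω : Type} [MeasurableSpace Ω] {P : Measure Ω} {a : ℕ → Ω → ℕ} (h : Model P a) :
    ∀ᵐ ω ∂P, Good fun q => a q ω := by
  have h1 : ∀ᵐ ω ∂P, ∀ k j A : ℕ, ∀ᶠ x : ℕ in atTop, ∀ y : ℕ,
      Real.log x ^ (2 + 1 / ((j : ℝ) + 1)) ≤ y → (y : ℝ) ≤ Real.log x ^ (A + 1) →
      ∀ z : ℕ, (z = z0 x ∨ z = z0 (x + y)) →
        |(sv z x y (fun q => a q ω) : ℝ) - sv (w0 x) x y (fun q => a q ω) * (V z / V (w0 x))| ≤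
          1 / ((k : ℝ) + 1) * (y * V z) := by
    rw [ae_all_iff]
    intro k
    rw [ae_all_iff]
    intro j
    rw [ae_all_iff]
    intro A
    refine ae_core1 h _ _ (A + 1) (by positivity) ?_ (by positivity) (by omega)
    rw [div_le_one (by positivity)]
    have : (0 : ℝ) ≤ k := Nat.cast_nonneg k
    linarith
  filter_upwards [h1, Pool.Agent.T2H32.BF.ae_lt h] with ω h2 h3
  refine ⟨h3, fun ε δ A hε hδ => ?_⟩
  obtain ⟨k, hk⟩ := exists_nat_one_div_lt hε
  obtain ⟨j, hj⟩ := exists_nat_one_div_lt hδ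
  filter_upwards [h2 k j A, L_top.eventually_ge_atTop 1] with x h4 h5 y hy1 hy2 z hz
  refine (h4 y ?_ ?_ z hz).trans ?_
  · refine le_trans ?_ hy1
    exact Real.rpow_le_rpow_of_exponent_le h5 (by linarith)
  · refine hy2.trans ?_
    exact pow_le_pow_right₀ h5 (by omega)
  · have := V_pos z
    apply mul_le_mul_of_nonneg_right hk.le (by positivity)

theorem w0_top : Tendsto w0 atTop atTop := by
  unfold w0
  apply tendsto_nat_floor_atTop.comp
  exact L_top.atTop_mul_atTop₀ ((tendsto_pow_atTop (by norm_num)).comp LL_top)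

/-- the number of random primes in a window -/
theorem count_good {b : ℕ → ℕ} (hb : Good b) (ε δ : ℝ) (A : ℕ) (hε : 0 < ε) (hδ : 0 < δ) (hA : 1 ≤ A) :
    ∀ᶠ x : ℕ in atTop, ∀ y : ℕ, Real.log x ^ (2 + δ) ≤ y → (y : ℝ) ≤ Real.log x ^ A →
      |((R z0 b ∩ Set.Ioc x (x + y)).ncard : ℝ) * Real.log x - sv (w0 x) x y b / V (w0 x)| ≤ ε * y := by
  obtain ⟨C, k₀, hC, hsv⟩ := upper_sieve 1
  set κ := min ε 1 / (4 * (C + 2)) with hκ
  have hκ0 : 0 < κ := by positivity
  have hκm : 4 * (C + 2) * κ = min ε 1 := by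
    rw [hκ]
    field_simp
  have hκε : 4 * (C + 2) * κ ≤ ε := hκm.trans_le (min_le_left _ _)
  have hκ1 : κ ≤ 1 := by
    have : 4 * (C + 2) * κ ≤ 1 := hκm.trans_le (min_le_right _ _)
    nlinarith
  have t1 : ∀ᶠ x : ℕ in atTop, 1 - κ / 2 < V (z0 x) * Real.log x ∧ V (z0 x) * Real.log x < 1 + κ := by
    exact (z0_lim.eventually_const_lt (show 1 - κ / 2 < 1 by linarith)).and
      (z0_lim.eventually_lt_const (show 1 < 1 + κ by linarith))
  obtain ⟨N1, hN1⟩ := eventually_atTop.1 t1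
  have t2 := L_top.eventually_ge_atTop (2 / κ)
  filter_upwards [hb.2 κ δ A hκ0 hδ, numbers 1 δ A one_pos hδ hA, eventually_ge_atTop N1, t2,
    w0_top.eventually_ge_atTop k₀, eventually_ge_atTop 3] with x h1 h2 h3 h4 h5 h6 y hy1 hy2
  obtain ⟨g1, g2, g3, g4, -⟩ := h2 y hy1 hy2
  have hx3 : (3 : ℝ) ≤ x := by exact_mod_cast h6
  obtain ⟨L, hL⟩ : ∃ L, L = Real.log (x : ℝ) := ⟨_, rfl⟩
  have hL0 : 0 < L := by
    rw [hL]
    exact Real.log_pos (by linarith)
  obtain ⟨x', hx'⟩ := crt_window (w0 x) x b hb.1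
  have hVw := V_pos (w0 x)
  -- the number of survivors
  have hm : (sv (w0 x) x y b : ℝ) / V (w0 x) ≤ C * y := by
    rw [div_le_iff₀ hVw, hx' (w0 x) le_rfl y]
    exact hsv (PN (w0 x)) y (h5.trans g2) (fun q hq => by
      rw [mem_PN] at hq
      exact ⟨hq.2, by rw [pow_one]; omega⟩) x'
  set m := (sv (w0 x) x y b : ℝ) / V (w0 x) with hmd
  have hm0 : 0 ≤ m := by positivity
  have e1 : ∀ z, (sv (w0 x) x y b : ℝ) * (V z / V (w0 x)) = m * V z := fun z => by
    rw [hmd]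
    ring
  have f1 := h1 y hy1 hy2 (z0 x) (Or.inl rfl)
  have f2 := h1 y hy1 hy2 (z0 (x + y)) (Or.inr rfl)
  rw [e1, abs_le] at f1 f2
  have c1' : ((R z0 b ∩ Set.Ioc x (x + y)).ncard : ℝ) ≤ sv (z0 x) x y b := by exact_mod_cast cR_le x y b
  have c2' : (sv (z0 (x + y)) x y b : ℝ) ≤ ((R z0 b ∩ Set.Ioc x (x + y)).ncard : ℝ) := by
    exact_mod_cast le_cR x y (by omega) b
  set cR := ((R z0 b ∩ Set.Ioc x (x + y)).ncard : ℝ) with hcR
  obtain ⟨d1, d2⟩ := hN1 x h3
  obtain ⟨d3, d4⟩ := hN1 (x + y) (by omega)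
  rw [← hL] at d1 d2 h4 ⊢
  -- `V (z0 (x + y)) L ≥ 1 - κ`
  have hlog : Real.log ((x + y : ℕ) : ℝ) ≤ L + κ / 2 * L := by
    have e2 : ((x + y : ℕ) : ℝ) ≤ 2 * x := by
      have : (y : ℝ) ≤ x := by exact_mod_cast g4
      push_cast
      linarith
    have e3 := Real.log_le_log (by positivity) e2
    rw [Real.log_mul (by norm_num) (by linarith), ← hL] at e3
    have := Real.log_two_lt_d9
    rw [div_le_iff₀ hκ0] at h4
    linarith
  have hV2 := V_pos (z0 (x + y))
  have d5 : 1 - κ ≤ V (z0 (x + y)) * L := by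
    have e2 : V (z0 (x + y)) * Real.log ((x + y : ℕ) : ℝ) ≤ V (z0 (x + y)) * (L + κ / 2 * L) := by gcongr
    have e3 : 1 - κ / 2 < (1 + κ / 2) * (V (z0 (x + y)) * L) := by linarith
    by_contra hcon
    push Not at hcon
    have e4 : (1 + κ / 2) * (V (z0 (x + y)) * L) ≤ (1 + κ / 2) * (1 - κ) :=
      mul_le_mul_of_nonneg_left hcon.le (by linarith)
    nlinarith
  have d6 : V (z0 (x + y)) * L ≤ 1 + κ := by
    have e2 : V (z0 (x + y)) ≤ V (z0 x) := V_anti (z0_mono (by omega))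
    have e3 : V (z0 (x + y)) * L ≤ V (z0 x) * L := by gcongr
    linarith
  have hy0 : (0 : ℝ) ≤ y := Nat.cast_nonneg y
  have hcκ : (C + 2) * κ * y ≤ ε * y := by
    apply mul_le_mul_of_nonneg_right _ hy0
    have : 0 ≤ (C + 2) * κ := by positivity
    linarith
  have hκy : 0 ≤ κ * y := by positivity
  rw [abs_le]
  constructor
  · -- lower bound
    have e2 : (m - κ * y) * (V (z0 (x + y)) * L) ≤ cR * L := by
      have : (m - κ * y) * V (z0 (x + y)) ≤ cR := by linarith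
      calc (m - κ * y) * (V (z0 (x + y)) * L) = ((m - κ * y) * V (z0 (x + y))) * L := by ring
        _ ≤ cR * L := by gcongr
    have e3 : m - κ * m - 2 * κ * y ≤ (m - κ * y) * (V (z0 (x + y)) * L) := by
      have e4 : m * (1 - κ) ≤ m * (V (z0 (x + y)) * L) := by gcongr
      have e5 : κ * y * (V (z0 (x + y)) * L) ≤ κ * y * 2 := by
        apply mul_le_mul_of_nonneg_left _ hκy
        linarith
      have e6 : (m - κ * y) * (V (z0 (x + y)) * L) = m * (V (z0 (x + y)) * L) - κ * y * (V (z0 (x + y)) * L) := by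
        ring
      rw [e6]
      linarith
    have e4 : κ * m ≤ κ * (C * y) := by gcongr
    linarith
  · have hV1 := V_pos (z0 x)
    have e2 : cR * L ≤ (m + κ * y) * (V (z0 x) * L) := by
      have : cR ≤ (m + κ * y) * V (z0 x) := by linarith
      calc cR * L ≤ ((m + κ * y) * V (z0 x)) * L := by gcongr
        _ = _ := by ring
    have e3 : (m + κ * y) * (V (z0 x) * L) ≤ (m + κ * y) * (1 + κ) := by
      apply mul_le_mul_of_nonneg_left d2.le (by positivity)
    have e4 : κ * m ≤ κ * (C * y) := by gcongr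
    have e5 : κ * y * κ ≤ κ * y * 1 := mul_le_mul_of_nonneg_left hκ1 hκy
    linarith

end Pool.Agent.H531.MS
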