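import Pool.Agent.H531.SI.Fin

set_option autoImplicit false

/-!
# Sieving a set by random classes: exponential moments
-/

open Finset MeasureTheory ProbabilityTheory Filter Topology

namespace Pool.Agent.H531.MS

open Pool.Agent.T2H31.HV Pool.Agent.T2H32.BF Pool.Agent.H531.SI

open Classical in
theorem card_update (T L : Finset ℕ) (p : ℕ) (hp : p ∉ L) (b : ℕ → ℕ) (r : ℕ) :
    ((Sw T (insert p L) (Function.update b p r)).card : ℝ) =
      (Sw T L b).card - ((Sw T L b).filter fun t => t % p = r).card := by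
  have hnew : Sw T (insert p L) (Function.update b p r) = (Sw T L b).filter fun t => ¬ t % p = r := by
    ext t
    unfold Sw
    rw [mem_filter, mem_filter, mem_filter]
    constructor
    · rintro ⟨h1, h2⟩
      refine ⟨⟨h1, fun q hq => ?_⟩, ?_⟩
      · have := h2 q (mem_insert_of_mem hq)
        rwa [Function.update_of_ne (fun h : q = p => hp (h ▸ hq))] at this
      · have := h2 p (mem_insert_self _ _)
        rwa [Function.update_self] at this
    · rintro ⟨⟨h1, h2⟩, h3⟩
      refine ⟨h1, fun q hq => ?_⟩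
      rcases mem_insert.1 hq with rfl | hq
      · rwa [Function.update_self]
      · rw [Function.update_of_ne (fun h : q = p => hp (h ▸ hq))]
        exact h2 q hq
  rw [hnew]
  have h1 := card_filter_add_card_filter_not (s := Sw T L b) (fun t => t % p = r)
  have h2 : (((Sw T L b).filter fun t => t % p = r).card : ℝ) +
      ((Sw T L b).filter fun t => ¬ t % p = r).card = (Sw T L b).card := by exact_mod_cast h1
  linarith

theorem sum_class (U : Finset ℕ) (p : ℕ) (hp : 0 < p) :
    ∑ r ∈ range p, ((U.filter fun t => t % p = r).card : ℝ) = U.card := by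
  have h := card_eq_sum_card_fiberwise (s := U) (t := range p) (f := fun t => t % p)
    (fun t _ => mem_coe.2 (mem_range.2 (Nat.mod_lt _ hp)))
  rw [h]
  push_cast
  rfl

/-- **Exponential moments, classes with at most `K p` elements.** -/
theorem expmom_gen (T L : Finset ℕ) (K : ℕ → ℝ) (hL : ∀ p ∈ L, p.Prime)
    (hK : ∀ p ∈ L, ∀ r, ((T.filter fun t => t % p = r).card : ℝ) ≤ K p) (l : ℝ) (hl : ∀ p ∈ L, |l| * K p ≤ 1) :
    Ev L (fun b => Real.exp (l * (Sw T L b).card)) ≤
      Real.exp (T.card * (l * ∏ p ∈ L, (1 - 1 / (p : ℝ)) + l ^ 2 * ∑ p ∈ L, K p / p)) := by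
  classical
  induction L using Finset.induction_on generalizing l with
  | empty => simp [Ev_empty, Sw_empty, mul_comm]
  | insert p L hp ih =>
    have hpp := hL p (mem_insert_self _ _)
    have hp2 : (2 : ℝ) ≤ p := by exact_mod_cast hpp.two_le
    have hp0 : (0 : ℝ) < p := by linarith
    have hKp := hl p (mem_insert_self _ _)
    have hK0 : ∀ q ∈ insert p L, 0 ≤ K q := fun q hq => (Nat.cast_nonneg _).trans (hK q hq 0)
    have hKp0 := hK0 p (mem_insert_self _ _)
    have hlK : -1 ≤ l * K p ∧ l * K p ≤ 1 := by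
      rw [← abs_le, abs_mul, abs_of_nonneg hKp0]
      exact hKp
    set l1 := l * (1 - 1 / p) + l ^ 2 * (K p / p) with hl1
    have hl1f : l1 = l * (1 - (1 - l * K p) / p) := by
      rw [hl1]
      field_simp
      ring
    have hfac : 0 ≤ 1 - (1 - l * K p) / p ∧ 1 - (1 - l * K p) / p ≤ 1 := by
      have h1 : (1 - l * K p) / p ≤ 1 := by
        rw [div_le_one hp0]
        linarith
      have h2 : 0 ≤ (1 - l * K p) / p := div_nonneg (by linarith) hp0.le
      exact ⟨by linarith, by linarith⟩
    have habs : |l1| ≤ |l| := by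
      rw [hl1f, abs_mul, abs_of_nonneg hfac.1]
      exact mul_le_of_le_one_right (abs_nonneg l) hfac.2
    have hstep : ∀ b, (1 / (p : ℝ)) * ∑ r ∈ range p, Real.exp (l * (Sw T (insert p L) (Function.update b p r)).card) ≤
        Real.exp (l1 * (Sw T L b).card) := by
      intro b
      set U := Sw T L b with hU
      have hUT : U ⊆ T := by
        rw [hU]
        exact filter_subset _ _
      set c : ℕ → ℝ := fun r => ((U.filter fun t => t % p = r).card : ℝ) with hc
      have hc0 : ∀ r, 0 ≤ c r := fun r => Nat.cast_nonneg _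
      have hcK : ∀ r, c r ≤ K p := by
        intro r
        refine le_trans ?_ (hK p (mem_insert_self _ _) r)
        have : (U.filter fun t => t % p = r).card ≤ (T.filter fun t => t % p = r).card :=
          card_le_card (filter_subset_filter _ hUT)
        simp only [hc]
        exact_mod_cast this
      have h1 : ∀ r, Real.exp (l * (Sw T (insert p L) (Function.update b p r)).card) ≤
          Real.exp (l * U.card) * (1 + (-l + l ^ 2 * K p) * c r) := by
        intro r
        rw [card_update T L p hp b r, mul_sub, Real.exp_sub, div_eq_mul_inv, ← Real.exp_neg]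
        apply mul_le_mul_of_nonneg_left _ (Real.exp_pos _).le
        have h2 : |-(l * c r)| ≤ 1 := by
          rw [abs_neg, abs_mul, abs_of_nonneg (hc0 r)]
          exact (mul_le_mul_of_nonneg_left (hcK r) (abs_nonneg l)).trans hKp
        have h3 := exp_quad (-(l * c r)) h2
        have h4 : (-(l * c r)) ^ 2 ≤ l ^ 2 * K p * c r := by
          have : (-(l * c r)) ^ 2 = l ^ 2 * (c r * c r) := by ring
          rw [this, mul_assoc]
          apply mul_le_mul_of_nonneg_left _ (sq_nonneg l)
          exact mul_le_mul_of_nonneg_right (hcK r) (hc0 r)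
        have e : l * (((Sw T L b).filter fun t => t % p = r).card : ℝ) = l * c r := rfl
        linarith
      have h2 : ∑ r ∈ range p, Real.exp (l * (Sw T (insert p L) (Function.update b p r)).card) ≤
          Real.exp (l * U.card) * (p + (-l + l ^ 2 * K p) * U.card) := by
        refine (sum_le_sum fun r _ => h1 r).trans_eq ?_
        rw [← mul_sum, sum_add_distrib, ← mul_sum, sum_class U p hpp.pos]
        simp
      calc (1 / (p : ℝ)) * ∑ r ∈ range p, Real.exp (l * (Sw T (insert p L) (Function.update b p r)).card)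
          ≤ (1 / (p : ℝ)) * (Real.exp (l * U.card) * (p + (-l + l ^ 2 * K p) * U.card)) := by
            apply mul_le_mul_of_nonneg_left h2 (by positivity)
        _ = Real.exp (l * U.card) * ((-l + l ^ 2 * K p) / p * U.card + 1) := by
            field_simp
            ring
        _ ≤ Real.exp (l * U.card) * Real.exp ((-l + l ^ 2 * K p) / p * U.card) := by
            apply mul_le_mul_of_nonneg_left (Real.add_one_le_exp _) (Real.exp_pos _).le
        _ = Real.exp (l1 * U.card) := by
            rw [← Real.exp_add]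
            congr 1
            rw [hl1]
            field_simp
            ring
    rw [Ev_insert L p hp]
    refine (Ev_mono L _ _ fun b _ => hstep b).trans ?_
    refine (ih (fun q hq => hL q (mem_insert_of_mem hq)) (fun q hq => hK q (mem_insert_of_mem hq)) l1
      fun q hq => ?_).trans ?_
    · have := hl q (mem_insert_of_mem hq)
      exact (mul_le_mul_of_nonneg_right habs (hK0 q (mem_insert_of_mem hq))).trans this
    apply Real.exp_le_exp.2
    apply mul_le_mul_of_nonneg_left _ (by positivity)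
    rw [prod_insert hp, sum_insert hp]
    set ρ := ∏ p ∈ L, (1 - 1 / (p : ℝ)) with hρ
    set H := ∑ p ∈ L, K p / (p : ℝ) with hH
    have hH0 : 0 ≤ H := sum_nonneg fun q hq => div_nonneg (hK0 q (mem_insert_of_mem hq)) (Nat.cast_nonneg _)
    have hρ0 : 0 ≤ ρ ∧ ρ ≤ 1 := by
      have h3 : ∀ q ∈ L, 0 ≤ 1 - 1 / (q : ℝ) ∧ 1 - 1 / (q : ℝ) ≤ 1 := by
        intro q hq
        have h4 : (2 : ℝ) ≤ q := by exact_mod_cast (hL q (mem_insert_of_mem hq)).two_le
        have h5 : 1 / (q : ℝ) ≤ 1 := by
          rw [div_le_one (by linarith)]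
          linarith
        have h6 : 0 ≤ 1 / (q : ℝ) := by positivity
        exact ⟨by linarith, by linarith⟩
      exact ⟨prod_nonneg fun q hq => (h3 q hq).1, prod_le_one (fun q hq => (h3 q hq).1) fun q hq => (h3 q hq).2⟩
    have h4 : l1 ^ 2 ≤ l ^ 2 := sq_le_sq.2 habs
    have h5 : 0 ≤ l ^ 2 * (K p / (p : ℝ)) := by positivity
    have h6 : l ^ 2 * (K p / p) * ρ ≤ l ^ 2 * (K p / p) := mul_le_of_le_one_right h5 hρ0.2
    have h7 : l1 ^ 2 * H ≤ l ^ 2 * H := mul_le_mul_of_nonneg_right h4 hH0
    calc l1 * ρ + l1 ^ 2 * H = l * ((1 - 1 / p) * ρ) + l ^ 2 * (K p / p) * ρ + l1 ^ 2 * H := by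
          rw [hl1]
          ring
      _ ≤ l * ((1 - 1 / p) * ρ) + l ^ 2 * (K p / p + H) := by linarith

/-- **Domination by the binomial distribution.** -/
theorem binom_dom (T L : Finset ℕ) (hL : ∀ p ∈ L, p.Prime) (hsep : SI.Sep T L) (t : ℝ) (ht : 0 < t) :
    Ev L (fun b => t ^ (Sw T L b).card) ≤ (1 + (t - 1) * ∏ p ∈ L, (1 - 1 / (p : ℝ))) ^ T.card := by
  classical
  induction L using Finset.induction_on generalizing t with
  | empty =>
    simp [Ev_empty, Sw_empty]
  | insert p L hp ih =>
    have hpp := hL p (mem_insert_self _ _)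
    have hp2 : (2 : ℝ) ≤ p := by exact_mod_cast hpp.two_le
    have hp0 : (0 : ℝ) < p := by linarith
    have hLsep := Sep_mono hsep (subset_insert p L)
    set s := 1 + (t - 1) * (1 - 1 / (p : ℝ)) with hs
    have h1p : 1 / (p : ℝ) ≤ 1 / 2 := by gcongr
    have hs0 : 0 < s := by
      rw [hs]
      have h2 : 0 < 1 - 1 / (p : ℝ) := by linarith
      have h3 : 0 < 1 / (p : ℝ) := by positivity
      nlinarith
    have hstep : ∀ b, (1 - (Sw T L b).card / (p : ℝ)) * t ^ (Sw T L b).card +
        (Sw T L b).card / (p : ℝ) * t ^ ((Sw T L b).card - 1) ≤ s ^ (Sw T L b).card := by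
      intro b
      set n : ℕ := (Sw T L b).card with hn
      rcases Nat.eq_zero_or_pos n with h | h
      · simp [h]
      · have e1 : (t : ℝ) ^ n = t * t ^ (n - 1) := by
          rw [← pow_succ']
          congr 1
          omega
        have e2 : (1 - n / (p : ℝ)) * t ^ n + n / (p : ℝ) * t ^ (n - 1) = t ^ n * (1 + n * (s / t - 1)) := by
          rw [e1, hs]
          field_simp
          ring
        rw [e2]
        have h2 : 1 + (n : ℝ) * (s / t - 1) ≤ (1 + (s / t - 1)) ^ n := by
          apply one_add_mul_le_pow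
          have : 0 < s / t := by positivity
          linarith
        have e3 : t ^ n * (1 + (s / t - 1)) ^ n = s ^ n := by
          rw [← mul_pow]
          congr 1
          field_simp
          ring
        calc t ^ n * (1 + n * (s / t - 1)) ≤ t ^ n * (1 + (s / t - 1)) ^ n := by
              apply mul_le_mul_of_nonneg_left h2 (by positivity)
          _ = s ^ n := e3
    rw [Ev_step T L p hp hpp.pos hsep (fun n => t ^ n)]
    refine (Ev_mono L _ _ fun b _ => hstep b).trans ?_
    refine (ih (fun q hq => hL q (mem_insert_of_mem hq)) hLsep s hs0).trans_eq ?_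
    rw [prod_insert hp, hs]
    congr 1
    ring

section prob

variable {Ω : Type} [MeasurableSpace Ω] {P : Measure Ω} {a : ℕ → Ω → ℕ}

theorem markov (h : Model P a) (L : Finset ℕ) (hL : ∀ p ∈ L, p.Prime) (F : (ℕ → ℕ) → ℝ) (hF : ∀ b, 0 ≤ F b)
    (hdep : Dep L F) (t : ℝ) (ht : 0 < t) : P.real {ω | t ≤ F fun q => a q ω} ≤ Ev L F / t := by
  have := prob h
  obtain ⟨hi, hi2⟩ := T_TR Ω P a h L F hL hdep
  have hmark := mul_meas_ge_le_integral_of_nonneg (μ := P) (f := fun ω => F fun q => a q ω)
    (Eventually.of_forall fun ω => hF _) hi t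
  rw [hi2] at hmark
  rw [le_div_iff₀ ht, mul_comm]
  exact hmark

theorem Sw_dep (T L : Finset ℕ) (φ : ℕ → ℝ) : Dep L fun b => φ (Sw T L b).card := by
  classical
  intro b b' hb
  have : Sw T L b = Sw T L b' := by
    unfold Sw
    refine filter_congr fun t _ => forall_congr' fun p => forall_congr' fun hp => ?_
    rw [hb p hp]
  simp only [this]

/-- concentration from exponential moments -/
theorem chern (h : Model P a) (T L : Finset ℕ) (hL : ∀ p ∈ L, p.Prime) (m v t l : ℝ)
    (h1 : Ev L (fun b => Real.exp (l * (Sw T L b).card)) ≤ Real.exp (l * m + v))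
    (h2 : Ev L (fun b => Real.exp (-l * (Sw T L b).card)) ≤ Real.exp (-l * m + v)) (hl : 0 ≤ l) :
    P.real {ω | t ≤ |((Sw T L fun q => a q ω).card : ℝ) - m|} ≤ 2 * Real.exp (v - l * t) := by
  have := prob h
  have e1 := markov h L hL (fun b => Real.exp (l * (Sw T L b).card)) (fun b => (Real.exp_pos _).le)
    (Sw_dep T L fun n => Real.exp (l * n)) (Real.exp (l * (m + t))) (Real.exp_pos _)
  have e2 := markov h L hL (fun b => Real.exp (-l * (Sw T L b).card)) (fun b => (Real.exp_pos _).le)
    (Sw_dep T L fun n => Real.exp (-l * n)) (Real.exp (-l * (m - t))) (Real.exp_pos _)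
  have e3 : Ev L (fun b => Real.exp (l * (Sw T L b).card)) / Real.exp (l * (m + t)) ≤ Real.exp (v - l * t) := by
    rw [div_le_iff₀ (Real.exp_pos _), ← Real.exp_add]
    refine h1.trans (Real.exp_le_exp.2 (le_of_eq ?_))
    ring
  have e4 : Ev L (fun b => Real.exp (-l * (Sw T L b).card)) / Real.exp (-l * (m - t)) ≤ Real.exp (v - l * t) := by
    rw [div_le_iff₀ (Real.exp_pos _), ← Real.exp_add]
    refine h2.trans (Real.exp_le_exp.2 (le_of_eq ?_))
    ring
  have hsub : {ω | t ≤ |((Sw T L fun q => a q ω).card : ℝ) - m|} ⊆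
      {ω | Real.exp (l * (m + t)) ≤ Real.exp (l * (Sw T L fun q => a q ω).card)} ∪
        {ω | Real.exp (-l * (m - t)) ≤ Real.exp (-l * (Sw T L fun q => a q ω).card)} := by
    intro ω hω
    simp only [Set.mem_union, Set.mem_ofPred_eq, Real.exp_le_exp] at hω ⊢
    rcases le_abs.1 hω with h3 | h3
    · left
      apply mul_le_mul_of_nonneg_left _ hl
      linarith
    · right
      have : l * ((Sw T L fun q => a q ω).card : ℝ) ≤ l * (m - t) := by
        apply mul_le_mul_of_nonneg_left _ hl
        linarith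
      linarith
  calc P.real {ω | t ≤ |((Sw T L fun q => a q ω).card : ℝ) - m|} ≤ _ := measureReal_mono hsub (measure_ne_top _ _)
    _ ≤ _ + _ := measureReal_union_le _ _
    _ ≤ Real.exp (v - l * t) + Real.exp (v - l * t) := add_le_add (e1.trans e3) (e2.trans e4)
    _ = _ := by ring

theorem conc1 (h : Model P a) (T L : Finset ℕ) (K : ℕ → ℝ) (hL : ∀ p ∈ L, p.Prime)
    (hK : ∀ p ∈ L, ∀ r, ((T.filter fun t => t % p = r).card : ℝ) ≤ K p) (l t : ℝ) (hl0 : 0 ≤ l)
    (hl : ∀ p ∈ L, l * K p ≤ 1) :
    P.real {ω | t ≤ |((Sw T L fun q => a q ω).card : ℝ) - T.card * ∏ p ∈ L, (1 - 1 / (p : ℝ))|} ≤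
      2 * Real.exp (l ^ 2 * (T.card * ∑ p ∈ L, K p / p) - l * t) := by
  refine chern h T L hL _ _ t l ?_ ?_ hl0
  · refine (expmom_gen T L K hL hK l (by rwa [abs_of_nonneg hl0])).trans (Real.exp_le_exp.2 (le_of_eq ?_))
    ring
  · refine (expmom_gen T L K hL hK (-l) (by rwa [abs_neg, abs_of_nonneg hl0])).trans
      (Real.exp_le_exp.2 (le_of_eq ?_))
    ring

theorem conc2 (h : Model P a) (T L : Finset ℕ) (hL : ∀ p ∈ L, p.Prime) (hsep : SI.Sep T L) (l t : ℝ) (hl0 : 0 ≤ l)
    (hl : l ≤ 1) :
    P.real {ω | t ≤ |((Sw T L fun q => a q ω).card : ℝ) - T.card * ∏ p ∈ L, (1 - 1 / (p : ℝ))|} ≤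
      2 * Real.exp (l ^ 2 * (T.card * ∏ p ∈ L, (1 - 1 / (p : ℝ))) - l * t) := by
  set ρ := ∏ p ∈ L, (1 - 1 / (p : ℝ)) with hρ
  have hρ0 : 0 ≤ ρ := prod_nonneg fun q hq => by
    have h4 : (2 : ℝ) ≤ q := by exact_mod_cast (hL q hq).two_le
    have h5 : 1 / (q : ℝ) ≤ 1 := by
      rw [div_le_one (by linarith)]
      linarith
    linarith
  have hρ1 : ρ ≤ 1 := prod_le_one (fun q hq => by
    have h4 : (2 : ℝ) ≤ q := by exact_mod_cast (hL q hq).two_le
    have h5 : 1 / (q : ℝ) ≤ 1 := by
      rw [div_le_one (by linarith)]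
      linarith
    linarith) fun q _ => by
      have : 0 ≤ 1 / (q : ℝ) := by positivity
      linarith
  have key : ∀ l : ℝ, |l| ≤ 1 → Ev L (fun b => Real.exp (l * (Sw T L b).card)) ≤
      Real.exp (l * (T.card * ρ) + l ^ 2 * (T.card * ρ)) := by
    intro l hl
    have e : (fun b : ℕ → ℕ => Real.exp (l * (Sw T L b).card)) = fun b => Real.exp l ^ (Sw T L b).card := by
      funext b
      rw [← Real.exp_nat_mul, mul_comm]
    rw [e]
    refine (binom_dom T L hL hsep _ (Real.exp_pos l)).trans ?_
    rw [← hρ]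
    have h1 := exp_quad l hl
    have h2 : 1 + (Real.exp l - 1) * ρ ≤ Real.exp ((l + l ^ 2) * ρ) := by
      have h3 := Real.add_one_le_exp ((l + l ^ 2) * ρ)
      have h4 : (Real.exp l - 1) * ρ ≤ (l + l ^ 2) * ρ := mul_le_mul_of_nonneg_right (by linarith) hρ0
      linarith
    have h5 : 0 ≤ 1 + (Real.exp l - 1) * ρ := by
      have := Real.exp_pos l
      nlinarith
    calc (1 + (Real.exp l - 1) * ρ) ^ T.card ≤ Real.exp ((l + l ^ 2) * ρ) ^ T.card := pow_le_pow_left₀ h5 h2 _
      _ = _ := by
        rw [← Real.exp_nat_mul]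
        congr 1
        ring
  refine chern h T L hL _ _ t l ?_ ?_ hl0
  · exact key l (by rwa [abs_of_nonneg hl0])
  · have := key (-l) (by rwa [abs_neg, abs_of_nonneg hl0])
    rwa [neg_sq] at this

end prob

end Pool.Agent.H531.MS
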