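import Pool.Agent.H531.MS.Det

set_option autoImplicit false

/-!
# Lower and upper limits
-/

open Finset Filter Topology
open scoped ENNReal

namespace Pool.Agent.H531.MS

open Pool.Agent.T2H31.HV Pool.Agent.T2H32.BF

theorem exists_eps (c c' : NNReal) (h : c < c') : ∃ ε : ℝ, 0 < ε ∧ (1 + ε) * (c : ℝ) + ε ≤ c' := by
  have h1 : (c : ℝ) < c' := by exact_mod_cast h
  have h0 : (0 : ℝ) ≤ c := c.2
  refine ⟨((c' : ℝ) - c) / (1 + c), by
    apply div_pos (by linarith) (by linarith), ?_⟩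
  have e : (1 + ((c' : ℝ) - c) / (1 + c)) * (c : ℝ) + ((c' : ℝ) - c) / (1 + c) = c' := by
    field_simp
    ring
  rw [e]

theorem sup_lim {F : ℝ → ℝ} {G : ℕ → ℕ → ℝ}
    (h : ∀ ε : ℝ, 0 < ε → ∀ N : ℕ, ∀ᶠ x : ℝ in atTop, ∃ u ≥ N, ∃ x' : ℕ, F x ≤ (1 + ε) * G u x' + ε) :
    limsup (fun x : ℝ => ENNReal.ofReal (F x)) atTop ≤
      limsup (fun u : ℕ => ⨆ x : ℕ, ENNReal.ofReal (G u x)) atTop := by
  by_contra hcon
  push Not at hcon
  obtain ⟨c, hc1, hc2⟩ := ENNReal.lt_iff_exists_nnreal_btwn.1 hcon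
  obtain ⟨c', hc3, hc4⟩ := ENNReal.lt_iff_exists_nnreal_btwn.1 hc2
  obtain ⟨ε, hε, he⟩ := exists_eps c c' (by exact_mod_cast hc3)
  obtain ⟨N, hN⟩ := eventually_atTop.1 (eventually_lt_of_limsup_lt hc1)
  refine not_le.2 hc4 (limsup_le_of_le (by isBoundedDefault) ?_)
  filter_upwards [h ε hε N] with x hx
  obtain ⟨u, hu, x', hx'⟩ := hx
  have h1 : ENNReal.ofReal (G u x') ≤ c := (le_iSup (fun x : ℕ => ENNReal.ofReal (G u x)) x').trans (hN u hu).le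
  have h2 : G u x' ≤ c := by
    rw [ENNReal.ofReal_le_iff_le_toReal (by simp)] at h1
    simpa using h1
  rw [ENNReal.ofReal_le_iff_le_toReal (by simp)]
  simp only [ENNReal.coe_toReal]
  have h3 : (1 + ε) * G u x' ≤ (1 + ε) * c := by gcongr
  linarith

theorem inf_lim {F : ℝ → ℝ} {G : ℕ → ℕ → ℝ}
    (h : ∀ ε : ℝ, 0 < ε → ∀ N : ℕ, ∀ᶠ x : ℝ in atTop, ∃ u ≥ N, ∃ x' : ℕ, G u x' ≤ (1 + ε) * F x + ε) :
    liminf (fun u : ℕ => ⨅ x : ℕ, ENNReal.ofReal (G u x)) atTop ≤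
      liminf (fun x : ℝ => ENNReal.ofReal (F x)) atTop := by
  by_contra hcon
  push Not at hcon
  obtain ⟨c, hc1, hc2⟩ := ENNReal.lt_iff_exists_nnreal_btwn.1 hcon
  obtain ⟨c', hc3, hc4⟩ := ENNReal.lt_iff_exists_nnreal_btwn.1 hc2
  obtain ⟨ε, hε, he⟩ := exists_eps c c' (by exact_mod_cast hc3)
  obtain ⟨N, hN⟩ := eventually_atTop.1 (eventually_lt_of_lt_liminf hc4)
  refine not_le.2 hc1 (le_liminf_of_le (by isBoundedDefault) ?_)
  filter_upwards [h ε hε N] with x hx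
  obtain ⟨u, hu, x', hx'⟩ := hx
  have h1 : (c' : ℝ≥0∞) ≤ ENNReal.ofReal (G u x') := (hN u hu).le.trans (iInf_le _ x')
  have h2 : (c' : ℝ) ≤ G u x' := by
    by_contra hneg
    push Not at hneg
    have hpos : 0 < (c' : ℝ) := by
      have h0 : (0 : ℝ) ≤ c := c.2
      have : (c : ℝ) < c' := by exact_mod_cast hc3
      linarith
    have : ENNReal.ofReal (G u x') < c' := by
      rw [← ENNReal.ofReal_coe_nnreal]
      exact (ENNReal.ofReal_lt_ofReal_iff hpos).2 hneg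
    exact absurd h1 (not_le.2 this)
  have h3 : (c : ℝ) ≤ F x := by
    have : (1 + ε) * (c : ℝ) ≤ (1 + ε) * F x := by linarith
    exact le_of_mul_le_mul_left this (by linarith)
  rw [← ENNReal.ofReal_coe_nnreal]
  exact ENNReal.ofReal_le_ofReal h3

theorem sup_att {F : ℝ → ℝ} {G : ℕ → ℕ → ℝ}
    (h : ∀ ε : ℝ, 0 < ε → ∀ᶠ u : ℕ in atTop, ∀ x' : ℕ, ∃ x : ℝ, (u : ℝ) ≤ x ∧ G u x' ≤ (1 + ε) * F x + ε) :
    limsup (fun u : ℕ => ⨆ x : ℕ, ENNReal.ofReal (G u x)) atTop ≤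
      limsup (fun x : ℝ => ENNReal.ofReal (F x)) atTop := by
  by_contra hcon
  push Not at hcon
  obtain ⟨c, hc1, hc2⟩ := ENNReal.lt_iff_exists_nnreal_btwn.1 hcon
  obtain ⟨c', hc3, hc4⟩ := ENNReal.lt_iff_exists_nnreal_btwn.1 hc2
  obtain ⟨ε, hε, he⟩ := exists_eps c c' (by exact_mod_cast hc3)
  have hfr := frequently_lt_of_lt_limsup (by isBoundedDefault) hc4
  refine not_le.2 hc1 (le_limsup_of_frequently_le ?_ (by isBoundedDefault))
  rw [frequently_atTop]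
  intro b
  obtain ⟨N, hN⟩ := exists_nat_ge b
  obtain ⟨u, ⟨hu1, hu2⟩, hu3⟩ := ((hfr.and_eventually (h ε hε)).and_eventually (eventually_ge_atTop N)).exists
  obtain ⟨x', hx'⟩ := lt_iSup_iff.1 hu1
  obtain ⟨x, hx1, hx2⟩ := hu2 x'
  refine ⟨x, ?_, ?_⟩
  · have : (N : ℝ) ≤ u := by exact_mod_cast hu3
    linarith
  have h2 : (c' : ℝ) ≤ G u x' := by
    by_contra hneg
    push Not at hneg
    have hpos : 0 < (c' : ℝ) := by
      have h0 : (0 : ℝ) ≤ c := c.2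
      have : (c : ℝ) < c' := by exact_mod_cast hc3
      linarith
    have : ENNReal.ofReal (G u x') < c' := by
      rw [← ENNReal.ofReal_coe_nnreal]
      exact (ENNReal.ofReal_lt_ofReal_iff hpos).2 hneg
    exact absurd hx' (not_lt.2 this.le)
  have h3 : (c : ℝ) ≤ F x := by
    have : (1 + ε) * (c : ℝ) ≤ (1 + ε) * F x := by linarith
    exact le_of_mul_le_mul_left this (by linarith)
  rw [← ENNReal.ofReal_coe_nnreal]
  exact ENNReal.ofReal_le_ofReal h3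

theorem inf_att {F : ℝ → ℝ} {G : ℕ → ℕ → ℝ}
    (h : ∀ ε : ℝ, 0 < ε → ∀ᶠ u : ℕ in atTop, ∀ x' : ℕ, ∃ x : ℝ, (u : ℝ) ≤ x ∧ F x ≤ (1 + ε) * G u x' + ε) :
    liminf (fun x : ℝ => ENNReal.ofReal (F x)) atTop ≤
      liminf (fun u : ℕ => ⨅ x : ℕ, ENNReal.ofReal (G u x)) atTop := by
  by_contra hcon
  push Not at hcon
  obtain ⟨c, hc1, hc2⟩ := ENNReal.lt_iff_exists_nnreal_btwn.1 hcon
  obtain ⟨c', hc3, hc4⟩ := ENNReal.lt_iff_exists_nnreal_btwn.1 hc2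
  obtain ⟨ε, hε, he⟩ := exists_eps c c' (by exact_mod_cast hc3)
  have hfr := frequently_lt_of_liminf_lt (by isBoundedDefault) hc1
  refine not_le.2 hc4 (liminf_le_of_frequently_le ?_ (by isBoundedDefault))
  rw [frequently_atTop]
  intro b
  obtain ⟨N, hN⟩ := exists_nat_ge b
  obtain ⟨u, ⟨hu1, hu2⟩, hu3⟩ := ((hfr.and_eventually (h ε hε)).and_eventually (eventually_ge_atTop N)).exists
  obtain ⟨x', hx'⟩ := iInf_lt_iff.1 hu1
  obtain ⟨x, hx1, hx2⟩ := hu2 x'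
  refine ⟨x, ?_, ?_⟩
  · have : (N : ℝ) ≤ u := by exact_mod_cast hu3
    linarith
  have h2 : G u x' ≤ c := by
    have h1 := hx'.le
    rw [ENNReal.ofReal_le_iff_le_toReal (by simp)] at h1
    simpa using h1
  rw [ENNReal.ofReal_le_iff_le_toReal (by simp)]
  simp only [ENNReal.coe_toReal]
  have h3 : (1 + ε) * G u x' ≤ (1 + ε) * c := by gcongr
  linarith

end Pool.Agent.H531.MS
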