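import Pool.Agent.H531.MS.Bft

set_option autoImplicit false

/-!
# Short windows: gaps
-/

open Finset MeasureTheory ProbabilityTheory Filter Topology
open scoped ENNReal

namespace Pool.Agent.H531.MS

open Pool.Agent.T2H31.HV Pool.Agent.H531.SI
open Pool.Agent.T2H32.BF (V V_pos V_anti V_ratio z0 z0_mono z0_lim z0_top R Model pr gp NN NN_fin main_all expg)

theorem low {b : ℕ → ℕ} (hinf : (R z0 b).Infinite)
    (hN : ∀ᶠ X : ℕ in atTop, (X : ℝ) ^ (1 / 20 : ℝ) ≤ NN z0 b 1 X) {a : ℝ} (ha : a ≤ 2) :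
    liminf (fun x : ℝ => ENNReal.ofReal (Rr (R z0 b) a x)) atTop = 0 := by
  classical
  have hsm : StrictMono (pr z0 b) := Nat.nth_strictMono hinf
  -- infinitely many long gaps
  have h1 : {n | 1 * Real.log (pr z0 b n) ^ 2 ≤ gp z0 b n}.Infinite := by
    intro hfin
    set C := hfin.toFinset.card with hC
    have h2 : ∀ X : ℕ, NN z0 b 1 X ≤ C := by
      intro X
      unfold NN
      rw [hC, ← Set.ncard_eq_toFinset_card _ hfin]
      exact Set.ncard_le_ncard (fun n hn => hn.1) hfin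
    have h3 : Tendsto (fun X : ℕ => (X : ℝ) ^ (1 / 20 : ℝ)) atTop atTop :=
      (tendsto_rpow_atTop (by norm_num)).comp tendsto_natCast_atTop_atTop
    obtain ⟨X, h4, h5⟩ := (hN.and (h3.eventually_ge_atTop ((C : ℝ) + 1))).exists
    have h6 : (NN z0 b 1 X : ℝ) ≤ C := by exact_mod_cast h2 X
    linarith
  have h2 : ∃ᶠ x : ℝ in atTop, ENNReal.ofReal (Rr (R z0 b) a x) ≤ 0 := by
    rw [frequently_atTop]
    intro M
    obtain ⟨n, hn, hMn⟩ := h1.exists_gt ⌈max M 3⌉₊
    have h3 : n ≤ pr z0 b n := hsm.id_le n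
    have h4 : max M 3 < pr z0 b n := by
      have e1 := Nat.le_ceil (max M 3)
      have e2 : ((⌈max M 3⌉₊ : ℕ) : ℝ) < n := by exact_mod_cast hMn
      have e3 : (n : ℝ) ≤ pr z0 b n := by exact_mod_cast h3
      linarith
    have h5 : M < pr z0 b n := (le_max_left _ _).trans_lt h4
    have h6 : (3 : ℝ) < pr z0 b n := (le_max_right _ _).trans_lt h4
    refine ⟨(pr z0 b n : ℝ), h5.le, ?_⟩
    have hl1 : 1 ≤ Real.log (pr z0 b n) := by
      rw [Real.le_log_iff_exp_le (by linarith)]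
      have := Real.exp_one_lt_d9
      linarith
    have hle : Real.log (pr z0 b n) ^ a ≤ Real.log (pr z0 b n) ^ 2 := by
      rw [← Real.rpow_natCast]
      exact Real.rpow_le_rpow_of_exponent_le hl1 (by exact_mod_cast ha)
    have hgp : 1 * Real.log (pr z0 b n) ^ 2 ≤ gp z0 b n := hn
    unfold gp at hgp
    have hempty : R z0 b ∩ {m : ℕ | (pr z0 b n : ℝ) < m ∧
        (m : ℝ) ≤ pr z0 b n + Real.log (pr z0 b n) ^ a} = ∅ := by
      rw [Set.eq_empty_iff_forall_notMem]
      rintro m ⟨hm, hm1, hm2⟩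
      have hm1' : pr z0 b n < m := by exact_mod_cast hm1
      have hm3 : (m : ℝ) < pr z0 b (n + 1) := by linarith
      have hm3' : m < pr z0 b (n + 1) := by exact_mod_cast hm3
      -- no element strictly between
      obtain ⟨k, hk⟩ : ∃ k, pr z0 b k = m := by
        have := Nat.exists_lt_card_nth_eq (p := fun k => k ∈ R z0 b) hm
        obtain ⟨k, -, hk⟩ := this
        exact ⟨k, hk⟩
      rw [← hk] at hm1' hm3'
      have e1 := hsm.lt_iff_lt.1 hm1'
      have e2 := hsm.lt_iff_lt.1 hm3'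
      omega
    unfold Rr
    rw [hempty]
    simp
  rw [← nonpos_iff_eq_zero]
  exact liminf_le_of_frequently_le' h2

theorem ae_low {Ω : Type} [MeasurableSpace Ω] {P : Measure Ω} {a : ℕ → Ω → ℕ} (h : Model P a) :
    ∀ᵐ ω ∂P, (R z0 (fun q => a q ω)).Infinite ∧
      ∀ᶠ X : ℕ in atTop, (X : ℝ) ^ (1 / 20 : ℝ) ≤ NN z0 (fun q => a q ω) 1 X := by
  filter_upwards [main_all h z0 z0_mono z0_lim] with ω hω
  refine ⟨hω.1, hω.2 1 (1 / 20) (by norm_num) (by norm_num) ?_⟩
  have := expg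
  linarith

end Pool.Agent.H531.MS
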