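import Pool.Agent.H531.MS.Row

set_option autoImplicit false

/-!
# The primes in short intervals and the extremal constants of the interval sieve
-/

open Finset Filter Topology
open scoped ENNReal
open Pool.Agent.H378R2 Pool.Agent.H510R2.Maier

namespace Pool.Agent.H531.MS

open Pool.Agent.T2H31.HV
open Pool.Agent.T2H32.BF (V V_pos V_anti V_ratio)

/-- `R_{(log x) ^ a}(x)` for the set `S` -/
noncomputable def Rr (S : Set ℕ) (a x : ℝ) : ℝ :=
  Real.log x / Real.log x ^ a * (S ∩ {n : ℕ | x < n ∧ (n : ℝ) ≤ x + Real.log x ^ a}).ncard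

theorem small_V {a b : ℝ} (hb : b < a) (δ : ℝ) (hδ : 0 < δ) : ∀ᶠ u : ℕ in atTop,
    (u : ℝ) ^ b ≤ δ * ((u : ℝ) ^ a * V u) := by
  obtain ⟨u₀, hu₀, hV⟩ := V_mul_le
  set c := Real.log u₀ * V u₀ / 2 with hc
  have hc0 : 0 < c := by
    have h1 : (2 : ℝ) ≤ u₀ := by exact_mod_cast hu₀
    have h2 := Real.log_pos (show (1 : ℝ) < u₀ by linarith)
    have h3 := V_pos u₀
    positivity
  have h1 := ((isLittleO_log_rpow_atTop (sub_pos.2 hb)).comp_tendsto
    (tendsto_natCast_atTop_atTop (R := ℝ))).bound (show 0 < δ * c by positivity)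
  filter_upwards [h1, eventually_ge_atTop u₀] with u h2 h3
  have hu : (2 : ℝ) ≤ u := by exact_mod_cast hu₀.trans h3
  have hu0 : (0 : ℝ) < u := by linarith
  have hl : 0 < Real.log u := Real.log_pos (by linarith)
  have h4 := hV u₀ u le_rfl h3
  have hVu := V_pos u
  simp only [Function.comp, Real.norm_eq_abs] at h2
  rw [abs_of_pos hl, abs_of_pos (Real.rpow_pos_of_pos hu0 _), Real.rpow_sub hu0] at h2
  have hb0 : 0 < (u : ℝ) ^ b := Real.rpow_pos_of_pos hu0 _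
  have ha0 : 0 < (u : ℝ) ^ a := Real.rpow_pos_of_pos hu0 _
  have h5 : Real.log u * (u : ℝ) ^ b ≤ δ * c * (u : ℝ) ^ a := by
    calc Real.log u * (u : ℝ) ^ b ≤ δ * c * ((u : ℝ) ^ a / (u : ℝ) ^ b) * (u : ℝ) ^ b := by gcongr
      _ = _ := by field_simp
  have h6 : c ≤ Real.log u * V u := by
    rw [hc]
    linarith
  have h7 : Real.log u * (u : ℝ) ^ b ≤ Real.log u * (δ * ((u : ℝ) ^ a * V u)) := by
    calc Real.log u * (u : ℝ) ^ b ≤ δ * c * (u : ℝ) ^ a := h5
      _ ≤ δ * (Real.log u * V u) * (u : ℝ) ^ a := by gcongr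
      _ = _ := by ring
  exact le_of_mul_le_mul_left h7 hl

theorem rpow_diff {a : ℝ} (ha : 1 ≤ a) {s t : ℝ} (hs : 0 < s) (hst : s ≤ t) :
    t ^ a - s ^ a ≤ a * t ^ (a - 1) * (t - s) := by
  have ht : 0 < t := by linarith
  have h1 := one_add_mul_self_le_rpow_one_add (show -1 ≤ s / t - 1 by
    have : 0 < s / t := by positivity
    linarith) ha
  have e : 1 + (s / t - 1) = s / t := by ring
  rw [e, Real.div_rpow hs.le ht.le] at h1
  have hta : 0 < t ^ a := Real.rpow_pos_of_pos ht _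
  rw [le_div_iff₀ hta] at h1
  have h2 : t ^ (a - 1) = t ^ a / t := by rw [Real.rpow_sub ht, Real.rpow_one]
  rw [h2]
  have h3 : a * (t ^ a / t) * (t - s) = a * (1 - s / t) * t ^ a := by field_simp
  rw [h3]
  nlinarith

/-- `(u + 2) ^ a - u ^ a` is small -/
theorem shift_small {a : ℝ} (ha : 1 ≤ a) : ∃ C : ℝ, 0 < C ∧ ∀ u : ℝ, 2 ≤ u →
    (u + 2) ^ a ≤ u ^ a + C * u ^ (a - 1) := by
  refine ⟨a * 2 ^ (a - 1) * 2, by positivity, fun u hu => ?_⟩
  have h1 := rpow_diff ha (show 0 < u by linarith) (show u ≤ u + 2 by linarith)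
  have h2 : (u + 2) ^ (a - 1) ≤ 2 ^ (a - 1) * u ^ (a - 1) := by
    rw [← Real.mul_rpow (by norm_num) (by linarith)]
    exact Real.rpow_le_rpow (by linarith) (by linarith) (by linarith)
  have h3 : a * (u + 2) ^ (a - 1) * (u + 2 - u) ≤ a * 2 ^ (a - 1) * 2 * u ^ (a - 1) := by
    calc a * (u + 2) ^ (a - 1) * (u + 2 - u) = 2 * a * (u + 2) ^ (a - 1) := by ring
      _ ≤ 2 * a * (2 ^ (a - 1) * u ^ (a - 1)) := by gcongr
      _ = _ := by ring
  linarith

theorem VV_CQ (X : ℝ) (S : Finset ℕ) (ps r Y : ℕ) :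
    VV (Pool.Agent.H378R2.WW X S ps) r Y = CQ (PW X S ps) r Y := by
  classical
  unfold Pool.Agent.H510R2.Maier.VV CQ
  have hcop : ∀ m : ℕ, m.Coprime (Pool.Agent.H378R2.WW X S ps) ↔ ∀ p ∈ PW X S ps, ¬ p ∣ m := by
    intro m
    constructor
    · intro h p hp hpm
      have hpp := (mem_PW.1 hp).2.1
      exact Nat.not_coprime_of_dvd_of_dvd hpp.one_lt hpm ((prime_dvd_WW hpp).2 hp) h
    · intro h
      by_contra hcon
      obtain ⟨p, hpp, hp1, hp2⟩ := Nat.Prime.not_coprime_iff_dvd.1 hcon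
      exact h p ((prime_dvd_WW hpp).1 hp2) hp1
  refine card_bij (fun h _ => r + h) ?_ ?_ ?_
  · intro h hh
    rw [mem_filter, mem_Icc] at hh
    rw [mem_filter, mem_Ioc]
    exact ⟨⟨by omega, by omega⟩, (hcop _).1 hh.2⟩
  · intro h _ h' _ e
    omega
  · intro m hm
    rw [mem_filter, mem_Ioc] at hm
    refine ⟨m - r, ?_, by omega⟩
    rw [mem_filter, mem_Icc, show r + (m - r) = m by omega]
    exact ⟨⟨by omega, by omega⟩, (hcop _).2 hm.2⟩

/-- the primes up to `log X` that do not divide the modulus -/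
theorem bad_sum (δ : ℝ) (hδ : 0 < δ) : ∃ Z : ℕ, ∀ᶠ u : ℕ in atTop, ∀ (S : Finset ℕ) (ps : ℕ),
    GoodS (Real.exp u) S → GoodP Z ps →
      PW (Real.exp u) S ps ⊆ PN u ∧ ∑ p ∈ PN u \ PW (Real.exp u) S ps, 1 / (p : ℝ) ≤ δ := by
  classical
  obtain ⟨Z, hZ⟩ := exists_nat_gt (3 / δ)
  have hZ0 : (0 : ℝ) < Z := lt_trans (by positivity) hZ
  refine ⟨Z, ?_⟩
  obtain ⟨u₀, hu₀, hrec⟩ := recip_near (δ / 6) (by positivity)
  have h1 : Tendsto (fun u : ℕ => ⌊(u : ℝ) / 1000⌋₊) atTop atTop :=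
    tendsto_nat_floor_atTop.comp (tendsto_natCast_atTop_atTop.atTop_div_const (by norm_num))
  have h2 : Tendsto (fun u : ℕ => 6 / Real.log (u : ℝ) ^ 2) atTop (𝓝 0) := by
    apply Tendsto.div_atTop tendsto_const_nhds
    exact (tendsto_pow_atTop (by norm_num)).comp (Real.tendsto_log_atTop.comp tendsto_natCast_atTop_atTop)
  have h3 : ∀ᶠ u : ℕ in atTop, Real.log u ≤ (1 + δ / 6) * Real.log ⌊(u : ℝ) / 1000⌋₊ := by
    have h4 : ∀ᶠ u : ℕ in atTop, (1 + δ / 6) * Real.log 2000 ≤ δ / 6 * Real.log (u : ℝ) :=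
      ((Real.tendsto_log_atTop.comp tendsto_natCast_atTop_atTop).const_mul_atTop
        (show 0 < δ / 6 by positivity)).eventually_ge_atTop _
    filter_upwards [h4, eventually_ge_atTop 2000] with u h5 h6
    have hu : (2000 : ℝ) ≤ u := by exact_mod_cast h6
    have h7 : (u : ℝ) / 2000 ≤ ⌊(u : ℝ) / 1000⌋₊ := by
      have := Nat.lt_floor_add_one ((u : ℝ) / 1000)
      linarith
    have h8 := Real.log_le_log (by positivity) h7
    rw [Real.log_div (by linarith) (by norm_num)] at h8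
    nlinarith
  filter_upwards [h1.eventually_ge_atTop u₀, h2.eventually_lt_const (show (0 : ℝ) < δ / 3 by positivity), h3]
    with u h4 h5 h6 S ps hS hps
  have hyy : yy (Real.exp u) = ⌊(u : ℝ) / 1000⌋₊ := by
    unfold yy
    rw [Real.log_exp]
  have hle : yy (Real.exp u) ≤ u := by
    rw [hyy]
    apply Nat.floor_le_of_le
    have : (0 : ℝ) ≤ u := by positivity
    linarith
  constructor
  · intro p hp
    rw [mem_PW] at hp
    rw [mem_PN]
    exact ⟨hp.1.trans hle, hp.2.1⟩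
  have hsub : PN u \ PW (Real.exp u) S ps ⊆ (S ∪ (({ps} : Finset ℕ).filter Nat.Prime)) ∪ PI (yy (Real.exp u)) u := by
    intro p hp
    rw [Finset.mem_sdiff, mem_PN, mem_PW] at hp
    rw [mem_union, mem_union, mem_filter, mem_singleton, mem_PI]
    by_cases h7 : p ≤ yy (Real.exp u)
    · by_cases h8 : p ∈ S
      · exact Or.inl (Or.inl h8)
      · by_cases h9 : p = ps
        · exact Or.inl (Or.inr ⟨h9, hp.1.2⟩)
        · exact absurd ⟨h7, hp.1.2, h8, h9⟩ hp.2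
    · exact Or.inr ⟨⟨by omega, hp.1.1⟩, hp.1.2⟩
  have hs1 : ∑ p ∈ S, 1 / (p : ℝ) ≤ δ / 3 := by
    have := hS.2
    rw [Real.log_exp] at this
    exact this.trans h5.le
  have hs2 : ∑ p ∈ ({ps} : Finset ℕ).filter Nat.Prime, 1 / (p : ℝ) ≤ δ / 3 := by
    rcases hps with h | ⟨h, h'⟩
    · rw [h, filter_singleton, if_neg Nat.not_prime_one, sum_empty]
      positivity
    · rw [filter_singleton, if_pos h, sum_singleton]
      have h8 : (Z : ℝ) < ps := by exact_mod_cast h'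
      rw [div_lt_iff₀ hδ] at hZ
      rw [div_le_div_iff₀ (by linarith) (by norm_num)]
      nlinarith
  have hs3 : ∑ p ∈ PI (yy (Real.exp u)) u, 1 / (p : ℝ) ≤ δ / 3 := by
    have := hrec (yy (Real.exp u)) u (by rw [hyy]; exact h4) hle (by rw [hyy]; exact h6)
    linarith
  calc ∑ p ∈ PN u \ PW (Real.exp u) S ps, 1 / (p : ℝ)
      ≤ ∑ p ∈ (S ∪ (({ps} : Finset ℕ).filter Nat.Prime)) ∪ PI (yy (Real.exp u)) u, 1 / (p : ℝ) :=
        sum_le_sum_of_subset_of_nonneg hsub fun p _ _ => by positivity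
    _ ≤ ∑ p ∈ (S ∪ (({ps} : Finset ℕ).filter Nat.Prime)), 1 / (p : ℝ) + ∑ p ∈ PI (yy (Real.exp u)) u, 1 / (p : ℝ) := by
        rw [← sum_union_inter]
        have : 0 ≤ ∑ p ∈ (S ∪ (({ps} : Finset ℕ).filter Nat.Prime)) ∩ PI (yy (Real.exp u)) u, 1 / (p : ℝ) :=
          sum_nonneg fun p _ => by positivity
        linarith
    _ ≤ (∑ p ∈ S, 1 / (p : ℝ) + ∑ p ∈ ({ps} : Finset ℕ).filter Nat.Prime, 1 / (p : ℝ)) +
        ∑ p ∈ PI (yy (Real.exp u)) u, 1 / (p : ℝ) := by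
        have h7 : ∑ p ∈ (S ∪ (({ps} : Finset ℕ).filter Nat.Prime)), 1 / (p : ℝ) ≤
            ∑ p ∈ S, 1 / (p : ℝ) + ∑ p ∈ ({ps} : Finset ℕ).filter Nat.Prime, 1 / (p : ℝ) := by
          rw [← sum_union_inter]
          have : 0 ≤ ∑ p ∈ S ∩ (({ps} : Finset ℕ).filter Nat.Prime), 1 / (p : ℝ) :=
            sum_nonneg fun p _ => by positivity
          linarith
        linarith
    _ ≤ δ := by linarith

/-- the product over the modulus -/
theorem BE_near {u : ℕ} {E : Finset ℕ} (hE : E ⊆ PN u) {δ : ℝ} (hs : ∑ p ∈ PN u \ E, 1 / (p : ℝ) ≤ δ) :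
    V u ≤ BE E ∧ (1 - δ) * BE E ≤ V u := by
  classical
  have hp : ∀ p ∈ PN u, p.Prime := fun p hp => ((mem_PN _ _).1 hp).2
  have hBE : BE E = ∏ p ∈ E, (1 - 1 / (p : ℝ)) := rfl
  rw [hBE]
  constructor
  · rw [V_eq]
    exact prod_anti hp hE
  · rw [V_eq, ← prod_sdiff hE]
    have h1 := Pool.Agent.H531.SI.prod_one_sub_ge (PN u \ E) (fun p => 1 / (p : ℝ)) (fun p _ => by positivity)
      (fun p hp' => by
        have h2 := (hp p (Finset.mem_sdiff.1 hp').1).two_le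
        have h3 : (2 : ℝ) ≤ p := by exact_mod_cast h2
        rw [div_le_one (by linarith)]
        linarith)
    have h2 := prod_pos' (Q := E) fun p hp' => hp p (hE hp')
    have h3 : 1 - δ ≤ ∏ p ∈ PN u \ E, (1 - 1 / (p : ℝ)) := by linarith
    exact mul_le_mul_of_nonneg_right h3 h2.le

/-- the number of primes in `(n, n + Y]` and the weighted number -/
theorem thw_bounds (n Y : ℕ) (hn : 1 ≤ n) :
    (({m : ℕ | m.Prime} ∩ Set.Ioc n (n + Y)).ncard : ℝ) * Real.log n ≤ thw n Y ∧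
      thw n Y ≤ (({m : ℕ | m.Prime} ∩ Set.Ioc n (n + Y)).ncard : ℝ) * Real.log (n + Y : ℕ) := by
  classical
  have e1 : ({m : ℕ | m.Prime} ∩ Set.Ioc n (n + Y)) = (((Ioc n (n + Y)).filter Nat.Prime : Finset ℕ) : Set ℕ) := by
    ext m
    simp [and_comm]
  rw [e1, Set.ncard_coe_finset]
  have e2 : thw n Y = ∑ m ∈ (Ioc n (n + Y)).filter Nat.Prime, Real.log m := by
    unfold thw th
    rw [sum_filter]
    refine sum_bij (fun h _ => n + h) ?_ ?_ ?_ ?_
    · intro h hh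
      rw [mem_Icc] at hh
      rw [mem_Ioc]
      omega
    · intro h _ h' _ e
      omega
    · intro m hm
      rw [mem_Ioc] at hm
      exact ⟨m - n, by rw [mem_Icc]; omega, by omega⟩
    · intro h _
      rfl
  rw [e2]
  have hn0 : (0 : ℝ) < n := by exact_mod_cast hn
  constructor
  · rw [← nsmul_eq_mul]
    refine card_nsmul_le_sum _ _ _ fun m hm => ?_
    rw [mem_filter, mem_Ioc] at hm
    exact Real.log_le_log hn0 (by exact_mod_cast hm.1.1.le)
  · rw [← nsmul_eq_mul]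
    refine sum_le_card_nsmul _ _ _ fun m hm => ?_
    rw [mem_filter, mem_Ioc] at hm
    refine Real.log_le_log ?_ (by exact_mod_cast hm.1.2)
    have : (n : ℝ) < m := by exact_mod_cast hm.1.1
    linarith

theorem fin_aux (S : Set ℕ) (n Y : ℕ) : (S ∩ Set.Ioc n (n + Y)).Finite :=
  (Set.finite_Ioc n (n + Y)).subset Set.inter_subset_right

/-- windows at integers -/
theorem Rr_nat (S : Set ℕ) (a : ℝ) (n : ℕ) (hn : 3 ≤ n) :
    Rr S a n = Real.log n / Real.log n ^ a * ((S ∩ Set.Ioc n (n + ⌊Real.log n ^ a⌋₊)).ncard : ℝ) := by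
  unfold Rr
  have hl : 0 ≤ Real.log n := Real.log_nonneg (by
    have : (3 : ℝ) ≤ n := by exact_mod_cast hn
    linarith)
  congr 3
  ext m
  simp only [Set.mem_inter_iff, Set.mem_ofPred_eq, Set.mem_Ioc, Nat.cast_lt]
  refine and_congr_right fun _ => and_congr_right fun hm => ?_
  rw [← Nat.sub_le_iff_le_add', Nat.le_floor_iff (by positivity), Nat.cast_sub hm.le, sub_le_iff_le_add']

end Pool.Agent.H531.MS
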