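import Pool.Agent.H531.MS.Prm

set_option autoImplicit false

/-!
# The primes in short intervals and the extremal constants of the interval sieve
-/

open Finset Filter Topology
open scoped ENNReal
open Pool.Agent.H378R2 Pool.Agent.H510R2.Maier

namespace Pool.Agent.H531.MS

open Pool.Agent.T2H31.HV
open Pool.Agent.T2H32.BF (V V_pos V_anti V_ratio)

theorem level {a b : ℝ} (hb0 : 0 < b) (hb : b < a) : ∃ A : ℕ, ∀ k₀ : ℕ, ∀ᶠ u : ℕ in atTop, ∀ y p q : ℕ,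
    (u : ℝ) ^ a / 2 ≤ y → 0 < p → (p : ℝ) ≤ (u : ℝ) ^ b → (q : ℝ) ≤ (u : ℝ) ^ b →
      k₀ ≤ y / p ∧ q ≤ (y / p) ^ A := by
  set t := (a - b) / 2 with ht
  have ht0 : 0 < t := by
    rw [ht]
    linarith
  refine ⟨⌈b / t⌉₊, fun k₀ => ?_⟩
  filter_upwards [eventually_ge_atTop 1, (rpow_nat_top ht0).eventually_ge_atTop (k₀ : ℝ),
    (rpow_nat_top ht0).eventually_ge_atTop 4] with u h1 h2 h3 y p q hy hp hpu hq
  have hu1 : (1 : ℝ) ≤ u := by exact_mod_cast h1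
  have hu0 : (0 : ℝ) < u := by linarith
  set T := (u : ℝ) ^ t with hT
  have hT0 : 0 < T := by linarith
  have hub : 0 < (u : ℝ) ^ b := Real.rpow_pos_of_pos hu0 _
  have hua : (u : ℝ) ^ a = T * T * (u : ℝ) ^ b := by
    rw [hT, ← Real.rpow_add hu0, ← Real.rpow_add hu0]
    congr 1
    rw [ht]
    ring
  have h4 : ((⌈T⌉₊ : ℕ) : ℝ) ≤ T + 1 := (Nat.ceil_lt_add_one hT0.le).le
  have h5 : ⌈T⌉₊ ≤ y / p := by
    rw [Nat.le_div_iff_mul_le hp]
    have h6 : ((⌈T⌉₊ * p : ℕ) : ℝ) ≤ y := by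
      push_cast
      calc ((⌈T⌉₊ : ℕ) : ℝ) * p ≤ (T + 1) * (u : ℝ) ^ b := by gcongr
        _ ≤ T * T / 2 * (u : ℝ) ^ b := by
          gcongr
          nlinarith
        _ = (u : ℝ) ^ a / 2 := by
          rw [hua]
          ring
        _ ≤ y := hy
    exact_mod_cast h6
  have h7 : T ≤ ((y / p : ℕ) : ℝ) := (Nat.le_ceil T).trans (by exact_mod_cast h5)
  constructor
  · have : (k₀ : ℝ) ≤ ((y / p : ℕ) : ℝ) := h2.trans h7
    exact_mod_cast this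
  · have h8 : (q : ℝ) ≤ (((y / p) ^ ⌈b / t⌉₊ : ℕ) : ℝ) := by
      push_cast
      calc (q : ℝ) ≤ (u : ℝ) ^ b := hq
        _ ≤ (u : ℝ) ^ (t * (⌈b / t⌉₊ : ℝ)) := by
          apply Real.rpow_le_rpow_of_exponent_le hu1
          have := Nat.le_ceil (b / t)
          rw [div_le_iff₀ ht0] at this
          linarith
        _ = T ^ ⌈b / t⌉₊ := by rw [Real.rpow_mul hu0.le, Real.rpow_natCast]
        _ ≤ _ := by gcongr
    exact_mod_cast h8

theorem floor_tend' {a : ℝ} (ha : 0 < a) : Tendsto (fun u : ℕ => ⌊(u : ℝ) ^ a⌋₊) atTop atTop :=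
  tendsto_nat_floor_atTop.comp (rpow_nat_top ha)

theorem exp_large (B : ℕ) : ∀ᶠ u : ℕ in atTop, (u : ℝ) ^ B ≤ Real.exp u := by
  have h1 := ((Real.isLittleO_pow_exp_atTop (n := B)).comp_tendsto
    (tendsto_natCast_atTop_atTop (R := ℝ))).bound (show (0 : ℝ) < 1 by norm_num)
  filter_upwards [h1] with u h2
  simp only [Function.comp, Real.norm_eq_abs, one_mul] at h2
  rw [abs_of_pos (Real.exp_pos _)] at h2
  exact (le_abs_self _).trans h2

/-- common facts on the logarithm of `n` -/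
theorem log_facts {u n : ℕ} (hu : 2 ≤ u) (h1 : Real.exp u < n) (h2 : (n : ℝ) < 3 * Real.exp u) :
    (u : ℝ) ≤ Real.log n ∧ Real.log n ≤ u + 2 ∧ 3 ≤ n ∧ (u : ℝ) ≤ n := by
  have hn : (0 : ℝ) < n := lt_trans (Real.exp_pos _) h1
  have hu2 : (2 : ℝ) ≤ u := by exact_mod_cast hu
  have h3 : (u : ℝ) + 1 ≤ Real.exp u := Real.add_one_le_exp _
  refine ⟨?_, ?_, ?_, by linarith⟩
  · rw [Real.le_log_iff_exp_le hn]
    exact h1.le
  · have h4 := Real.log_le_log hn h2.le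
    rw [Real.log_mul (by norm_num) (Real.exp_pos _).ne', Real.log_exp] at h4
    have h5 : Real.log 3 ≤ 2 := by
      have := Real.log_le_sub_one_of_pos (show (0 : ℝ) < 3 by norm_num)
      linarith
    linarith
  · have : (3 : ℝ) ≤ n := by linarith
    exact_mod_cast this

theorem pow_near {a : ℝ} (ha : 1 ≤ a) (δ : ℝ) (hδ : 0 < δ) : ∀ᶠ u : ℕ in atTop,
    ((u : ℝ) + 2) ^ a ≤ (1 + δ) * (u : ℝ) ^ a ∧ ((u : ℝ) + 2) ^ a - (u : ℝ) ^ a + 82 ≤ δ * ((u : ℝ) ^ a * V u) := by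
  obtain ⟨C, hC, h⟩ := shift_small ha
  filter_upwards [small_V (show a - 1 < a by linarith) (δ / (2 * C)) (by positivity),
    small_V (show (0 : ℝ) < a by linarith) (δ / 164) (by positivity), eventually_ge_atTop 2] with u h1 h2 h3
  have hu : (2 : ℝ) ≤ u := by exact_mod_cast h3
  have h4 := h u hu
  rw [Real.rpow_zero] at h2
  have hV := V_pos u
  have hV1 := V_le_one u
  have hua : 0 < (u : ℝ) ^ a := Real.rpow_pos_of_pos (by linarith) _
  have h5 : C * (u : ℝ) ^ (a - 1) ≤ δ / 2 * ((u : ℝ) ^ a * V u) := by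
    calc C * (u : ℝ) ^ (a - 1) ≤ C * (δ / (2 * C) * ((u : ℝ) ^ a * V u)) := by gcongr
      _ = _ := by field_simp
  have h6 : (u : ℝ) ^ a * V u ≤ (u : ℝ) ^ a := by nlinarith
  constructor
  · nlinarith
  · linarith

theorem cnt_mono (S : Set ℕ) (n : ℕ) {Y Y' : ℕ} (h : Y ≤ Y') :
    ((S ∩ Set.Ioc n (n + Y)).ncard : ℝ) ≤ ((S ∩ Set.Ioc n (n + Y')).ncard : ℝ) := by
  have h1 : (S ∩ Set.Ioc n (n + Y)).ncard ≤ (S ∩ Set.Ioc n (n + Y')).ncard :=
    Set.ncard_le_ncard (Set.inter_subset_inter_right _ (Set.Ioc_subset_Ioc_right (by omega))) (fin_aux _ _ _)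
  exact_mod_cast h1

theorem prime_up {a : ℝ} (ha : 1 < a) (ε : ℝ) (hε : 0 < ε) : ∀ᶠ u : ℕ in atTop, ∀ x' : ℕ, ∃ n : ℕ,
    (Real.exp u < n ∧ (n : ℝ) < 3 * Real.exp u) ∧
    nc a u x' ≤ (1 + ε) * Rr {m : ℕ | m.Prime} a n + ε := by
  classical
  set δ := min ε 1 / 100 with hδ
  have hδ0 : 0 < δ := by positivity
  have hδε : 100 * δ ≤ ε := by
    rw [hδ]
    have := min_le_left ε 1
    linarith
  have hδ1 : 100 * δ ≤ 1 := by
    rw [hδ]
    have := min_le_right ε 1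
    linarith
  obtain ⟨Z, hZ⟩ := bad_sum δ hδ0
  set B := ⌈a⌉₊ with hB
  obtain ⟨X0, hX0⟩ := rows' B δ hδ0 (by linarith) Z
  have hexp : Tendsto (fun u : ℕ => Real.exp (u : ℝ)) atTop atTop :=
    Real.tendsto_exp_atTop.comp tendsto_natCast_atTop_atTop
  filter_upwards [hZ, hexp.eventually_ge_atTop X0, pow_near ha.le δ hδ0, exp_large B, eventually_ge_atTop 2,
    (tendsto_natCast_atTop_atTop (R := ℝ)).eventually_ge_atTop (1 / δ)] with u h1 h2 h3 h4 h5 h6 x'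
  obtain ⟨ps, S, hps, hS, hrow⟩ := hX0 _ h2
  obtain ⟨hsub, hbad⟩ := h1 S ps hS hps
  obtain ⟨hBE1, hBE2⟩ := BE_near hsub hbad
  have hu : (2 : ℝ) ≤ u := by exact_mod_cast h5
  have hua : 0 < (u : ℝ) ^ a := Real.rpow_pos_of_pos (by linarith) _
  set Y := ⌊(u : ℝ) ^ a⌋₊ with hY
  have hYu : (Y : ℝ) ≤ (u : ℝ) ^ a := Nat.floor_le hua.le
  have haB : (u : ℝ) ^ a ≤ (u : ℝ) ^ B := by
    rw [← Real.rpow_natCast]
    exact Real.rpow_le_rpow_of_exponent_le (by linarith) (Nat.le_ceil a)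
  rw [Real.log_exp] at hrow
  obtain ⟨⟨n, hn1, hn2, hn3⟩, -⟩ := hrow x' Y (hYu.trans haB)
  obtain ⟨hl1, hl2, hn4, hn5⟩ := log_facts h5 hn1 hn2
  refine ⟨n, ⟨hn1, hn2⟩, ?_⟩
  rw [Rr_nat _ _ _ hn4]
  set PR : Set ℕ := {m : ℕ | m.Prime} with hPR
  set cnt : ℝ := ((PR ∩ Set.Ioc n (n + ⌊Real.log n ^ a⌋₊)).ncard : ℝ) with hcnt
  have hn0 : (0 : ℝ) < n := lt_trans (Real.exp_pos _) hn1
  have hcnt1 : ((PR ∩ Set.Ioc n (n + Y)).ncard : ℝ) ≤ cnt :=
    cnt_mono PR n (Nat.floor_le_floor (Real.rpow_le_rpow (by linarith) hl1 (by linarith)))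
  have hlnY : Real.log (n + Y : ℕ) ≤ (1 + δ) * Real.log n := by
    have h7 : ((n + Y : ℕ) : ℝ) ≤ 2 * n := by
      push_cast
      linarith
    have h8 := Real.log_le_log (by push_cast; positivity) h7
    rw [Real.log_mul (by norm_num) hn0.ne'] at h8
    have h9 := Real.log_two_lt_d9
    rw [div_le_iff₀ hδ0] at h6
    nlinarith
  have hthw := (thw_bounds n Y (by omega)).2
  have hlogn : 0 < Real.log n := by linarith
  have hloga : 0 < Real.log n ^ a := Real.rpow_pos_of_pos hlogn _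
  have hloga2 : Real.log n ^ a ≤ (1 + δ) * (u : ℝ) ^ a :=
    (Real.rpow_le_rpow hlogn.le hl2 (by linarith)).trans h3.1
  have hcnt0 : 0 ≤ cnt := Nat.cast_nonneg _
  set Rn := Real.log n / Real.log n ^ a * cnt with hRn
  have hRn0 : 0 ≤ Rn := by positivity
  have hcl : cnt * Real.log n ≤ Rn * ((1 + δ) * (u : ℝ) ^ a) := by
    calc cnt * Real.log n = Rn * Real.log n ^ a := by
          rw [hRn]
          field_simp
      _ ≤ _ := by gcongr
  have hthw2 : thw n Y ≤ (1 + δ) ^ 2 * (Rn * (u : ℝ) ^ a) := by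
    calc thw n Y ≤ ((PR ∩ Set.Ioc n (n + Y)).ncard : ℝ) * Real.log (n + Y : ℕ) := hthw
      _ ≤ cnt * ((1 + δ) * Real.log n) := by
        gcongr
      _ = (1 + δ) * (cnt * Real.log n) := by ring
      _ ≤ (1 + δ) * (Rn * ((1 + δ) * (u : ℝ) ^ a)) := by gcongr
      _ = _ := by ring
  have hBpos : 0 < BE (PW (Real.exp u) S ps) := lt_of_lt_of_le (V_pos u) hBE1
  have hVu := V_pos u
  rw [VV_CQ] at hn3
  have hCQ : (CQ (PN u) x' Y : ℝ) ≤ CQ (PW (Real.exp u) S ps) x' Y := by exact_mod_cast CQ_anti hsub x' Y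
  set c := (CQ (PN u) x' Y : ℝ) with hc
  have h7 : (1 - δ) * (c - 80) ≤ BE (PW (Real.exp u) S ps) * ((1 + δ) ^ 2 * (Rn * (u : ℝ) ^ a)) := by
    have h8 : (1 - δ) * ((c - 80) / BE (PW (Real.exp u) S ps)) ≤ (1 + δ) ^ 2 * (Rn * (u : ℝ) ^ a) := by
      refine le_trans ?_ (hn3.trans hthw2)
      have : 0 ≤ 1 - δ := by linarith
      gcongr
    rw [mul_div_assoc', div_le_iff₀ hBpos] at h8
    linarith
  have h8 : (1 - δ) ^ 2 * (c - 80) ≤ (1 + δ) ^ 2 * (Rn * ((u : ℝ) ^ a * V u)) := by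
    have h9 : 0 ≤ (1 + δ) ^ 2 * (Rn * (u : ℝ) ^ a) := by positivity
    calc (1 - δ) ^ 2 * (c - 80) = (1 - δ) * ((1 - δ) * (c - 80)) := by ring
      _ ≤ (1 - δ) * (BE (PW (Real.exp u) S ps) * ((1 + δ) ^ 2 * (Rn * (u : ℝ) ^ a))) := by
        have : 0 ≤ 1 - δ := by linarith
        gcongr
      _ = ((1 - δ) * BE (PW (Real.exp u) S ps)) * ((1 + δ) ^ 2 * (Rn * (u : ℝ) ^ a)) := by ring
      _ ≤ V u * ((1 + δ) ^ 2 * (Rn * (u : ℝ) ^ a)) := by gcongr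
      _ = _ := by ring
  have h9 : 80 ≤ δ * ((u : ℝ) ^ a * V u) := by
    have h10 : (u : ℝ) ^ a ≤ ((u : ℝ) + 2) ^ a := Real.rpow_le_rpow (by linarith) (by linarith) (by linarith)
    linarith [h3.2]
  set D := (u : ℝ) ^ a * V u with hD
  have hD0 : 0 < D := by positivity
  unfold nc
  rw [← hY, ← hD, ← hc, div_le_iff₀ hD0]
  have h10 : (1 + δ) ^ 2 ≤ (1 + ε) * (1 - δ) ^ 2 := by
    have h11 : (1 + 100 * δ) * (1 - δ) ^ 2 ≤ (1 + ε) * (1 - δ) ^ 2 := by gcongr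
    have h12 : δ ^ 2 ≤ δ * (1 / 100) := by
      rw [sq]
      exact mul_le_mul_of_nonneg_left (by linarith) hδ0.le
    have h13 : 0 ≤ δ ^ 3 := by positivity
    have h14 : (1 + 100 * δ) * (1 - δ) ^ 2 = 1 + 98 * δ - 199 * δ ^ 2 + 100 * δ ^ 3 := by ring
    have h15 : (1 + δ) ^ 2 = 1 + 2 * δ + δ ^ 2 := by ring
    linarith
  have h11 : (1 + δ) ^ 2 * (Rn * D) ≤ (1 + ε) * (1 - δ) ^ 2 * (Rn * D) := by gcongr
  have h12 : (1 - δ) ^ 2 * (c - 80) ≤ (1 - δ) ^ 2 * ((1 + ε) * (Rn * D)) := by linarith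
  have h13 : c - 80 ≤ (1 + ε) * (Rn * D) := le_of_mul_le_mul_left h12 (by
    have : 0 < 1 - δ := by linarith
    positivity)
  have h14 : δ * D ≤ ε * D := mul_le_mul_of_nonneg_right (by linarith) hD0.le
  have h15 : ((1 + ε) * Rn + ε) * D = (1 + ε) * (Rn * D) + ε * D := by ring
  linarith

theorem prime_lo {a : ℝ} (ha : 1 < a) (ε : ℝ) (hε : 0 < ε) : ∀ᶠ u : ℕ in atTop, ∀ x' : ℕ, ∃ n : ℕ,
    (Real.exp u < n ∧ (n : ℝ) < 3 * Real.exp u) ∧
    Rr {m : ℕ | m.Prime} a n ≤ (1 + ε) * nc a u x' + ε := by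
  classical
  obtain ⟨A, hlev⟩ := level one_pos ha
  obtain ⟨C, k₀, hC, hex⟩ := extra A
  set δ := min ε 1 / (100 * (C + 1)) with hδ
  have hδ0 : 0 < δ := by positivity
  have hδm : 100 * (C + 1) * δ = min ε 1 := by
    rw [hδ]
    field_simp
  have hδ2 : 100 * (C * δ) ≤ ε := by
    have := min_le_left ε 1
    nlinarith
  have hδε : 100 * δ ≤ ε := by
    have := min_le_left ε 1
    nlinarith
  have hδ1 : 100 * δ ≤ 1 := by
    have := min_le_right ε 1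
    nlinarith
  obtain ⟨Z, hZ⟩ := bad_sum δ hδ0
  set B := ⌈a⌉₊ + 1 with hB
  obtain ⟨X0, hX0⟩ := rows' B δ hδ0 (by linarith) Z
  have hexp : Tendsto (fun u : ℕ => Real.exp (u : ℝ)) atTop atTop :=
    Real.tendsto_exp_atTop.comp tendsto_natCast_atTop_atTop
  filter_upwards [hZ, hexp.eventually_ge_atTop X0, pow_near ha.le δ hδ0, hlev k₀, eventually_ge_atTop 2,
    floor_facts (show 0 < a by linarith) (1 / 2) (by norm_num)] with u h1 h2 h3 h4 h5 h6 x'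
  obtain ⟨ps, S, hps, hS, hrow⟩ := hX0 _ h2
  obtain ⟨hsub, hbad⟩ := h1 S ps hS hps
  obtain ⟨hBE1, hBE2⟩ := BE_near hsub hbad
  have hu : (2 : ℝ) ≤ u := by exact_mod_cast h5
  have hua : 0 < (u : ℝ) ^ a := Real.rpow_pos_of_pos (by linarith) _
  set Y := ⌊(u : ℝ) ^ a⌋₊ with hY
  set Y' := ⌊((u : ℝ) + 2) ^ a⌋₊ with hY'
  have hYu : (Y : ℝ) ≤ (u : ℝ) ^ a := Nat.floor_le hua.le
  have hYu' : (Y' : ℝ) ≤ ((u : ℝ) + 2) ^ a := Nat.floor_le (by positivity)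
  have hYY : Y ≤ Y' := Nat.floor_le_floor (Real.rpow_le_rpow (by linarith) (by linarith) (by linarith))
  have haB : ((u : ℝ) + 2) ^ a ≤ (u : ℝ) ^ B := by
    calc ((u : ℝ) + 2) ^ a ≤ (1 + δ) * (u : ℝ) ^ a := h3.1
      _ ≤ u * (u : ℝ) ^ (⌈a⌉₊ : ℝ) := by
        have : (u : ℝ) ^ a ≤ (u : ℝ) ^ (⌈a⌉₊ : ℝ) :=
          Real.rpow_le_rpow_of_exponent_le (by linarith) (Nat.le_ceil a)
        apply mul_le_mul _ this hua.le (by linarith)
        linarith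
      _ = (u : ℝ) ^ B := by
        rw [Real.rpow_natCast, hB, pow_succ]
        ring
  rw [Real.log_exp] at hrow
  obtain ⟨-, n, hn1, hn2, hn3⟩ := hrow x' Y' (hYu'.trans haB)
  obtain ⟨hl1, hl2, hn4, hn5⟩ := log_facts h5 hn1 hn2
  refine ⟨n, ⟨hn1, hn2⟩, ?_⟩
  rw [Rr_nat _ _ _ hn4]
  set PR : Set ℕ := {m : ℕ | m.Prime} with hPR
  set cnt : ℝ := ((PR ∩ Set.Ioc n (n + ⌊Real.log n ^ a⌋₊)).ncard : ℝ) with hcnt
  have hn0 : (0 : ℝ) < n := lt_trans (Real.exp_pos _) hn1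
  have hlogn : 0 < Real.log n := by linarith
  have hloga : 0 < Real.log n ^ a := Real.rpow_pos_of_pos hlogn _
  have hcnt1 : cnt ≤ ((PR ∩ Set.Ioc n (n + Y')).ncard : ℝ) :=
    cnt_mono PR n (Nat.floor_le_floor (Real.rpow_le_rpow hlogn.le hl2 (by linarith)))
  have hthw := (thw_bounds n Y' (by omega)).1
  have hBpos : 0 < BE (PW (Real.exp u) S ps) := lt_of_lt_of_le (V_pos u) hBE1
  have hVu := V_pos u
  set PWu := PW (Real.exp u) S ps with hPWu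
  rw [VV_CQ] at hn3
  -- the number of survivors
  have hCQ : (CQ PWu x' Y' : ℝ) ≤ CQ (PN u) x' Y + C * Y * BE PWu * δ + (Y' - Y) := by
    have e1 : PWu ∪ (PN u \ PWu) = PN u := by
      rw [union_sdiff_of_subset hsub]
    have h7 := hex PWu (PN u \ PWu) x' Y (fun q hq => ((mem_PN _ _).1 (hsub hq)).2)
      (fun p hp => ((mem_PN _ _).1 (Finset.mem_sdiff.1 hp).1).2) (fun p hp => by
        have hp1 := (mem_PN _ _).1 (Finset.mem_sdiff.1 hp).1
        have hpu : (p : ℝ) ≤ (u : ℝ) ^ (1 : ℝ) := by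
          rw [Real.rpow_one]
          exact_mod_cast hp1.1
        have hy2 : (u : ℝ) ^ a / 2 ≤ Y := by
          have := h6.2.2.2
          linarith
        refine ⟨(h4 Y p 0 hy2 hp1.2.pos hpu (by
          rw [Nat.cast_zero]
          positivity)).1, fun q hq => ?_⟩
        have hq1 := (mem_PN _ _).1 (hsub hq)
        exact (h4 Y p q hy2 hp1.2.pos hpu (by
          rw [Real.rpow_one]
          exact_mod_cast hq1.1)).2)
    rw [e1] at h7
    have h8 : CQ PWu x' Y' ≤ CQ PWu x' Y + (Y' - Y) := by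
      have := CQ_add PWu x' Y (Y' - Y)
      rwa [Nat.add_sub_cancel' hYY] at this
    have h9 : (CQ PWu x' Y' : ℝ) ≤ CQ PWu x' Y + ((Y' : ℝ) - Y) := by
      have : (CQ PWu x' Y' : ℝ) ≤ ((CQ PWu x' Y + (Y' - Y) : ℕ) : ℝ) := by exact_mod_cast h8
      rw [Nat.cast_add, Nat.cast_sub hYY] at this
      exact this
    have h10 : C * Y * (∏ q ∈ PWu, (1 - 1 / (q : ℝ))) * ∑ p ∈ PN u \ PWu, 1 / (p : ℝ) ≤ C * Y * BE PWu * δ := by
      have : 0 ≤ C * Y * BE PWu := by positivity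
      exact mul_le_mul_of_nonneg_left hbad this
    linarith
  set c := (CQ (PN u) x' Y : ℝ) with hc
  have hc0 : 0 ≤ c := Nat.cast_nonneg _
  set D := (u : ℝ) ^ a * V u with hD
  have hD0 : 0 < D := by positivity
  have hYY' : ((Y' : ℝ) - Y) + 80 ≤ δ * D := by
    have h7 := Nat.lt_floor_add_one ((u : ℝ) ^ a)
    rw [← hY] at h7
    linarith [h3.2]
  -- the number of primes
  have h7 : cnt * Real.log n ≤ (1 + δ) * (c / V u + C * δ * (u : ℝ) ^ a + δ * (u : ℝ) ^ a) := by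
    calc cnt * Real.log n ≤ ((PR ∩ Set.Ioc n (n + Y')).ncard : ℝ) * Real.log n := by gcongr
      _ ≤ thw n Y' := hthw
      _ ≤ (1 + δ) * (((CQ PWu x' Y' : ℝ) + 80) / BE PWu) := hn3
      _ ≤ (1 + δ) * (c / V u + C * δ * (u : ℝ) ^ a + δ * (u : ℝ) ^ a) := by
        gcongr
        rw [div_le_iff₀ hBpos]
        have h8 : c ≤ c / V u * BE PWu := by
          rw [div_mul_eq_mul_div, le_div_iff₀ hVu]
          gcongr
        have h9 : C * Y * BE PWu * δ ≤ C * δ * (u : ℝ) ^ a * BE PWu := by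
          calc C * Y * BE PWu * δ = C * δ * Y * BE PWu := by ring
            _ ≤ _ := by gcongr
        have h10 : δ * D ≤ δ * (u : ℝ) ^ a * BE PWu := by
          rw [hD]
          calc δ * ((u : ℝ) ^ a * V u) = δ * (u : ℝ) ^ a * V u := by ring
            _ ≤ _ := by gcongr
        nlinarith
  have h8 : Real.log n / Real.log n ^ a * cnt ≤ (1 + δ) * (c / D + C * δ + δ) := by
    have e : Real.log n / Real.log n ^ a * cnt = (cnt * Real.log n) / Real.log n ^ a := by ring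
    rw [e]
    have h9 : (u : ℝ) ^ a ≤ Real.log n ^ a := Real.rpow_le_rpow (by linarith) hl1 (by linarith)
    have hcnt0 : 0 ≤ cnt := Nat.cast_nonneg _
    calc (cnt * Real.log n) / Real.log n ^ a ≤ (cnt * Real.log n) / (u : ℝ) ^ a := by gcongr
      _ ≤ ((1 + δ) * (c / V u + C * δ * (u : ℝ) ^ a + δ * (u : ℝ) ^ a)) / (u : ℝ) ^ a := by gcongr
      _ = (1 + δ) * (c / D + C * δ + δ) := by
        rw [hD]
        field_simp
  unfold nc
  rw [← hY, ← hD, ← hc]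
  have h9 : 0 ≤ c / D := by positivity
  refine h8.trans ?_
  have h10 : 0 ≤ C * δ := mul_nonneg hC.le hδ0.le
  have h11 : (1 + δ) * (c / D + C * δ + δ) = (1 + δ) * (c / D) + (1 + δ) * (C * δ + δ) := by ring
  have h12 : (1 + δ) * (c / D) ≤ (1 + ε) * (c / D) := mul_le_mul_of_nonneg_right (by linarith) h9
  have h13 : (1 + δ) * (C * δ + δ) ≤ 2 * (C * δ + δ) := mul_le_mul_of_nonneg_right (by linarith) (by linarith)
  linarith

/-- **The primes.** -/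
theorem primes_main {a : ℝ} (ha : 1 < a) :
    liminf (fun x : ℝ => ENNReal.ofReal (Rr {m : ℕ | m.Prime} a x)) atTop ≤ fm a ∧
      fp a ≤ limsup (fun x : ℝ => ENNReal.ofReal (Rr {m : ℕ | m.Prime} a x)) atTop :=
  ⟨inf_att fun ε hε => (prime_lo ha ε hε).mono fun u hu x' => by
      obtain ⟨n, ⟨h1, -⟩, h3⟩ := hu x'
      have := Real.add_one_le_exp (u : ℝ)
      exact ⟨n, by linarith, h3⟩,
    sup_att fun ε hε => (prime_up ha ε hε).mono fun u hu x' => by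
      obtain ⟨n, ⟨h1, -⟩, h3⟩ := hu x'
      have := Real.add_one_le_exp (u : ℝ)
      exact ⟨n, by linarith, h3⟩⟩

/-- the normalised numbers are bounded -/
theorem nc_bdd {a : ℝ} (ha : 1 < a) : ∃ C : ℝ, 0 < C ∧ ∀ᶠ u : ℕ in atTop, ∀ x : ℕ, nc a u x ≤ C := by
  obtain ⟨C, k₀, hC, h⟩ := upper_sieve 1
  refine ⟨C, hC, ?_⟩
  have ha0 : 0 < a := by linarith
  filter_upwards [floor_facts ha0 (1 / 2) (by norm_num), (floor_tend' ha0).eventually_ge_atTop k₀,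
    (rpow_nat_top ha0).eventually_ge_atTop 1] with u h1 h2 h3 x
  obtain ⟨h4, h5, h6, h7⟩ := h1
  have hu : (2 : ℝ) ≤ u := by exact_mod_cast h4
  set k := ⌊(u : ℝ) ^ a⌋₊ with hk
  have huk : u ≤ k := by
    apply Nat.le_floor
    calc (u : ℝ) = (u : ℝ) ^ (1 : ℝ) := (Real.rpow_one _).symm
      _ ≤ _ := Real.rpow_le_rpow_of_exponent_le (by linarith) ha.le
  have h8 := h (PN u) k h2 (fun q hq => by
    rw [mem_PN] at hq
    exact ⟨hq.2, by rw [pow_one]; omega⟩) x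
  unfold nc
  have hV := V_pos u
  have hua : 0 < (u : ℝ) ^ a := Real.rpow_pos_of_pos (by linarith) _
  rw [← hk, div_le_iff₀ (by positivity)]
  calc (CQ (PN u) x k : ℝ) ≤ C * k * V u := h8
    _ ≤ C * (u : ℝ) ^ a * V u := by gcongr
    _ = _ := by ring

/-- **The primes, finite form.** -/
theorem primes_fin {a : ℝ} (ha : 1 < a) (ε : ℝ) (hε : 0 < ε) : ∀ᶠ u : ℕ in atTop, ∀ x' : ℕ,
    (∃ n : ℕ, (Real.exp u < n ∧ (n : ℝ) < 3 * Real.exp u) ∧ nc a u x' - ε ≤ Rr {m : ℕ | m.Prime} a n) ∧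
    (∃ n : ℕ, (Real.exp u < n ∧ (n : ℝ) < 3 * Real.exp u) ∧ Rr {m : ℕ | m.Prime} a n ≤ nc a u x' + ε) := by
  obtain ⟨C, hC, hb⟩ := nc_bdd ha
  set δ := ε / (1 + C) with hδ
  have hδ0 : 0 < δ := by positivity
  have hδC : δ * (1 + C) = ε := by
    rw [hδ]
    field_simp
  filter_upwards [hb, prime_up ha δ hδ0, prime_lo ha δ hδ0] with u h1 h2 h3 x'
  have h4 := h1 x'
  have h0 := nc_nonneg a u x'
  obtain ⟨n, hn, hn2⟩ := h2 x'
  obtain ⟨m, hm, hm2⟩ := h3 x'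
  refine ⟨⟨n, hn, ?_⟩, ⟨m, hm, ?_⟩⟩
  · by_contra hcon
    push Not at hcon
    have h5 : (1 + δ) * Rr {m : ℕ | m.Prime} a n < (1 + δ) * (nc a u x' - ε) :=
      mul_lt_mul_of_pos_left hcon (by linarith)
    have h6 : δ * nc a u x' ≤ δ * C := mul_le_mul_of_nonneg_left h4 hδ0.le
    have h7 : 0 < δ * ε := by positivity
    nlinarith
  · have h6 : δ * nc a u x' ≤ δ * C := mul_le_mul_of_nonneg_left h4 hδ0.le
    nlinarith

end Pool.Agent.H531.MS
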