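import Pool.Agent.H531.MS.Eqv

set_option autoImplicit false

/-!
# The windows of the random set and the interval sieve
-/

open Finset MeasureTheory ProbabilityTheory Filter Topology

namespace Pool.Agent.H531.MS

open Pool.Agent.T2H31.HV Pool.Agent.H531.SI
open Pool.Agent.T2H32.BF (V V_pos V_anti V_ratio z0 z0_mono z0_lim z0_top R Model)

theorem half_log (η : ℝ) (hη : 0 < η) : ∀ᶠ u : ℕ in atTop,
    (1 + η) * Real.log u ≤ (1 + 2 * η) * Real.log (u / 2 : ℕ) := by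
  filter_upwards [L_top.eventually_ge_atTop ((1 + 2 * η) * Real.log 3 / η), eventually_ge_atTop 3] with u h1 h2
  have hu : (3 : ℝ) ≤ u := by exact_mod_cast h2
  have h3 : (u : ℝ) / 3 ≤ (u / 2 : ℕ) := by
    have h4 : u ≤ 3 * (u / 2) := by omega
    have h5 : (u : ℝ) ≤ 3 * ((u / 2 : ℕ) : ℝ) := by exact_mod_cast h4
    linarith
  have h4 := Real.log_le_log (by positivity) h3
  rw [Real.log_div (by linarith) (by norm_num)] at h4
  rw [div_le_iff₀ hη] at h1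
  nlinarith

/-- the sieve limits between `u / 2` and `u ^ (1 + η)` are equivalent -/
theorem limits_equiv {a : ℝ} (ha : 1 < a) (ε : ℝ) (hε : 0 < ε) : ∃ η : ℝ, 0 < η ∧ ∀ᶠ u : ℕ in atTop, ∀ t : ℕ,
    u / 2 ≤ t → (t : ℝ) ≤ (u : ℝ) ^ (1 + η) →
      (∀ x' : ℕ, |(CQ (PN t) x' ⌊(u : ℝ) ^ a⌋₊ : ℝ) - CQ (PN u) x' ⌊(u : ℝ) ^ a⌋₊| ≤ ε * ((u : ℝ) ^ a * V u)) ∧
      |V u / V t - 1| ≤ ε := by
  set b := (1 + a) / 2 with hb
  have hb1 : 1 < b := by
    rw [hb]
    linarith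
  have hba : b < a := by
    rw [hb]
    linarith
  obtain ⟨A, hlev⟩ := level (show 0 < b by linarith) hba
  obtain ⟨C, k₀, hC, hex⟩ := extra A
  set κ := min (min ε 1 / (8 * (C + 1))) (min 1 ((a - 1) / 2)) with hκ
  have hκ0 : 0 < κ := by
    rw [hκ]
    have : 0 < a - 1 := by linarith
    positivity
  have hκ1 : κ ≤ 1 := (min_le_right _ _).trans (min_le_left _ _)
  have hκa : κ ≤ (a - 1) / 2 := (min_le_right _ _).trans (min_le_right _ _)
  have hκε : 8 * (C + 1) * κ ≤ ε := by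
    have h1 : κ ≤ min ε 1 / (8 * (C + 1)) := min_le_left _ _
    rw [le_div_iff₀ (by positivity)] at h1
    have := min_le_left ε 1
    linarith
  have hCκ : 0 ≤ C * κ := by positivity
  obtain ⟨u₁, hu₁, hrec⟩ := recip_near κ hκ0
  obtain ⟨u₂, hu₂, hVn⟩ := V_near κ hκ0
  refine ⟨κ / 2, by positivity, ?_⟩
  filter_upwards [hlev k₀, half_log (κ / 2) (by positivity), floor_facts (show 0 < a by linarith) (1 / 2) (by norm_num),
    eventually_ge_atTop (2 * u₁ + 2), eventually_ge_atTop (2 * u₂ + 2)] with u h1 h2 h3 h4 h5 t ht1 ht2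
  obtain ⟨hu2, hY0, hY1, hY2⟩ := h3
  set Y := ⌊(u : ℝ) ^ a⌋₊ with hY
  set v := u / 2 with hv
  have hu : (2 : ℝ) ≤ u := by exact_mod_cast hu2
  have hu0 : (0 : ℝ) < u := by linarith
  have hvu : v ≤ u := Nat.div_le_self _ _
  -- the largest limit
  set T := max t u with hT
  have htT : t ≤ T := le_max_left _ _
  have huT : u ≤ T := le_max_right _ _
  have hu1 : (u : ℝ) ≤ (u : ℝ) ^ (1 + κ / 2) := by
    calc (u : ℝ) = (u : ℝ) ^ (1 : ℝ) := (Real.rpow_one _).symm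
      _ ≤ _ := Real.rpow_le_rpow_of_exponent_le (by linarith) (by linarith)
  have hTu : (T : ℝ) ≤ (u : ℝ) ^ (1 + κ / 2) := by
    rw [hT, Nat.cast_max]
    exact max_le ht2 hu1
  have hT0 : (0 : ℝ) < T := hu0.trans_le (by exact_mod_cast huT)
  have hlogT : Real.log T ≤ (1 + κ) * Real.log v := by
    have h6 := Real.log_le_log hT0 hTu
    rw [Real.log_rpow hu0] at h6
    have e : (1 + 2 * (κ / 2)) = 1 + κ := by ring
    rw [e] at h2
    exact h6.trans h2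
  have hTb : (T : ℝ) ≤ (u : ℝ) ^ b :=
    hTu.trans (Real.rpow_le_rpow_of_exponent_le (by linarith) (by rw [hb]; linarith))
  have hsum := hrec v T (by omega) (hvu.trans huT) hlogT
  have hVV := hVn v T (by omega) (hvu.trans huT) hlogT
  have hVv := V_pos v
  have hVT := V_pos T
  have hVu := V_pos u
  have hVt := V_pos t
  have m1 : V T ≤ V u := V_anti huT
  have m2 : V u ≤ V v := V_anti hvu
  have m3 : V T ≤ V t := V_anti htT
  have m4 : V t ≤ V v := V_anti ht1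
  have hsq : (1 + κ) ^ 2 ≤ 1 + 3 * κ := by nlinarith
  have hsq4 : (1 + κ) ^ 2 ≤ 4 := by nlinarith
  have hVvu : V v ≤ 4 * V u := by
    calc V v ≤ (1 + κ) ^ 2 * V T := hVV
      _ ≤ 4 * V u := mul_le_mul hsq4 m1 hVT.le (by norm_num)
  constructor
  · intro x'
    have e1 : PN v ∪ PI v T = PN T := (PN_union v T (hvu.trans huT)).symm
    have h7 := hex (PN v) (PI v T) x' Y (fun q hq => ((mem_PN _ _).1 hq).2)
      (fun p hp => (mem_PI.1 hp).2) (fun p hp => by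
        have hp1 := mem_PI.1 hp
        have hpu : (p : ℝ) ≤ (u : ℝ) ^ b := le_trans (by exact_mod_cast hp1.1.2) hTb
        have hy2 : (u : ℝ) ^ a / 2 ≤ Y := by linarith
        refine ⟨(h1 Y p 0 hy2 hp1.2.pos hpu (by
          rw [Nat.cast_zero]
          positivity)).1, fun q hq => ?_⟩
        have hq1 := (mem_PN _ _).1 hq
        refine (h1 Y p q hy2 hp1.2.pos hpu (le_trans ?_ hTb)).2
        exact_mod_cast hq1.1.trans (hvu.trans huT))
    rw [e1] at h7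
    have hsub : ∀ {s s' : ℕ}, s ≤ s' → PN s ⊆ PN s' := by
      intro s s' hss p hp
      rw [mem_PN] at hp ⊢
      exact ⟨hp.1.trans hss, hp.2⟩
    have k1 : (CQ (PN T) x' Y : ℝ) ≤ CQ (PN t) x' Y := by exact_mod_cast CQ_anti (hsub htT) x' Y
    have k2 : (CQ (PN t) x' Y : ℝ) ≤ CQ (PN v) x' Y := by exact_mod_cast CQ_anti (hsub ht1) x' Y
    have k3 : (CQ (PN T) x' Y : ℝ) ≤ CQ (PN u) x' Y := by exact_mod_cast CQ_anti (hsub huT) x' Y
    have k4 : (CQ (PN u) x' Y : ℝ) ≤ CQ (PN v) x' Y := by exact_mod_cast CQ_anti (hsub hvu) x' Y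
    have k5 : C * Y * (∏ q ∈ PN v, (1 - 1 / (q : ℝ))) * ∑ p ∈ PI v T, 1 / (p : ℝ) ≤ ε * ((u : ℝ) ^ a * V u) := by
      have e2 : (∏ q ∈ PN v, (1 - 1 / (q : ℝ))) = V v := rfl
      rw [e2]
      have hua : 0 ≤ (u : ℝ) ^ a := by positivity
      calc C * Y * V v * ∑ p ∈ PI v T, 1 / (p : ℝ) ≤ C * (u : ℝ) ^ a * (4 * V u) * (2 * κ) := by
            gcongr
        _ = 8 * (C * κ) * ((u : ℝ) ^ a * V u) := by ring
        _ ≤ ε * ((u : ℝ) ^ a * V u) := by
          gcongr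
          linarith
    rw [abs_le]
    constructor <;> linarith
  · have h3κ : 3 * κ ≤ ε := by linarith
    rw [abs_le]
    constructor
    · -- `V u / V t ≥ V T / V v ≥ 1 / (1 + κ)² ≥ 1 - 3 κ`
      have h6 : (1 - ε) * V t ≤ V u := by
        rcases le_or_gt 1 ε with h7 | h7
        · have : (1 - ε) * V t ≤ 0 := mul_nonpos_of_nonpos_of_nonneg (by linarith) hVt.le
          linarith
        · have h8 : (1 - ε) * V t ≤ (1 - 3 * κ) * V v := by
            have h9 : 0 ≤ 1 - 3 * κ := by linarith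
            calc (1 - ε) * V t ≤ (1 - 3 * κ) * V t := by gcongr
              _ ≤ _ := by gcongr
          have h9 : (1 - 3 * κ) * V v ≤ (1 - 3 * κ) * ((1 + κ) ^ 2 * V T) :=
            mul_le_mul_of_nonneg_left hVV (by linarith)
          have h10 : (1 - 3 * κ) * (1 + κ) ^ 2 ≤ 1 := by
            have : (1 - 3 * κ) * (1 + κ) ^ 2 ≤ (1 - 3 * κ) * (1 + 3 * κ) :=
              mul_le_mul_of_nonneg_left hsq (by linarith)
            have e : (1 - 3 * κ) * (1 + 3 * κ) = 1 - 9 * κ ^ 2 := by ring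
            have := sq_nonneg κ
            linarith
          have h11 : (1 - 3 * κ) * ((1 + κ) ^ 2 * V T) ≤ V T := by
            calc (1 - 3 * κ) * ((1 + κ) ^ 2 * V T) = (1 - 3 * κ) * (1 + κ) ^ 2 * V T := by ring
              _ ≤ 1 * V T := by gcongr
              _ = V T := one_mul _
          linarith
      have h7 : 1 - ε ≤ V u / V t := by
        rw [le_div_iff₀ hVt]
        exact h6
      linarith
    · have h6 : V u / V t ≤ 1 + 3 * κ := by
        rw [div_le_iff₀ hVt]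
        calc V u ≤ V v := m2
          _ ≤ (1 + κ) ^ 2 * V T := hVV
          _ ≤ (1 + 3 * κ) * V t := mul_le_mul hsq m3 hVT.le (by linarith)
      linarith

theorem w0_bounds (η : ℝ) (hη : 0 < η) : ∀ᶠ u : ℕ in atTop, ∀ x : ℕ, (u : ℝ) ≤ Real.log x →
    Real.log x ≤ u + 2 → u / 2 ≤ w0 x ∧ (w0 x : ℝ) ≤ (u : ℝ) ^ (1 + η) := by
  have h1 : ∀ᶠ u : ℕ in atTop, 2 * (2 * Real.log (u : ℝ)) ^ 3 ≤ (u : ℝ) ^ η := by
    have h2 := logpow_small 4 η hη
    filter_upwards [h2, L_top.eventually_ge_atTop 16] with u h3 h4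
    refine le_trans ?_ h3
    have : 2 * (2 * Real.log (u : ℝ)) ^ 3 = 16 * Real.log (u : ℝ) ^ 3 := by ring
    rw [this, pow_succ _ 3, mul_comm]
    gcongr
  filter_upwards [h1, eventually_ge_atTop 3] with u h2 h3 x hx1 hx2
  have hu : (3 : ℝ) ≤ u := by exact_mod_cast h3
  obtain ⟨L, hL⟩ : ∃ L, L = Real.log (x : ℝ) := ⟨_, rfl⟩
  have hw : w0 x = ⌊L * Real.log L ^ 3⌋₊ := by
    rw [hL]
    rfl
  rw [← hL] at hx1 hx2
  have hl1 : 1 ≤ Real.log L := by
    rw [Real.le_log_iff_exp_le (by linarith)]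
    have := Real.exp_one_lt_d9
    linarith
  have hL0 : 0 < L := by linarith
  have hl0 : 0 < Real.log L := by linarith
  have hl2 : Real.log L ≤ 2 * Real.log u := by
    have h4 : L ≤ (u : ℝ) ^ 2 := by nlinarith
    have h5 := Real.log_le_log (by linarith) h4
    rw [Real.log_pow] at h5
    push_cast at h5
    exact h5
  constructor
  · rw [hw]
    have h4 : (u : ℝ) ≤ L * Real.log L ^ 3 := by
      have h5 : 1 ≤ Real.log L ^ 3 := one_le_pow₀ hl1
      nlinarith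
    have h5 : u ≤ ⌊L * Real.log L ^ 3⌋₊ := Nat.le_floor h4
    exact (Nat.div_le_self _ _).trans h5
  · rw [hw]
    have h4 : (⌊L * Real.log L ^ 3⌋₊ : ℝ) ≤ L * Real.log L ^ 3 := Nat.floor_le (by positivity)
    refine h4.trans ?_
    have h5 : L * Real.log L ^ 3 ≤ (2 * u) * (2 * Real.log u) ^ 3 := by
      have h6 : L ≤ 2 * u := by linarith
      gcongr
    refine h5.trans ?_
    rw [Real.rpow_add (by linarith), Real.rpow_one]
    calc 2 * (u : ℝ) * (2 * Real.log u) ^ 3 = u * (2 * (2 * Real.log u) ^ 3) := by ring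
      _ ≤ _ := by gcongr

/-- from large `x` to large `u` -/
theorem ev_trans {p : ℕ → Prop} (h : ∀ᶠ x : ℕ in atTop, p x) : ∀ᶠ u : ℕ in atTop, ∀ x : ℕ, (u : ℝ) ≤ Real.log x → p x := by
  obtain ⟨N, hN⟩ := eventually_atTop.1 h
  filter_upwards [eventually_ge_atTop (N + 1)] with u hu x hx
  apply hN
  have h1 : (1 : ℝ) ≤ u := by
    have : 1 ≤ u := by omega
    exact_mod_cast this
  have hx0 : (0 : ℝ) < x := by
    by_contra hcon
    have : (x : ℝ) = 0 := le_antisymm (not_lt.1 hcon) (Nat.cast_nonneg x)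
    rw [this, Real.log_zero] at hx
    linarith
  have h2 : Real.log x ≤ x := by
    have := Real.log_le_sub_one_of_pos hx0
    linarith
  have h3 : (u : ℝ) ≤ x := hx.trans h2
  have h4 : u ≤ x := by exact_mod_cast h3
  omega

/-- **The windows of a good set.** -/
theorem window {b : ℕ → ℕ} (hb : Good b) {a : ℝ} (ha : 2 < a) (ε : ℝ) (hε : 0 < ε) : ∀ᶠ u : ℕ in atTop,
    ∀ x y x'' : ℕ, (u : ℝ) ≤ Real.log x → Real.log x ≤ u + 2 → ⌊(u : ℝ) ^ a⌋₊ ≤ y →
      (y : ℝ) ≤ ((u : ℝ) + 2) ^ a + 1 → (∀ y', sv (u / 2) x y' b = CQ (PN (u / 2)) x'' y') →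
        |((R z0 b ∩ Set.Ioc x (x + y)).ncard : ℝ) * Real.log x - CQ (PN u) x'' ⌊(u : ℝ) ^ a⌋₊ / V u| ≤
          ε * (u : ℝ) ^ a := by
  have ha1 : 1 < a := by linarith
  have ha0 : 0 < a := by linarith
  obtain ⟨C, hC, hbdd⟩ := nc_bdd ha1
  set κ := min ε 1 / (C + 12) with hκ
  have hκ0 : 0 < κ := by positivity
  have hκm : (C + 12) * κ = min ε 1 := by
    rw [hκ]
    field_simp
  have hκε : (C + 12) * κ ≤ ε := hκm.trans_le (min_le_left _ _)
  have hκ1 : κ ≤ 1 := by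
    have : (C + 12) * κ ≤ 1 := hκm.trans_le (min_le_right _ _)
    nlinarith
  obtain ⟨η, hη, heq⟩ := limits_equiv ha1 κ hκ0
  set δ := (a - 2) / 2 with hδ
  have hδ0 : 0 < δ := by
    rw [hδ]
    linarith
  set A := ⌈a⌉₊ + 1 with hA
  have hcg := ev_trans (count_good hb κ δ A hκ0 hδ0 (by omega))
  have hlt : 2 + δ < a := by
    rw [hδ]
    linarith
  have hevδ : ∀ᶠ u : ℕ in atTop, ((u : ℝ) + 2) ^ (2 + δ) ≤ (u : ℝ) ^ a / 2 := by
    filter_upwards [ratio_small hlt (1 / (2 * 2 ^ (2 + δ))) (by positivity), eventually_ge_atTop 2] with u h1 h2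
    have hu : (2 : ℝ) ≤ u := by exact_mod_cast h2
    calc ((u : ℝ) + 2) ^ (2 + δ) ≤ (2 * u) ^ (2 + δ) :=
          Real.rpow_le_rpow (by linarith) (by linarith) (by linarith)
      _ = 2 ^ (2 + δ) * (u : ℝ) ^ (2 + δ) := Real.mul_rpow (by norm_num) (by linarith)
      _ ≤ 2 ^ (2 + δ) * (1 / (2 * 2 ^ (2 + δ)) * (u : ℝ) ^ a) := by gcongr
      _ = (u : ℝ) ^ a / 2 := by field_simp
  filter_upwards [hbdd, heq, w0_bounds η hη, hcg, hevδ, pow_near ha1.le κ hκ0, floor_facts ha0 (1 / 2) (by norm_num),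
    eventually_ge_atTop 4] with u h1 h2 h3 h4 h5 h6 h7 h8 x y x'' hx1 hx2 hy1 hy2 hsv
  obtain ⟨hu2, hY0, hY1, hY2⟩ := h7
  have hu : (4 : ℝ) ≤ u := by exact_mod_cast h8
  have hu0 : (0 : ℝ) < u := by linarith
  set Y := ⌊(u : ℝ) ^ a⌋₊ with hY
  have hY3 := Nat.lt_floor_add_one ((u : ℝ) ^ a)
  rw [← hY] at hY3
  have hua : 0 < (u : ℝ) ^ a := Real.rpow_pos_of_pos hu0 _
  have hyR : (Y : ℝ) ≤ y := by exact_mod_cast hy1
  obtain ⟨hw1, hw2⟩ := h3 x hx1 hx2
  set w := w0 x with hw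
  have hua1 : 1 ≤ (u : ℝ) ^ a := Real.one_le_rpow (by linarith) ha0.le
  have hyub : (y : ℝ) ≤ 3 * (u : ℝ) ^ a := by
    have : κ * (u : ℝ) ^ a ≤ 1 * (u : ℝ) ^ a := by gcongr
    linarith [h6.1]
  -- the count
  have c1 := h4 x hx1 y (by
      calc Real.log x ^ (2 + δ) ≤ ((u : ℝ) + 2) ^ (2 + δ) := Real.rpow_le_rpow (by linarith) hx2 (by linarith)
        _ ≤ (u : ℝ) ^ a / 2 := h5
        _ ≤ Y := by linarith
        _ ≤ y := hyR) (by
      calc (y : ℝ) ≤ 3 * (u : ℝ) ^ a := hyub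
        _ ≤ u * (u : ℝ) ^ (⌈a⌉₊ : ℝ) := by
          have : (u : ℝ) ^ a ≤ (u : ℝ) ^ (⌈a⌉₊ : ℝ) :=
            Real.rpow_le_rpow_of_exponent_le (by linarith) (Nat.le_ceil a)
          exact mul_le_mul (by linarith) this hua.le hu0.le
        _ = (u : ℝ) ^ A := by
          rw [Real.rpow_natCast, hA, pow_succ]
          ring
        _ ≤ Real.log x ^ A := by gcongr)
  obtain ⟨x', hx'⟩ := crt_window w x b hb.1
  have hVw := V_pos w
  have hVu := V_pos u
  obtain ⟨q1, q2⟩ := h2 w hw1 hw2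
  have huu : (u : ℝ) ≤ (u : ℝ) ^ (1 + η) := by
    calc (u : ℝ) = (u : ℝ) ^ (1 : ℝ) := (Real.rpow_one _).symm
      _ ≤ _ := Real.rpow_le_rpow_of_exponent_le (by linarith) (by linarith)
  have hv2 : ((u / 2 : ℕ) : ℝ) ≤ (u : ℝ) ^ (1 + η) := by
    refine le_trans ?_ huu
    exact_mod_cast Nat.div_le_self u 2
  obtain ⟨q3, q4⟩ := h2 (u / 2) le_rfl hv2
  set D := (u : ℝ) ^ a * V u with hD
  have hD0 : 0 < D := by positivity
  -- the survivors
  have s1 : (sv w x y b : ℝ) = CQ (PN w) x' y := by rw [hx' w le_rfl y]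
  have s2 : (CQ (PN w) x' Y : ℝ) ≤ CQ (PN w) x' y := by exact_mod_cast CQ_mono _ _ hy1
  have s3 : (CQ (PN w) x' y : ℝ) ≤ CQ (PN w) x' Y + (y - Y) := by
    have h9 := CQ_add (PN w) x' Y (y - Y)
    rw [Nat.add_sub_cancel' hy1] at h9
    have h10 : (CQ (PN w) x' y : ℝ) ≤ ((CQ (PN w) x' Y + (y - Y) : ℕ) : ℝ) := by exact_mod_cast h9
    rwa [Nat.cast_add, Nat.cast_sub hy1] at h10
  have s4 : (y : ℝ) - Y ≤ κ * D := by linarith [h6.2]
  have s5 := abs_le.1 (q1 x')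
  have s6 := abs_le.1 (q3 x')
  have s7 := abs_le.1 (q3 x'')
  have s8 : (CQ (PN (u / 2)) x' Y : ℝ) = CQ (PN (u / 2)) x'' Y := by
    rw [← hx' (u / 2) hw1 Y, hsv Y]
  set M := (CQ (PN u) x'' Y : ℝ) with hM
  have hM0 : 0 ≤ M := Nat.cast_nonneg _
  have t1 : |(sv w x y b : ℝ) - M| ≤ 4 * (κ * D) := by
    rw [abs_le]
    constructor <;> linarith [s5.1, s5.2, s6.1, s6.2, s7.1, s7.2]
  have hbd : M ≤ C * D := by
    have h9 := h1 x''
    unfold nc at h9
    rw [← hY, ← hD, div_le_iff₀ hD0] at h9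
    exact h9
  have q2' := abs_le.1 q2
  have t2 : |(sv w x y b : ℝ) / V w - M / V w| ≤ 8 * κ * (u : ℝ) ^ a := by
    rw [← sub_div, abs_div, abs_of_pos hVw, div_le_iff₀ hVw]
    refine t1.trans ?_
    have h9 : V u ≤ 2 * V w := by
      have h10 : V u / V w ≤ 2 := by linarith
      rwa [div_le_iff₀ hVw] at h10
    have : κ * (u : ℝ) ^ a * V u ≤ κ * (u : ℝ) ^ a * (2 * V w) := by gcongr
    rw [hD]
    linarith
  have t3 : |M / V w - M / V u| ≤ C * κ * (u : ℝ) ^ a := by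
    have e : M / V w - M / V u = M / V u * (V u / V w - 1) := by field_simp
    rw [e, abs_mul, abs_of_nonneg (show 0 ≤ M / V u by positivity)]
    have h9 : M / V u ≤ C * (u : ℝ) ^ a := by
      rw [div_le_iff₀ hVu]
      rw [hD] at hbd
      linarith
    calc M / V u * |V u / V w - 1| ≤ C * (u : ℝ) ^ a * κ := by gcongr
      _ = _ := by ring
  have t4 : |((R z0 b ∩ Set.Ioc x (x + y)).ncard : ℝ) * Real.log x - M / V u| ≤
      κ * y + 8 * κ * (u : ℝ) ^ a + C * κ * (u : ℝ) ^ a := by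
    have h9 := abs_sub_le (((R z0 b ∩ Set.Ioc x (x + y)).ncard : ℝ) * Real.log x) ((sv w x y b : ℝ) / V w) (M / V u)
    have h10 := abs_sub_le ((sv w x y b : ℝ) / V w) (M / V w) (M / V u)
    linarith
  refine t4.trans ?_
  have t5 : κ * y ≤ κ * (3 * (u : ℝ) ^ a) := by gcongr
  have t6 : (C + 12) * κ * (u : ℝ) ^ a ≤ ε * (u : ℝ) ^ a := by gcongr
  have t7 : 0 ≤ κ * (u : ℝ) ^ a := by positivity
  linarith

end Pool.Agent.H531.MS
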